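import Pool.Agent.H16.MK.KC1

/-! Dimension three: the interval `(0, 1/2)` (MP_c844e7). -/

set_option autoImplicit false

open MeasureTheory Set MB

namespace MK

theorem exp_up3 {a : ℝ} (h0 : 0 ≤ a) (h1 : a ≤ 1) :
    Real.exp a ≤ 1 + a + a ^ 2 / 2 + 2 / 9 * a ^ 3 := by
  have h := Real.exp_bound (x := a) (by rw [abs_of_nonneg h0]; exact h1) (n := 3) (by norm_num)
  rw [abs_of_nonneg h0] at h
  have h2 := (abs_le.1 h).2
  simp [Finset.sum_range_succ, Nat.factorial] at h2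
  linarith

theorem F1_A {k a y : ℝ} (hk : 2 ≤ k) (ha : 0 < a) (hy : a / (a + 2) ≤ y) :
    -(k ^ 3 / 12 * ((2 + a / 2) / (a + 2)) + k * (a / (a + 2))) ≤ F1 0 k k a y := by
  have hk2 : 4 ≤ k ^ 2 := by nlinarith
  have h1 : F1 0 k k a y = -(k ^ 3 / 12 * (1 + 5 / 4 * a + a ^ 2 / 8)) +
      y * (k * (k ^ 2 * (3 + 3 / 2 * a + a ^ 2 / 8) / 12 - 1)) := by
    unfold F1
    ring
  have h2 : 0 ≤ k * (k ^ 2 * (3 + 3 / 2 * a + a ^ 2 / 8) / 12 - 1) := by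
    refine mul_nonneg (by linarith) ?_
    have h3 : 12 ≤ k ^ 2 * (3 + 3 / 2 * a + a ^ 2 / 8) := by
      have h4 : 3 ≤ 3 + 3 / 2 * a + a ^ 2 / 8 := by
        have := sq_nonneg a
        linarith
      nlinarith
    linarith
  have h3 := mul_le_mul_of_nonneg_right hy h2
  rw [h1]
  refine le_trans (le_of_eq ?_) (add_le_add le_rfl h3)
  field_simp
  ring

theorem kk_half {ρ : ℝ} (h0 : 0 < ρ) (h : ρ < 1 / 2) :
    kk (1 / 2) ρ = Real.sqrt 2 * Real.exp ((ρ ^ 2 - 1 / 4) / 2) / Real.sqrt ρ := by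
  rw [kk_of_lt h]
  have h1 : om (1 / 2) ρ = Real.sqrt 2 * Real.sqrt ρ := by
    unfold om
    have e : ρ / (1 / 2) = 2 * ρ := by ring
    rw [e, Real.sqrt_mul (by norm_num)]
    apply min_eq_right
    rw [← Real.sqrt_mul (by norm_num)]
    rw [Real.sqrt_le_one]
    linarith
  rw [h1]
  have h2 : Real.sqrt ρ ≠ 0 := (Real.sqrt_pos.2 h0).ne'
  have h3 : ρ = Real.sqrt ρ * Real.sqrt ρ := (Real.mul_self_sqrt h0.le).symm
  have h4 : Real.sqrt 2 * Real.sqrt ρ * Real.exp ((ρ ^ 2 - 1 / 4) / 2) / ρ =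
      Real.sqrt 2 * Real.sqrt ρ * Real.exp ((ρ ^ 2 - 1 / 4) / 2) / (Real.sqrt ρ * Real.sqrt ρ) := by
    rw [← h3]
  rw [h4]
  field_simp

theorem kk_half_ge {ρ : ℝ} (h0 : 0 < ρ) (h : ρ < 1 / 2) : 2 ≤ kk (1 / 2) ρ := by
  have h1 : 0 ≤ kk (1 / 2) ρ := kk_nonneg h0.le
  have h2 : 2 ^ 2 ≤ kk (1 / 2) ρ ^ 2 := by
    rw [kk_half h0 h, div_pow, mul_pow, Real.sq_sqrt (by norm_num), Real.sq_sqrt h0.le,
      ← Real.exp_nat_mul, le_div_iff₀ h0]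
    have e : ((2 : ℕ) : ℝ) * ((ρ ^ 2 - 1 / 4) / 2) = ρ ^ 2 - 1 / 4 := by push_cast; ring
    rw [e]
    have h3 := Real.add_one_le_exp (ρ ^ 2 - 1 / 4)
    nlinarith
  exact (pow_le_pow_iff_left₀ (by norm_num) h1 two_ne_zero).1 h2

/-- The interval `(0, 1/2)`. -/
theorem KA1 {w : ℝ} (hw : 0 < w) (hw6 : w ^ 6 = 4)
    (hJ : IntegrableOn (Jk 1 (1 / 2) w) (Ioi (0 : ℝ))) :
    -(209 / 600 * Real.exp (-(3 / 8)) + 1 / 56 * Real.exp (-(1 / 8))) ≤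
      ∫ x in (0 : ℝ)..(1 / 2), Jk 1 (1 / 2) w x := by
  obtain ⟨q, hq⟩ : ∃ q, q = Real.sqrt 2 := ⟨_, rfl⟩
  have hq2 : q ^ 2 = 2 := by rw [hq]; exact Real.sq_sqrt (by norm_num)
  have hq0 : 0 < q := by rw [hq]; exact Real.sqrt_pos.2 (by norm_num)
  obtain ⟨u, hu⟩ : ∃ u, u = Real.exp (-(1 / 8)) := ⟨_, rfl⟩
  have hu0 : 0 < u := by rw [hu]; exact Real.exp_pos _
  have hu3 : Real.exp (-(3 / 8)) = u ^ 3 := by
    rw [hu, ← Real.exp_nat_mul]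
    congr 1
    norm_num
  rw [hu3, ← hu]
  set G : ℝ → ℝ := fun ρ => -(q / 6 * u ^ 3 * (2 * Real.sqrt ρ + 36 / 100 * Real.sqrt ρ ^ 5) +
    q / 7 * u * Real.sqrt ρ ^ 7) with hG
  have h1 := KSeg (G := G) (G' := fun ρ => -(q / 6 * u ^ 3 * ((1 + 9 / 10 * ρ ^ 2) / Real.sqrt ρ) +
    q / 2 * u * Real.sqrt ρ ^ 5)) hJ le_rfl (show (0 : ℝ) ≤ 1 / 2 by norm_num) ?_ ?_ ?_
  · refine le_trans (le_of_eq ?_) h1
    have e1 : G 0 = 0 := by
      simp only [hG]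
      rw [Real.sqrt_zero]
      ring
    have e2 : Real.sqrt (1 / 2) = q / 2 := by
      rw [Real.sqrt_eq_iff_mul_self_eq (by norm_num) (by positivity)]
      nlinarith
    rw [e1]
    simp only [hG]
    rw [e2]
    have e3 : q ^ 4 = 4 := by nlinarith
    have e4 : q ^ 6 = 8 := by nlinarith
    have e5 : q ^ 8 = 16 := by nlinarith
    have e6 : -(q / 6 * u ^ 3 * (2 * (q / 2) + 36 / 100 * (q / 2) ^ 5) + q / 7 * u * (q / 2) ^ 7) =
      -(1 / 6 * u ^ 3 * (q ^ 2 + 36 / 3200 * q ^ 6) + 1 / 896 * u * q ^ 8) := by ring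
    rw [e6, hq2, e4, e5]
    ring
  · apply Continuous.continuousOn
    fun_prop
  · intro x hx
    have hs : Real.sqrt x ≠ 0 := (Real.sqrt_pos.2 hx.1).ne'
    have d1 := (hasDerivAt_id x).sqrt hx.1.ne'
    simp only [id] at d1
    have d2 := ((d1.const_mul 2).add ((d1.pow 5).const_mul (36 / 100))).const_mul (q / 6 * u ^ 3)
    have d3 := (d1.pow 7).const_mul (q / 7 * u)
    have d4 := (d2.add d3).neg
    refine d4.congr_deriv ?_
    have hx2 : x ^ 2 = Real.sqrt x ^ 4 := by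
      have := Real.sq_sqrt hx.1.le
      calc x ^ 2 = (Real.sqrt x ^ 2) ^ 2 := by rw [this]
        _ = Real.sqrt x ^ 4 := by ring
    rw [hx2]
    simp
    field_simp
    ring
  · intro ρ hρ
    obtain ⟨h0, h⟩ := hρ
    have ha : 0 < ρ ^ 2 := pow_pos h0 2
    have hps := KPsi (n := 1) (r := 1 / 2) (w := w) (by norm_num) le_rfl h0 hw 0 0 0 (1 / 3)
      (fun x _ => by
        have e : (((1 : ℕ) : ℝ) + 2) / ((1 : ℕ) : ℝ) = ((3 : ℕ) : ℝ) := by norm_num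
        rw [e, Real.rpow_natCast]
        norm_num)
    have hy := m1_lo 1 ha
    have hg : gk (1 / 2) ρ = 0 := gk_of_lt h0.le h
    have hk2 := kk_half_ge h0 h
    have hkk := kk_half h0 h
    rw [hg] at hps
    obtain ⟨k, hk⟩ : ∃ k, k = kk (1 / 2) ρ := ⟨_, rfl⟩
    rw [← hk] at hps hk2 hkk
    obtain ⟨a, haa⟩ : ∃ a, a = ρ ^ 2 := ⟨_, rfl⟩
    have hF := F1_A (y := m1 1 (ρ ^ 2)) hk2 ha (by
      have e : ρ ^ 2 + ((1 : ℕ) : ℝ) + 1 = ρ ^ 2 + 2 := by push_cast; ring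
      rw [e] at hy
      exact hy)
    have hF2 : F1 0 k k (ρ ^ 2) (m1 1 (ρ ^ 2)) ≤ ps 1 (1 / 2) w ρ := by
      refine le_trans (le_of_eq ?_) hps
      unfold F1 m3 m2
      rw [hw6]
      push_cast
      ring
    have hF3 := hF.trans hF2
    obtain ⟨s, hs⟩ : ∃ s, s = Real.sqrt ρ := ⟨_, rfl⟩
    have hs0 : 0 < s := by rw [hs]; exact Real.sqrt_pos.2 h0
    have hs2 : ρ = s ^ 2 := by rw [hs]; exact (Real.sq_sqrt h0.le).symm
    obtain ⟨X, hX⟩ : ∃ X, X = Real.exp (-ρ ^ 2 / 2) := ⟨_, rfl⟩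
    obtain ⟨E, hE⟩ : ∃ E, E = Real.exp ((ρ ^ 2 - 1 / 4) / 2) := ⟨_, rfl⟩
    obtain ⟨Z, hZ⟩ : ∃ Z, Z = Real.exp (ρ ^ 2) := ⟨_, rfl⟩
    have hXE : X * E = u := by
      rw [hX, hE, hu, ← Real.exp_add]
      congr 1
      ring
    have hE2 : E ^ 2 = u ^ 2 * Z := by
      rw [hE, hu, hZ, ← Real.exp_nat_mul, ← Real.exp_nat_mul, ← Real.exp_add]
      congr 1
      push_cast
      ring
    have hX0 : 0 < X := by rw [hX]; exact Real.exp_pos _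
    have ha4 : ρ ^ 2 ≤ 1 / 4 := by nlinarith
    have hZ2 : Z ≤ 1 + ρ ^ 2 + (ρ ^ 2) ^ 2 / 2 + 2 / 9 * (ρ ^ 2) ^ 3 := by
      rw [hZ]
      exact exp_up3 ha.le (by linarith)
    have hZ3 : Z * ((2 + ρ ^ 2 / 2) / (ρ ^ 2 + 2)) ≤ 1 + 9 / 10 * ρ ^ 2 := by
      rw [← mul_div_assoc, div_le_iff₀ (by positivity)]
      refine (mul_le_mul_of_nonneg_right hZ2 (by positivity)).trans ?_
      rw [← haa] at ha ha4 ⊢
      have h5 : 0 ≤ a * (3 / 10 - 3 / 5 * a - 25 / 36 * a ^ 2 - 1 / 9 * a ^ 3) := by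
        refine mul_nonneg ha.le ?_
        have h6 : a ^ 2 ≤ 1 / 16 := by nlinarith
        have h7 : a ^ 3 ≤ 1 / 64 := by nlinarith
        linarith
      nlinarith
    have hk3 : k = q * E / s := by rw [hkk, hq, hE, hs]
    change -(q / 6 * u ^ 3 * ((1 + 9 / 10 * ρ ^ 2) / Real.sqrt ρ) + q / 2 * u * Real.sqrt ρ ^ 5) ≤
      ρ * Real.exp (-ρ ^ 2 / 2) * ps 1 (1 / 2) w ρ
    rw [← hs, ← hX]
    refine le_trans ?_ (mul_le_mul_of_nonneg_left hF3 (mul_pos h0 hX0).le)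
    have e1 : ρ * X * -(k ^ 3 / 12 * ((2 + ρ ^ 2 / 2) / (ρ ^ 2 + 2)) + k * (ρ ^ 2 / (ρ ^ 2 + 2))) =
        -(q / 6 * u ^ 3 * (Z * ((2 + ρ ^ 2 / 2) / (ρ ^ 2 + 2)) / s) +
          q * u * s * (ρ ^ 2 / (ρ ^ 2 + 2))) := by
      have e2 : ρ * X * k ^ 3 = 2 * q * u ^ 3 * Z / s := by
        rw [hk3]
        have e3 : ρ * X * (q * E / s) ^ 3 = q ^ 2 * q * (X * E) * E ^ 2 * (ρ / s ^ 3) := by
          field_simp
        rw [e3, hXE, hE2, hq2, hs2]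
        field_simp
      have e4 : ρ * X * k = q * u * s := by
        rw [hk3]
        have e5 : ρ * X * (q * E / s) = q * (X * E) * (ρ / s) := by field_simp
        rw [e5, hXE, hs2]
        field_simp
      have e6 : ρ * X * -(k ^ 3 / 12 * ((2 + ρ ^ 2 / 2) / (ρ ^ 2 + 2)) +
          k * (ρ ^ 2 / (ρ ^ 2 + 2))) = -((ρ * X * k ^ 3) / 12 * ((2 + ρ ^ 2 / 2) / (ρ ^ 2 + 2)) +
          (ρ * X * k) * (ρ ^ 2 / (ρ ^ 2 + 2))) := by ring
      rw [e6, e2, e4]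
      ring
    rw [e1, neg_le_neg_iff]
    refine add_le_add (mul_le_mul_of_nonneg_left ?_ (by positivity)) ?_
    · exact div_le_div_of_nonneg_right hZ3 hs0.le
    · have e7 : q / 2 * u * s ^ 5 = q * u * s * (s ^ 4 / 2) := by ring
      rw [e7]
      refine mul_le_mul_of_nonneg_left ?_ (by positivity)
      have e8 : ρ ^ 2 = s ^ 4 := by rw [hs2]; ring
      rw [e8]
      exact div_le_div_of_nonneg_left (by positivity) (by norm_num) (by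
        have : 0 < s ^ 4 := by positivity
        linarith)

end MK
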