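import Pool.Agent.H16.MK.KN1

/-! Dimensions four and five: the interval `(0, 1/2)` (MP_c844e7). -/

set_option autoImplicit false

open MeasureTheory Set MB

namespace MK

/-- The lower bound of the inner integral as a function of the first moment, `n ≥ 2`, `W = w²`. -/
noncomputable def Fn (n : ℕ) (W g e h a y : ℝ) : ℝ :=
  g * (a + n) - e * y - ((n - 2) / (n + 2) * ((h - e * y) / W) +
    2 / (n + 2) * ((h ^ 2 - 2 * h * e * y + e ^ 2 * ((a - (a + n - 1) * y) / 2)) / W ^ 2))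

theorem Fn_lin (n : ℕ) (W g e h a y : ℝ) :
    Fn n W g e h a y = Fn n W g e h a 0 + (Fn n W g e h a 1 - Fn n W g e h a 0) * y := by
  unfold Fn
  ring

theorem Fn_ps {n : ℕ} (hn : 2 ≤ n) {r ρ w : ℝ} (hr : 0 < r) (hr1 : r ≤ 1 / 2) (hρ : 0 < ρ)
    (hw : 0 < w) :
    Fn n (w ^ 2) (gk r ρ) (kk r ρ - gk r ρ) (n * gk r ρ + kk r ρ) (ρ ^ 2) (m1 n (ρ ^ 2)) ≤
      ps n r w ρ := by
  have hn0 : (0 : ℝ) < n := by positivity
  have hps := KPsi (n := n) hr hr1 hρ hw 0 ((n - 2) / (n + 2)) (2 / (n + 2)) 0 (fun x hx => by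
    have h1 := fmu_ge n hn x hx
    unfold fmu at h1
    have h2 : (n : ℝ) * x ^ (((n : ℝ) + 2) / n) ≤ (n - 2) * x + 2 * x ^ 2 := by nlinarith
    have h3 : (0 : ℝ) < n + 2 := by linarith
    have e1 : (n : ℝ) / (n + 2) * x ^ (((n : ℝ) + 2) / n) =
      ((n : ℝ) * x ^ (((n : ℝ) + 2) / n)) / (n + 2) := by ring
    have e2 : 0 + ((n : ℝ) - 2) / (n + 2) * x + 2 / (n + 2) * x ^ 2 + 0 * x ^ 3 =
      ((n - 2) * x + 2 * x ^ 2) / (n + 2) := by ring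
    rw [e1, e2]
    exact div_le_div_of_nonneg_right h2 h3.le)
  refine le_trans (le_of_eq ?_) hps
  unfold Fn m2
  ring

theorem Fn_A (n : ℕ) {W k a y : ℝ} (hW : 0 < W) (hk : 0 ≤ k) (hy : 0 ≤ y)
    (hco : (n + 2) * W ^ 2 ≤ (n - 2) * W + k * (a + n + 3)) :
    -((n - 2) / (n + 2) * (k / W) + 2 / (n + 2) * (k ^ 2 / W ^ 2 * (1 + a / 2))) ≤
      Fn n W 0 k k a y := by
  have hn2 : (0 : ℝ) < n + 2 := by positivity
  have e : Fn n W 0 k k a y =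
      -((n - 2) / (n + 2) * (k / W) + 2 / (n + 2) * (k ^ 2 / W ^ 2 * (1 + a / 2))) +
      k * y / ((n + 2) * W ^ 2) * ((n - 2) * W + k * (a + n + 3) - (n + 2) * W ^ 2) := by
    unfold Fn
    field_simp
    ring
  rw [e]
  have h1 : 0 ≤ k * y / ((n + 2) * W ^ 2) * ((n - 2) * W + k * (a + n + 3) - (n + 2) * W ^ 2) :=
    mul_nonneg (by positivity) (by linarith)
  linarith

theorem exp_A {a : ℝ} (h0 : 0 ≤ a) (h1 : a ≤ 1 / 4) :
    Real.exp (a / 2) * (1 + a / 2) ≤ 1 + 11 / 10 * a := by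
  have h2 := exp_up3 (a := a / 2) (by linarith) (by linarith)
  refine (mul_le_mul_of_nonneg_right h2 (by linarith)).trans ?_
  have h5 : 0 ≤ a * (1 / 10 - 3 / 8 * a - 13 / 144 * a ^ 2 - 1 / 72 * a ^ 3) := by
    refine mul_nonneg h0 ?_
    have h6 : a ^ 2 ≤ 1 / 16 := by nlinarith
    have h7 : a ^ 3 ≤ 1 / 64 := by nlinarith
    linarith
  nlinarith

/-- The bound of the integrand, `ρ < 1/2`. -/
theorem KA_pt {n : ℕ} (hn : 2 ≤ n) {r ρ w : ℝ} (hr : 0 < r) (hr1 : r ≤ 1 / 2) (h0 : 0 < ρ)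
    (h : ρ < 1 / 2) (hw : 0 < w)
    (hco : (n + 2) * (w ^ 2) ^ 2 ≤ (n - 2) * w ^ 2 + kk r ρ * (ρ ^ 2 + n + 3)) :
    -((n - 2) / ((n + 2) * w ^ 2) * Real.exp (-(1 / 8)) +
      2 / ((n + 2) * w ^ 4) * Real.exp (-(1 / 8)) ^ 2 *
        (om r ρ ^ 2 * (1 + 11 / 10 * ρ ^ 2) / ρ)) ≤ Jk n r w ρ := by
  have hn2 : (0 : ℝ) ≤ n - 2 := by
    have : (2 : ℝ) ≤ n := by exact_mod_cast hn
    linarith
  have ha : 0 < ρ ^ 2 := pow_pos h0 2
  have ha4 : ρ ^ 2 ≤ 1 / 4 := by nlinarith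
  have h1 := Fn_ps hn hr hr1 h0 hw
  rw [gk_of_lt h0.le h, sub_zero, mul_zero, zero_add] at h1
  have hk0 : 0 ≤ kk r ρ := kk_nonneg h0.le
  have h2 := (Fn_A n (W := w ^ 2) (by positivity) hk0 (m1_nonneg n ha) hco).trans h1
  obtain ⟨o1, o2⟩ := om_mem r ρ
  obtain ⟨k, hk⟩ : ∃ k, k = kk r ρ := ⟨_, rfl⟩
  have hk2 := kk_of_lt (r := r) h
  rw [← hk] at h2 hk0 hk2
  obtain ⟨u, hu⟩ : ∃ u, u = Real.exp (-(1 / 8)) := ⟨_, rfl⟩
  have hu0 : 0 < u := by rw [hu]; exact Real.exp_pos _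
  obtain ⟨X, hX⟩ : ∃ X, X = Real.exp (-ρ ^ 2 / 2) := ⟨_, rfl⟩
  have hX0 : 0 < X := by rw [hX]; exact Real.exp_pos _
  obtain ⟨Z, hZ⟩ : ∃ Z, Z = Real.exp (ρ ^ 2 / 2) := ⟨_, rfl⟩
  have hE : Real.exp ((ρ ^ 2 - 1 / 4) / 2) = u * Z := by
    rw [hu, hZ, ← Real.exp_add]
    congr 1
    ring
  have hXZ : X * Z = 1 := by
    rw [hX, hZ, ← Real.exp_add, ← Real.exp_zero]
    congr 1
    ring
  rw [hE] at hk2
  have hZ2 : Z * (1 + ρ ^ 2 / 2) ≤ 1 + 11 / 10 * ρ ^ 2 := by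
    rw [hZ]
    exact exp_A ha.le ha4
  have e1 : ρ * X * k = om r ρ * u := by
    rw [hk2]
    have : ρ * X * (om r ρ * (u * Z) / ρ) = om r ρ * u * (X * Z) := by field_simp
    rw [this, hXZ, mul_one]
  have e2 : ρ * X * (k ^ 2 * (1 + ρ ^ 2 / 2)) = om r ρ ^ 2 * u ^ 2 * (Z * (1 + ρ ^ 2 / 2)) / ρ := by
    have : ρ * X * (k ^ 2 * (1 + ρ ^ 2 / 2)) = (ρ * X * k) * k * (1 + ρ ^ 2 / 2) := by ring
    rw [this, e1, hk2]
    field_simp
  have e3 : ρ * X * -((n - 2) / (n + 2) * (k / w ^ 2) +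
      2 / (n + 2) * (k ^ 2 / (w ^ 2) ^ 2 * (1 + ρ ^ 2 / 2))) =
      -((n - 2) / ((n + 2) * w ^ 2) * (om r ρ * u) +
      2 / ((n + 2) * w ^ 4) * (om r ρ ^ 2 * u ^ 2 * (Z * (1 + ρ ^ 2 / 2)) / ρ)) := by
    rw [← e1, ← e2]
    field_simp
  have h3 := mul_le_mul_of_nonneg_left h2 (mul_pos h0 hX0).le
  rw [e3] at h3
  unfold Jk
  rw [← hX, ← hu]
  refine le_trans ?_ h3
  rw [neg_le_neg_iff]
  refine add_le_add (mul_le_mul_of_nonneg_left ?_ (by positivity)) ?_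
  · exact mul_le_of_le_one_left hu0.le o2
  · have e4 : 2 / (((n : ℝ) + 2) * w ^ 4) * u ^ 2 * (om r ρ ^ 2 * (1 + 11 / 10 * ρ ^ 2) / ρ) =
      2 / (((n : ℝ) + 2) * w ^ 4) * (om r ρ ^ 2 * u ^ 2 * (1 + 11 / 10 * ρ ^ 2) / ρ) := by ring
    rw [e4]
    refine mul_le_mul_of_nonneg_left ?_ (by positivity)
    have e5 : om r ρ ^ 2 * u ^ 2 * (Z * (1 + ρ ^ 2 / 2)) ≤
        om r ρ ^ 2 * u ^ 2 * (1 + 11 / 10 * ρ ^ 2) :=
      mul_le_mul_of_nonneg_left hZ2 (by positivity)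
    exact div_le_div_of_nonneg_right e5 h0.le

/-- The interval `(0, 1/2)`. -/
theorem KA2 {n : ℕ} (hn : 2 ≤ n) {r w : ℝ} (hr : 0 < r) (hr1 : r ≤ 1 / 2) (hw : 0 < w)
    (hJ : IntegrableOn (Jk n r w) (Ioi (0 : ℝ)))
    (hco : ∀ ρ : ℝ, 0 < ρ → ρ < 1 / 2 →
      (n + 2) * (w ^ 2) ^ 2 ≤ (n - 2) * w ^ 2 + kk r ρ * (ρ ^ 2 + n + 3)) :
    -((n - 2) / ((n + 2) * w ^ 2) * Real.exp (-(1 / 8)) / 2 +
      2 / ((n + 2) * w ^ 4) * Real.exp (-(1 / 8)) ^ 2 *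
        (1 + 11 / 30 * r ^ 2 + (Real.log (1 / 2) - Real.log r) + 11 / 20 * (1 / 4 - r ^ 2))) ≤
      ∫ x in (0 : ℝ)..(1 / 2), Jk n r w x := by
  obtain ⟨u, hu⟩ : ∃ u, u = Real.exp (-(1 / 8)) := ⟨_, rfl⟩
  obtain ⟨A, hA⟩ : ∃ A, A = (n - 2) / ((n + 2) * w ^ 2) * u := ⟨_, rfl⟩
  obtain ⟨B, hB⟩ : ∃ B, B = 2 / ((n + 2) * w ^ 4) * u ^ 2 := ⟨_, rfl⟩
  rw [← hu, ← hA, ← hB]
  have hpt : ∀ ρ : ℝ, 0 < ρ → ρ < 1 / 2 →
      -(A + B * (om r ρ ^ 2 * (1 + 11 / 10 * ρ ^ 2) / ρ)) ≤ Jk n r w ρ := by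
    intro ρ h0 h
    have := KA_pt hn hr hr1 h0 h hw (hco ρ h0 h)
    rw [← hu, ← hA, ← hB] at this
    exact this
  have h1 := KSeg (G := fun ρ => -(A * ρ + B * ((ρ + 11 / 30 * ρ ^ 3) / r)))
    (G' := fun ρ => -(A + B * ((1 + 11 / 10 * ρ ^ 2) / r))) hJ le_rfl hr.le
    (by apply Continuous.continuousOn; fun_prop) (fun x _ => by
      have d1 := (hasDerivAt_id x).const_mul A
      have d2 := (((hasDerivAt_id x).add ((hasDerivAt_pow 3 x).const_mul (11 / 30))).div_const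
        r).const_mul B
      refine (d1.add d2).neg.congr_deriv ?_
      rw [show 3 - 1 = 2 from rfl]
      push_cast
      ring) (fun ρ hρ => by
      have h2 := hpt ρ hρ.1 (lt_of_lt_of_le hρ.2 hr1)
      have h3 : om r ρ ^ 2 = ρ / r := by
        unfold om
        rw [min_eq_right, Real.sq_sqrt (div_nonneg hρ.1.le hr.le)]
        rw [Real.sqrt_le_one, div_le_one hr]
        exact hρ.2.le
      rw [h3] at h2
      have h4 : ρ / r * (1 + 11 / 10 * ρ ^ 2) / ρ = (1 + 11 / 10 * ρ ^ 2) / r := by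
        have := hρ.1.ne'
        field_simp
      rw [h4] at h2
      exact h2)
  have h2 := KSeg (G := fun ρ => -(A * ρ + B * (Real.log ρ + 11 / 20 * ρ ^ 2)))
    (G' := fun ρ => -(A + B * ((1 + 11 / 10 * ρ ^ 2) / ρ))) hJ hr.le hr1
    (by
      refine ContinuousOn.neg (ContinuousOn.add (by fun_prop) (ContinuousOn.mul continuousOn_const
        (ContinuousOn.add ?_ (by fun_prop))))
      exact Real.continuousOn_log.mono fun x hx => by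
        have : r ≤ x := hx.1
        have : 0 < x := by linarith
        exact this.ne') (fun x hx => by
      have hx0 : 0 < x := hr.trans hx.1
      have d1 := (hasDerivAt_id x).const_mul A
      have d2 := ((Real.hasDerivAt_log hx0.ne').add
        ((hasDerivAt_pow 2 x).const_mul (11 / 20))).const_mul B
      refine (d1.add d2).neg.congr_deriv ?_
      rw [show 2 - 1 = 1 from rfl]
      push_cast
      field_simp
      ring) (fun ρ hρ => by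
      have h2 := hpt ρ (hr.trans hρ.1) hρ.2
      rw [om_of_ge hr hρ.1.le] at h2
      simpa using h2)
  have hi1 : IntervalIntegrable (Jk n r w) volume 0 r :=
    (intervalIntegrable_iff_integrableOn_Ioc_of_le hr.le).2 (hJ.mono_set Ioc_subset_Ioi_self)
  have hi2 : IntervalIntegrable (Jk n r w) volume r (1 / 2) :=
    (intervalIntegrable_iff_integrableOn_Ioc_of_le hr1).2 (hJ.mono_set fun x hx => hr.trans hx.1)
  rw [← intervalIntegral.integral_add_adjacent_intervals hi1 hi2]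
  refine le_trans (le_of_eq ?_) (add_le_add h1 h2)
  field_simp
  ring

end MK
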