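import Pool.Agent.H16.MK.KTot

/-! Dimension three: the polynomial inequalities (MP_c844e7). -/

set_option autoImplicit false

open MeasureTheory Set MB

namespace MK

/-- The lower bound of the inner integral as a function of the first moment, `n = 1`. -/
noncomputable def F1 (g e h a y : ℝ) : ℝ :=
  g * (a + 1) - e * y - 1 / 12 * (h ^ 3 - 3 * h ^ 2 * e * y + 3 * h * e ^ 2 * (a * (1 - y) / 2) -
    e ^ 3 * (a / 8 * (2 - a + a * y)))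

theorem F1_lin (g e h a y : ℝ) : F1 g e h a y = F1 g e h a 0 + (F1 g e h a 1 - F1 g e h a 0) * y := by
  unfold F1
  ring

theorem KC1_lo {s : ℝ} (hs : 0 ≤ s) :
    (191 / 200 - 2 * (1 / 2)) + 9 / 20 * (s + 1 / 2) + 1 / 2 * (s + 1 / 2) ^ 2 +
      (-4 / 125 - 9 / 20) / (s + 1 / 2) + -4 / 125 / (s + 1 / 2) ^ 3 ≤
    F1 (2 * (2 * (s + 1 / 2) - 1) * (s + 1 / 2 + 2) / (4 * (s + 1 / 2) * (2 * (s + 1 / 2) + 1)))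
      ((2 * (s + 1 / 2) + 7) / (4 * (s + 1 / 2) * (2 * (s + 1 / 2) + 1)))
      ((8 * (s + 1 / 2) ^ 2 + 14 * (s + 1 / 2) - 1) / (4 * (s + 1 / 2) * (2 * (s + 1 / 2) + 1)))
      ((s + 1 / 2) ^ 2) ((s + 1 / 2) ^ 2 / ((s + 1 / 2) ^ 2 + 2)) := by
  rw [← sub_nonneg]
  have key : F1 (2 * (2 * (s + 1 / 2) - 1) * (s + 1 / 2 + 2) / (4 * (s + 1 / 2) * (2 * (s + 1 / 2) + 1)))
      ((2 * (s + 1 / 2) + 7) / (4 * (s + 1 / 2) * (2 * (s + 1 / 2) + 1)))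
      ((8 * (s + 1 / 2) ^ 2 + 14 * (s + 1 / 2) - 1) / (4 * (s + 1 / 2) * (2 * (s + 1 / 2) + 1)))
      ((s + 1 / 2) ^ 2) ((s + 1 / 2) ^ 2 / ((s + 1 / 2) ^ 2 + 2)) -
      ((191 / 200 - 2 * (1 / 2)) + 9 / 20 * (s + 1 / 2) + 1 / 2 * (s + 1 / 2) ^ 2 +
      (-4 / 125 - 9 / 20) / (s + 1 / 2) + -4 / 125 / (s + 1 / 2) ^ 3) =
      (682 / 75 + 544 / 375 * s + 8723 / 75 * s ^ 2 + 811571 / 1500 * s ^ 3 + 69697 / 125 * s ^ 4 +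
      1673 / 125 * s ^ 5 + 1088 / 25 * s ^ 6 + 30464 / 375 * s ^ 7 + 448 / 75 * s ^ 8 +
      128 / 5 * s ^ 9) /
      ((4 * (s + 1 / 2) * (2 * (s + 1 / 2) + 1)) ^ 3 * ((s + 1 / 2) ^ 2 + 2)) := by
    unfold F1
    field_simp
    ring
  rw [key]
  positivity

theorem KC1_up {s : ℝ} (hs : 0 ≤ s) :
    (191 / 200 - 2 * (1 / 2)) + 9 / 20 * (s + 1 / 2) + 1 / 2 * (s + 1 / 2) ^ 2 +
      (-4 / 125 - 9 / 20) / (s + 1 / 2) + -4 / 125 / (s + 1 / 2) ^ 3 ≤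
    F1 (2 * (2 * (s + 1 / 2) - 1) * (s + 1 / 2 + 2) / (4 * (s + 1 / 2) * (2 * (s + 1 / 2) + 1)))
      ((2 * (s + 1 / 2) + 7) / (4 * (s + 1 / 2) * (2 * (s + 1 / 2) + 1)))
      ((8 * (s + 1 / 2) ^ 2 + 14 * (s + 1 / 2) - 1) / (4 * (s + 1 / 2) * (2 * (s + 1 / 2) + 1)))
      ((s + 1 / 2) ^ 2) ((((s + 1 / 2) ^ 2) ^ 2 + 6 * (s + 1 / 2) ^ 2 + 4) /
        (((s + 1 / 2) ^ 2 + 2) * ((s + 1 / 2) ^ 2 + 6))) := by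
  rw [← sub_nonneg]
  have key : F1 (2 * (2 * (s + 1 / 2) - 1) * (s + 1 / 2 + 2) / (4 * (s + 1 / 2) * (2 * (s + 1 / 2) + 1)))
      ((2 * (s + 1 / 2) + 7) / (4 * (s + 1 / 2) * (2 * (s + 1 / 2) + 1)))
      ((8 * (s + 1 / 2) ^ 2 + 14 * (s + 1 / 2) - 1) / (4 * (s + 1 / 2) * (2 * (s + 1 / 2) + 1)))
      ((s + 1 / 2) ^ 2) ((((s + 1 / 2) ^ 2) ^ 2 + 6 * (s + 1 / 2) ^ 2 + 4) /
        (((s + 1 / 2) ^ 2 + 2) * ((s + 1 / 2) ^ 2 + 6))) -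
      ((191 / 200 - 2 * (1 / 2)) + 9 / 20 * (s + 1 / 2) + 1 / 2 * (s + 1 / 2) ^ 2 +
      (-4 / 125 - 9 / 20) / (s + 1 / 2) + -4 / 125 / (s + 1 / 2) ^ 3) =
      (733 / 6 + 17837 / 75 * s + 148283 / 750 * s ^ 2 + 974243 / 750 * s ^ 3 +
      329213 / 125 * s ^ 4 + 75808 / 75 * s ^ 5 + 64772 / 75 * s ^ 6 + 211864 / 375 * s ^ 7 +
      60784 / 375 * s ^ 8 + 92704 / 375 * s ^ 9 + 2368 / 75 * s ^ 10 + 128 / 5 * s ^ 11) /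
      ((4 * (s + 1 / 2) * (2 * (s + 1 / 2) + 1)) ^ 3 *
        (((s + 1 / 2) ^ 2 + 2) * ((s + 1 / 2) ^ 2 + 6))) := by
    unfold F1
    field_simp
    ring
  rw [key]
  positivity

end MK
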