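import Pool.Agent.H16.MK.KA2

/-! Dimensions four and five: the polynomial inequalities (MP_c844e7). -/

set_option autoImplicit false

open MeasureTheory Set MB

namespace MK

theorem KC2_lo {s : ℝ} (hs : 0 ≤ s) :
    (571 / 500 - 2 * (1 / 2)) + 59 / 100 * (s + 1 / 2) + 1 / 2 * (s + 1 / 2) ^ 2 +
      (-13 / 500 - 59 / 100) / (s + 1 / 2) + -13 / 500 / (s + 1 / 2) ^ 3 ≤
    Fn 2 (8 / 5) ((4 * (2 * (s + 1 / 2) - 1) * ((s + 1 / 2) + 2)) / (4 * (s + 1 / 2) * (4 * (s + 1 / 2) + 1)))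
      ((2 * (s + 1 / 2) + 11) / (4 * (s + 1 / 2) * (4 * (s + 1 / 2) + 1)))
      ((24 * (s + 1 / 2) ^ 2 + 38 * (s + 1 / 2) - 13) / (4 * (s + 1 / 2) * (4 * (s + 1 / 2) + 1)))
      ((s + 1 / 2) ^ 2) ((s + 1 / 2) ^ 2 / ((s + 1 / 2) ^ 2 + 3)) := by
  rw [← sub_nonneg]
  have key : Fn 2 (8 / 5) ((4 * (2 * (s + 1 / 2) - 1) * ((s + 1 / 2) + 2)) / (4 * (s + 1 / 2) * (4 * (s + 1 / 2) + 1)))
      ((2 * (s + 1 / 2) + 11) / (4 * (s + 1 / 2) * (4 * (s + 1 / 2) + 1)))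
      ((24 * (s + 1 / 2) ^ 2 + 38 * (s + 1 / 2) - 13) / (4 * (s + 1 / 2) * (4 * (s + 1 / 2) + 1)))
      ((s + 1 / 2) ^ 2) ((s + 1 / 2) ^ 2 / ((s + 1 / 2) ^ 2 + 3)) -
      ((571 / 500 - 2 * (1 / 2)) + 59 / 100 * (s + 1 / 2) + 1 / 2 * (s + 1 / 2) ^ 2 +
      (-13 / 500 - 59 / 100) / (s + 1 / 2) + -13 / 500 / (s + 1 / 2) ^ 3) =
      (351 / 2000 + 25941 / 2000 * s - 45839 / 2000 * s ^ 2 + 6089 / 200 * s ^ 3 +
      209387 / 1000 * s ^ 4 - 43759 / 500 * s ^ 5 + 34439 / 500 * s ^ 6 - 5133 / 250 * s ^ 7 +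
      224 / 25 * s ^ 8) /
      ((4 * (s + 1 / 2) * (4 * (s + 1 / 2) + 1)) ^ 2 * ((s + 1 / 2) ^ 2 + 3) * (s + 1 / 2)) := by
    unfold Fn
    field_simp
    ring
  have key2 : (1 + s) ^ 4 *
      (351 / 2000 + 25941 / 2000 * s - 45839 / 2000 * s ^ 2 + 6089 / 200 * s ^ 3 +
      209387 / 1000 * s ^ 4 - 43759 / 500 * s ^ 5 + 34439 / 500 * s ^ 6 - 5133 / 250 * s ^ 7 +
      224 / 25 * s ^ 8) =
      351 / 2000 + 5469 / 400 * s + 60031 / 2000 * s ^ 2 + 4323 / 250 * s ^ 3 +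
      98283 / 400 * s ^ 4 + 341597 / 400 * s ^ 5 + 2147977 / 2000 * s ^ 6 +
      119573 / 200 * s ^ 7 + 39883 / 200 * s ^ 8 + 50321 / 500 * s ^ 9 + 4051 / 100 * s ^ 10 +
      3827 / 250 * s ^ 11 + 224 / 25 * s ^ 12 := by
    ring
  rw [key]
  refine div_nonneg ?_ (by positivity)
  refine nonneg_of_mul_nonneg_right (a := (1 + s) ^ 4) ?_ (by positivity)
  rw [key2]
  positivity

theorem KC2_one {s : ℝ} (hs : 0 ≤ s) :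
    (571 / 500 - 2 * (1 / 2)) + 59 / 100 * (s + 1 / 2) + 1 / 2 * (s + 1 / 2) ^ 2 +
      (-13 / 500 - 59 / 100) / (s + 1 / 2) + -13 / 500 / (s + 1 / 2) ^ 3 ≤
    Fn 2 (8 / 5) ((4 * (2 * (s + 1 / 2) - 1) * ((s + 1 / 2) + 2)) / (4 * (s + 1 / 2) * (4 * (s + 1 / 2) + 1)))
      ((2 * (s + 1 / 2) + 11) / (4 * (s + 1 / 2) * (4 * (s + 1 / 2) + 1)))
      ((24 * (s + 1 / 2) ^ 2 + 38 * (s + 1 / 2) - 13) / (4 * (s + 1 / 2) * (4 * (s + 1 / 2) + 1)))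
      ((s + 1 / 2) ^ 2) 1 := by
  rw [← sub_nonneg]
  have key : Fn 2 (8 / 5) ((4 * (2 * (s + 1 / 2) - 1) * ((s + 1 / 2) + 2)) / (4 * (s + 1 / 2) * (4 * (s + 1 / 2) + 1)))
      ((2 * (s + 1 / 2) + 11) / (4 * (s + 1 / 2) * (4 * (s + 1 / 2) + 1)))
      ((24 * (s + 1 / 2) ^ 2 + 38 * (s + 1 / 2) - 13) / (4 * (s + 1 / 2) * (4 * (s + 1 / 2) + 1)))
      ((s + 1 / 2) ^ 2) 1 -
      ((571 / 500 - 2 * (1 / 2)) + 59 / 100 * (s + 1 / 2) + 1 / 2 * (s + 1 / 2) ^ 2 +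
      (-13 / 500 - 59 / 100) / (s + 1 / 2) + -13 / 500 / (s + 1 / 2) ^ 3) =
      (3591 / 4000 + 147003 / 4000 * s + 322271 / 16000 * s ^ 2 - 477977 / 8000 * s ^ 3 +
      277 / 4 * s ^ 4 - 7373 / 250 * s ^ 5 + 224 / 25 * s ^ 6) /
      ((4 * (s + 1 / 2) * (4 * (s + 1 / 2) + 1)) ^ 2 * (s + 1 / 2)) := by
    unfold Fn
    field_simp
    ring
  have key2 : (1 + s) ^ 4 *
      (3591 / 4000 + 147003 / 4000 * s + 322271 / 16000 * s ^ 2 - 477977 / 8000 * s ^ 3 +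
      277 / 4 * s ^ 4 - 7373 / 250 * s ^ 5 + 224 / 25 * s ^ 6) =
      3591 / 4000 + 161367 / 4000 * s + 2760503 / 16000 * s ^ 2 + 1959329 / 8000 * s ^ 3 +
      792111 / 8000 * s ^ 4 + 203 / 32 * s ^ 5 + 1402327 / 16000 * s ^ 6 +
      609127 / 8000 * s ^ 7 + 2521 / 500 * s ^ 8 + 1587 / 250 * s ^ 9 + 224 / 25 * s ^ 10 := by
    ring
  rw [key]
  refine div_nonneg ?_ (by positivity)
  refine nonneg_of_mul_nonneg_right (a := (1 + s) ^ 4) ?_ (by positivity)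
  rw [key2]
  positivity

end MK
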