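import Pool.Agent.H16.MK.KA2

/-! Dimensions four and five: the polynomial inequalities (MP_c844e7). -/

set_option autoImplicit false

open MeasureTheory Set MB

namespace MK

theorem KC3_lo {s : ℝ} (hs : 0 ≤ s) :
    (1271 / 1000 - 2 * (49 / 100)) + 697 / 1000 * (s + 1 / 2) + 49 / 100 * (s + 1 / 2) ^ 2 +
      (-13 / 500 - 697 / 1000) / (s + 1 / 2) + -13 / 500 / (s + 1 / 2) ^ 3 ≤
    Fn 3 (5 / 3) ((8 * (2 * (s + 1 / 2) - 1) * ((s + 1 / 2) + 2)) / (4 * (s + 1 / 2) * (8 * (s + 1 / 2) + 1)))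
      ((2 * (s + 1 / 2) + 19) / (4 * (s + 1 / 2) * (8 * (s + 1 / 2) + 1)))
      ((64 * (s + 1 / 2) ^ 2 + 98 * (s + 1 / 2) - 45) / (4 * (s + 1 / 2) * (8 * (s + 1 / 2) + 1)))
      ((s + 1 / 2) ^ 2) ((s + 1 / 2) ^ 2 / ((s + 1 / 2) ^ 2 + 4)) := by
  rw [← sub_nonneg]
  have key : Fn 3 (5 / 3) ((8 * (2 * (s + 1 / 2) - 1) * ((s + 1 / 2) + 2)) / (4 * (s + 1 / 2) * (8 * (s + 1 / 2) + 1)))
      ((2 * (s + 1 / 2) + 19) / (4 * (s + 1 / 2) * (8 * (s + 1 / 2) + 1)))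
      ((64 * (s + 1 / 2) ^ 2 + 98 * (s + 1 / 2) - 45) / (4 * (s + 1 / 2) * (8 * (s + 1 / 2) + 1)))
      ((s + 1 / 2) ^ 2) ((s + 1 / 2) ^ 2 / ((s + 1 / 2) ^ 2 + 4)) -
      ((1271 / 1000 - 2 * (49 / 100)) + 697 / 1000 * (s + 1 / 2) + 49 / 100 * (s + 1 / 2) ^ 2 +
      (-13 / 500 - 697 / 1000) / (s + 1 / 2) + -13 / 500 / (s + 1 / 2) ^ 3) =
      (27 / 20 + 159293 / 400 * s - 17161 / 250 * s ^ 2 - 398783 / 500 * s ^ 3 +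
      174412 / 125 * s ^ 4 - 18969 / 25 * s ^ 5 + 40808 / 125 * s ^ 6 - 11924 / 125 * s ^ 7 +
      4864 / 125 * s ^ 8 + 256 / 25 * s ^ 9) /
      ((4 * (s + 1 / 2) * (8 * (s + 1 / 2) + 1)) ^ 2 * ((s + 1 / 2) ^ 2 + 4) * (s + 1 / 2)) := by
    unfold Fn
    field_simp
    ring
  have key2 : (1 + s) ^ 6 *
      (27 / 20 + 159293 / 400 * s - 17161 / 250 * s ^ 2 - 398783 / 500 * s ^ 3 +
      174412 / 125 * s ^ 4 - 18969 / 25 * s ^ 5 + 40808 / 125 * s ^ 6 - 11924 / 125 * s ^ 7 +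
      4864 / 125 * s ^ 8 + 256 / 25 * s ^ 9) =
      27 / 20 + 162533 / 400 * s + 2341001 / 1000 * s ^ 2 + 1916423 / 400 * s ^ 3 +
      178257 / 50 * s ^ 4 + 516467 / 2000 * s ^ 5 + 2113109 / 1000 * s ^ 6 +
      12821581 / 2000 * s ^ 7 + 131593 / 25 * s ^ 8 + 767461 / 500 * s ^ 9 +
      59622 / 125 * s ^ 10 + 87623 / 125 * s ^ 11 + 67824 / 125 * s ^ 12 + 7292 / 25 * s ^ 13 +
      12544 / 125 * s ^ 14 + 256 / 25 * s ^ 15 := by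
    ring
  rw [key]
  refine div_nonneg ?_ (by positivity)
  refine nonneg_of_mul_nonneg_right (a := (1 + s) ^ 6) ?_ (by positivity)
  rw [key2]
  positivity

theorem KC3_one {s : ℝ} (hs : 0 ≤ s) :
    (1271 / 1000 - 2 * (49 / 100)) + 697 / 1000 * (s + 1 / 2) + 49 / 100 * (s + 1 / 2) ^ 2 +
      (-13 / 500 - 697 / 1000) / (s + 1 / 2) + -13 / 500 / (s + 1 / 2) ^ 3 ≤
    Fn 3 (5 / 3) ((8 * (2 * (s + 1 / 2) - 1) * ((s + 1 / 2) + 2)) / (4 * (s + 1 / 2) * (8 * (s + 1 / 2) + 1)))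
      ((2 * (s + 1 / 2) + 19) / (4 * (s + 1 / 2) * (8 * (s + 1 / 2) + 1)))
      ((64 * (s + 1 / 2) ^ 2 + 98 * (s + 1 / 2) - 45) / (4 * (s + 1 / 2) * (8 * (s + 1 / 2) + 1)))
      ((s + 1 / 2) ^ 2) 1 := by
  rw [← sub_nonneg]
  have key : Fn 3 (5 / 3) ((8 * (2 * (s + 1 / 2) - 1) * ((s + 1 / 2) + 2)) / (4 * (s + 1 / 2) * (8 * (s + 1 / 2) + 1)))
      ((2 * (s + 1 / 2) + 19) / (4 * (s + 1 / 2) * (8 * (s + 1 / 2) + 1)))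
      ((64 * (s + 1 / 2) ^ 2 + 98 * (s + 1 / 2) - 45) / (4 * (s + 1 / 2) * (8 * (s + 1 / 2) + 1)))
      ((s + 1 / 2) ^ 2) 1 -
      ((1271 / 1000 - 2 * (49 / 100)) + 697 / 1000 * (s + 1 / 2) + 49 / 100 * (s + 1 / 2) ^ 2 +
      (-13 / 500 - 697 / 1000) / (s + 1 / 2) + -13 / 500 / (s + 1 / 2) ^ 3) =
      (11 / 5 + 25469 / 100 * s + 22249 / 125 * s ^ 2 - 52196 / 125 * s ^ 3 +
      46524 / 125 * s ^ 4 - 20948 / 125 * s ^ 5 + 3584 / 125 * s ^ 6 + 256 / 25 * s ^ 7) /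
      ((4 * (s + 1 / 2) * (8 * (s + 1 / 2) + 1)) ^ 2 * (s + 1 / 2)) := by
    unfold Fn
    field_simp
    ring
  have key2 : (1 + s) ^ 6 *
      (11 / 5 + 25469 / 100 * s + 22249 / 125 * s ^ 2 - 52196 / 125 * s ^ 3 +
      46524 / 125 * s ^ 4 - 20948 / 125 * s ^ 5 + 3584 / 125 * s ^ 6 + 256 / 25 * s ^ 7) =
      11 / 5 + 26789 / 100 * s + 434783 / 250 * s ^ 2 + 2257367 / 500 * s ^ 3 +
      707933 / 125 * s ^ 4 + 1597719 / 500 * s ^ 5 + 113727 / 250 * s ^ 6 +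
      85737 / 500 * s ^ 7 + 49413 / 125 * s ^ 8 + 3608 / 125 * s ^ 9 + 196 / 125 * s ^ 10 +
      19756 / 125 * s ^ 11 + 11264 / 125 * s ^ 12 + 256 / 25 * s ^ 13 := by
    ring
  rw [key]
  refine div_nonneg ?_ (by positivity)
  refine nonneg_of_mul_nonneg_right (a := (1 + s) ^ 6) ?_ (by positivity)
  rw [key2]
  positivity

end MK
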