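import Pool.Agent.H16.MK.KMea
import Pool.Agent.H16.MB.Cen
import Pool.Agent.H16.MB.CutV
import Pool.Agent.H16.MB.Den

/-!
Row Ctw (MP_c844e7, about 160 lines).  Centring of the ck-off lift with the weight `gk r (rz p.1)`.  Adaptation of the proved row Ctr, `Pool/Agent/H16/MB/Ctr.lean` (there without the weight): copy it and insert the weight.

PROOF.  Let `w p = gk r (rz p.1) * (ck ε (T n p) ‖T n p‖) ≥ 0` (measurable), `ξ p = sg (G (P (T n p)))` (measurable), `‖ξ‖ = 1` (`norm_sg`), `μ = (gaT n).withDensity (ofReal w)`.  `μ` is finite: `w ≤ ‖T n p‖` (`gw_mem`).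
`μ ≠ 0`: otherwise `w = 0` a.e.; the set `{p | w p ≠ 0}` contains a nonempty open set, e.g. a neighbourhood of the point `p` with `z = (2s, 0)`, `W 0 = 4 s + 4`, the other `W j = 0` (`n ≥ 1`): there `rz z = 2s`, `gw = 1/2 > 0`, and
`wk = (4s+4)²`, `‖X‖² = 4s² + (4s+4)² ≤ 2 wk`, so `ε²‖X‖² < wk` as `ε² ≤ 1/4`; `gaT n` gives positive measure to nonempty open sets.
No atoms: as in Ctr: the set `{p | ck ε (T n p) ≠ 0 ∧ ξ p = u}` is contained in the preimage of a line under `T n`, which has measure `0`.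
`cen` gives `a`; `0 = ∫ mob a (ξ p) dμ = ∫ w p • mob a (ξ p) = ∫ gk r (rz p.1) • Vk ε (fun z => mob a (sg z)) G (T n p)`.
-/

set_option autoImplicit false

open MeasureTheory Set MB

namespace MK

private theorem KCt_cont_lst {n : ℕ} : Continuous (lst : E (n + 1) → ℝ) :=
  (EuclideanSpace.proj (𝕜 := ℝ) (Fin.last n)).continuous

private theorem KCt_meas_P {n : ℕ} : Measurable (P : E (n + 1) → E n) := by
  have h1 : Measurable fun X : E (n + 1) => (‖X‖ + lst X)⁻¹ :=
    (measurable_norm.add KCt_cont_lst.measurable).inv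
  exact h1.smul (ini n).continuous.measurable

private theorem KCt_meas_cut {n : ℕ} (ε : ℝ) : Measurable (ck ε : E (n + 3) → ℝ) := by
  have h1 : Measurable fun X : E (n + 3) => ε ^ 2 * ‖X‖ ^ 2 :=
    (measurable_norm.pow_const 2).const_mul _
  have h2 : Measurable fun X : E (n + 3) => max 0 (wk X - ε ^ 2 * ‖X‖ ^ 2) :=
    measurable_const.max (wk_cont.measurable.sub h1)
  exact (h2.div wk_cont.measurable).pow_const 2

private theorem KCt_null (n : ℕ) (S : Set (E (n + 3))) (hS : MeasurableSet S) :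
    gaT n (T n ⁻¹' S) = 0 ↔ (volume : Measure (E (n + 3))) S = 0 := by
  have h := den n (S.indicator 1) (measurable_one.indicator hS)
  have h1 : ∫⁻ p, S.indicator (1 : E (n + 3) → ENNReal) (T n p) ∂(gaT n)
      = gaT n (T n ⁻¹' S) := by
    have h0 : (fun p => S.indicator (1 : E (n + 3) → ENNReal) (T n p))
        = (T n ⁻¹' S).indicator 1 := by
      funext p
      rfl
    rw [h0, lintegral_indicator_one (hS.preimage (cont_T n).measurable)]
  rw [h1] at h
  have hc : ENNReal.ofReal (Real.sqrt (2 * Real.pi) ^ (n + 3)) ≠ 0 := by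
    rw [ne_eq, ENNReal.ofReal_eq_zero, not_le]
    positivity
  have hm : Measurable fun X : E (n + 3) => S.indicator (1 : E (n + 3) → ENNReal) X *
      ENNReal.ofReal (Real.exp (-‖X‖ ^ 2 / 2)) := by
    refine (measurable_one.indicator hS).mul ?_
    have : Continuous fun X : E (n + 3) => Real.exp (-‖X‖ ^ 2 / 2) := by fun_prop
    exact this.measurable.ennreal_ofReal
  have h2 : (∫⁻ X, S.indicator (1 : E (n + 3) → ENNReal) X *
      ENNReal.ofReal (Real.exp (-‖X‖ ^ 2 / 2))) = 0 ↔ (volume : Measure (E (n + 3))) S = 0 := by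
    rw [lintegral_eq_zero_iff hm]
    constructor
    · intro h3
      have h4 : ∀ᵐ X : E (n + 3), X ∉ S := by
        filter_upwards [h3] with X hX hXS
        simp only [Set.indicator_of_mem hXS, Pi.one_apply, one_mul, Pi.zero_apply,
          ENNReal.ofReal_eq_zero, not_le] at hX
        exact absurd hX (not_le.2 (Real.exp_pos _))
      have h5 := ae_iff.1 h4
      simpa using h5
    · intro h3
      have h4 : ∀ᵐ X : E (n + 3), X ∉ S := by
        rw [ae_iff]
        simpa using h3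
      filter_upwards [h4] with X hX
      simp [hX]
  rw [← h2, h, mul_eq_zero, or_iff_right hc]

private theorem KCt_atom {n : ℕ} {c ε : ℝ} (hε : 0 < ε)
    {G : E (n + 2) → E (n + 2)} (hG : Dat c (2 / ε) G) (u : E (n + 3)) :
    gaT n {p | ck ε (T n p) ≠ 0 ∧ sg (G (P (T n p))) = u} = 0 := by
  rcases Set.eq_empty_or_nonempty {p | ck ε (T n p) ≠ 0 ∧ sg (G (P (T n p))) = u} with h | h
  · rw [h, measure_empty]
  obtain ⟨p0, hp0, hp0u⟩ := h
  set v : E (n + 3) := sg (P (T n p0)) with hv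
  set L : Submodule ℝ (E (n + 3)) := Submodule.span ℝ {v} with hL
  have hLt : L ≠ ⊤ := by
    intro ht
    have hv0 : v ≠ 0 := by
      intro h0
      have h2 : ‖v‖ = 1 := norm_sg _
      rw [h0, norm_zero] at h2
      exact zero_ne_one h2
    have h1 : Module.finrank ℝ L = 1 := finrank_span_singleton hv0
    rw [ht, finrank_top, finrank_euclideanSpace, Fintype.card_fin] at h1
    omega
  have hL0 : (volume : Measure (E (n + 3))) (L : Set (E (n + 3))) = 0 :=
    Measure.addHaar_submodule _ L hLt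
  have hLm : MeasurableSet (L : Set (E (n + 3))) := L.closed_of_finiteDimensional.measurableSet
  refine measure_mono_null (fun p hp => ?_) ((KCt_null n _ hLm).2 hL0)
  obtain ⟨hp1, hp2⟩ := hp
  obtain ⟨a1, a2⟩ := ck_ne hε _ hp1
  obtain ⟨a3, a4⟩ := P_ltk hε _ a1 a2
  obtain ⟨b1, b2⟩ := ck_ne hε _ hp0
  obtain ⟨b3, b4⟩ := P_ltk hε _ b1 b2
  have h1 : G (P (T n p)) = G (P (T n p0)) := conf_sg.inj (hp2.trans hp0u.symm)
  have h2 : P (T n p) = P (T n p0) := hG.inj a4 b4 h1
  have h3 := sg_P (T n p) a3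
  change T n p ∈ L
  rw [← h3, h2, ← hv, hL]
  exact Submodule.smul_mem _ _ (Submodule.mem_span_singleton_self v)

private theorem KCt_pos {n : ℕ} {ε r : ℝ} (hr : 0 < r) (hε : 0 < ε)
    (hε1 : ε ≤ 1 / 2) : gaT n {p | gk r (rz p.1) * (ck ε (T n p) * ‖T n p‖) ≠ 0} ≠ 0 := by
  set U : Set (E (n + 3)) := {X | ε ^ 2 * ‖X‖ ^ 2 < wk X} ∩
    {X | (1 / 2) ^ 2 < X 0 ^ 2 + X 1 ^ 2} with hU
  have hUo : IsOpen U := by
    refine (isOpen_lt (by fun_prop) wk_cont).inter (isOpen_lt continuous_const ?_)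
    have h0 : Continuous fun X : E (n + 3) => X 0 := by fun_prop
    have h1 : Continuous fun X : E (n + 3) => X 1 := by fun_prop
    exact (h0.pow 2).add (h1.pow 2)
  have hUn : U.Nonempty := by
    have hX0 : (EuclideanSpace.single 0 1 : E (n + 3)) 0 = 1 := by simp
    refine ⟨EuclideanSpace.single 0 1, ?_, ?_⟩
    · rw [mem_setOf_eq, EuclideanSpace.norm_single]
      have h1 : (1 : ℝ) ≤ wk (EuclideanSpace.single 0 1 : E (n + 3)) := by
        unfold wk
        have h2 := Finset.single_le_sum (s := Finset.univ) (f := fun i : Fin (n + 2) =>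
          (EuclideanSpace.single 0 1 : E (n + 3)) i.castSucc ^ 2) (fun i _ => sq_nonneg _)
          (Finset.mem_univ 0)
        refine le_trans (le_of_eq ?_) h2
        simp
      have h2 : ε ^ 2 ≤ (1 / 2) ^ 2 := pow_le_pow_left₀ hε.le hε1 2
      refine lt_of_lt_of_le ?_ h1
      rw [norm_one]
      linarith
    · rw [mem_setOf_eq, hX0]
      nlinarith [sq_nonneg ((EuclideanSpace.single 0 1 : E (n + 3)) 1)]
  have hpos : (volume : Measure (E (n + 3))) U ≠ 0 := (hUo.measure_pos volume hUn).ne'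
  have h1 : gaT n (T n ⁻¹' U) ≠ 0 := by
    rw [ne_eq, KCt_null n U hUo.measurableSet]
    exact hpos
  intro h2
  apply h1
  refine measure_mono_null (fun p hp => ?_) h2
  have hp' : ε ^ 2 * ‖T n p‖ ^ 2 < wk (T n p) := hp.1
  have hps : (1 / 2) ^ 2 < (T n p) 0 ^ 2 + (T n p) 1 ^ 2 := hp.2
  have hw : 0 < wk (T n p) := lt_of_le_of_lt (by positivity) hp'
  have hT : ‖T n p‖ ≠ 0 := by
    intro h0
    have h3 := (wk_bd (T n p)).2.2
    rw [h0] at h3
    norm_num at h3
    linarith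
  have hrz : 1 / 2 < rz p.1 := by
    unfold rz
    exact Real.lt_sqrt_of_sq_lt hps
  have hgk : gk r (rz p.1) ≠ 0 := (gk_pos hr hrz).ne'
  refine mul_ne_zero hgk (mul_ne_zero ?_ hT)
  unfold ck
  apply pow_ne_zero
  apply div_ne_zero _ hw.ne'
  rw [max_eq_right (by linarith)]
  exact (sub_pos.2 hp').ne'

theorem ctk {n : ℕ} {c ε r : ℝ} (hr : 0 < r) (hr1 : r ≤ 1 / 2) (hε : 0 < ε) (hε1 : ε ≤ 1 / 2)
    {G : E (n + 2) → E (n + 2)} (hG : Dat c (2 / ε) G) :
    ∃ a : E (n + 3), ‖a‖ < 1 ∧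
      ∫ p, gk r (rz p.1) • Vk ε (fun z => mob a (sg z)) G (T n p) ∂(gaT n) = 0 := by
  set w : (ℝ × ℝ) × (Fin (n + 1) → ℝ) → ℝ := fun p =>
    gk r (rz p.1) * (ck ε (T n p) * ‖T n p‖) with hw
  have hTm : Measurable (T n) := (cont_T n).measurable
  have hgm : Measurable fun p : (ℝ × ℝ) × (Fin (n + 1) → ℝ) => gk r (rz p.1) :=
    (gk_meas r).comp (rz_cont.measurable.comp measurable_fst)
  have hwm : Measurable w :=
    hgm.mul (((KCt_meas_cut ε).comp hTm).mul (measurable_norm.comp hTm))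
  have hg01 : ∀ p : (ℝ × ℝ) × (Fin (n + 1) → ℝ), 0 ≤ gk r (rz p.1) ∧ gk r (rz p.1) ≤ 1 :=
    fun p => gk_mem hr hr1 (Real.sqrt_nonneg _)
  have hw0 : ∀ p, 0 ≤ w p := fun p =>
    mul_nonneg (hg01 p).1 (mul_nonneg (ck_mem ε _).1 (norm_nonneg _))
  set f : (ℝ × ℝ) × (Fin (n + 1) → ℝ) → NNReal := fun p => (w p).toNNReal with hf
  have hfm : Measurable f := hwm.real_toNNReal
  set ξ : (ℝ × ℝ) × (Fin (n + 1) → ℝ) → E (n + 3) := fun p => sg (G (P (T n p))) with hξ
  have hsg : Continuous (sg : E (n + 2) → E (n + 3)) :=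
    continuous_iff_continuousAt.2 fun z => (conf_sg.diff z).continuousAt
  have hξm : Measurable ξ := hsg.measurable.comp (hG.meas.comp (KCt_meas_P.comp hTm))
  set μ : Measure ((ℝ × ℝ) × (Fin (n + 1) → ℝ)) :=
    (gaT n).withDensity (fun p => (f p : ENNReal)) with hμ
  have hfin : ∫⁻ p, (f p : ENNReal) ∂(gaT n) ≠ ⊤ := by
    have h1 : ∫⁻ p, (f p : ENNReal) ∂(gaT n) ≤ ∫⁻ p, (1 + nsq (T n p)) ∂(gaT n) := by
      refine lintegral_mono fun p => ?_
      change ENNReal.ofReal (w p) ≤ 1 + ENNReal.ofReal (‖T n p‖ ^ 2)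
      rw [← ENNReal.ofReal_one, ← ENNReal.ofReal_add zero_le_one (sq_nonneg _)]
      apply ENNReal.ofReal_le_ofReal
      have h2 := (ck_mem ε (T n p)).2
      have h3 := (ck_mem ε (T n p)).1
      have h4 := norm_nonneg (T n p)
      have h6 : ck ε (T n p) * ‖T n p‖ ≤ ‖T n p‖ := by nlinarith
      have h5 : w p ≤ ‖T n p‖ := by
        change gk r (rz p.1) * (ck ε (T n p) * ‖T n p‖) ≤ ‖T n p‖
        have h7 : 0 ≤ ck ε (T n p) * ‖T n p‖ := mul_nonneg h3 h4
        nlinarith [(hg01 p).1, (hg01 p).2]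
      nlinarith [sq_nonneg (‖T n p‖ - 1)]
    have h2 : ∫⁻ p, (1 + nsq (T n p)) ∂(gaT n) = 1 + ((n : ENNReal) + 3) := by
      rw [lintegral_add_left measurable_const, mom_norm, lintegral_const, measure_univ, mul_one]
    have h3 : (1 + ((n : ENNReal) + 3)) < ⊤ := by
      have : (1 + ((n : ENNReal) + 3)) = ((1 + (n + 3) : ℕ) : ENNReal) := by push_cast; rfl
      rw [this]
      exact ENNReal.natCast_lt_top _
    exact ((h1.trans h2.le).trans_lt h3).ne
  haveI : IsFiniteMeasure μ := isFiniteMeasure_withDensity hfin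
  have hfe : AEMeasurable (fun p => (f p : ENNReal)) (gaT n) :=
    hfm.coe_nnreal_ennreal.aemeasurable
  have hμ0 : μ ≠ 0 := by
    intro h0
    have h1 : μ univ = 0 := by rw [h0]; rfl
    rw [hμ, withDensity_apply_eq_zero' hfe] at h1
    apply KCt_pos hr hε hε1
    refine measure_mono_null (fun p hp => ?_) h1
    refine ⟨?_, mem_univ _⟩
    have hp' : w p ≠ 0 := hp
    have hp1 : 0 < w p := lt_of_le_of_ne (hw0 p) hp'.symm
    change ((w p).toNNReal : ENNReal) ≠ 0
    rw [ne_eq, ENNReal.coe_eq_zero, Real.toNNReal_eq_zero, not_le]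
    exact hp1
  have hat : ∀ u, μ {p | ξ p = u} = 0 := by
    intro u
    rw [hμ, withDensity_apply_eq_zero' hfe]
    refine measure_mono_null (fun p hp => ?_) (KCt_atom hε hG u)
    obtain ⟨hp1, hp2⟩ := hp
    refine ⟨fun h0 => hp1 ?_, hp2⟩
    change ((w p).toNNReal : ENNReal) = 0
    have : w p = 0 := by
      change gk r (rz p.1) * (ck ε (T n p) * ‖T n p‖) = 0
      rw [h0, zero_mul, mul_zero]
    rw [this, Real.toNNReal_zero, ENNReal.coe_zero]
  obtain ⟨a, ha, hint⟩ := cen μ hμ0 ξ hξm (fun p => norm_sg _) hat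
  refine ⟨a, ha, ?_⟩
  rw [hμ, integral_withDensity_eq_integral_smul hfm] at hint
  rw [← hint]
  congr 1
  funext p
  unfold Vk lift
  rw [smul_smul, smul_smul, NNReal.smul_def, mul_assoc]
  change (gk r (rz p.1) * (ck ε (T n p) * ‖T n p‖)) • mob a (sg (G (P (T n p)))) =
    (((w p).toNNReal : ℝ)) • mob a (sg (G (P (T n p))))
  rw [Real.coe_toNNReal _ (hw0 p)]

end MK
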