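import Pool.Agent.H16.MK.KMea
import Pool.Agent.H16.MC.InR
import Pool.Agent.H16.MB.Pol

/-!
Row InR (MP_c844e7, about 120 lines).  Integration of `est_R3`.  Compare the proved row IntR, `Pool/Agent/H16/MB/IntR.lean`.

PROOF.  `dbk r` is monotone in the values at `ρ > 0` and additive/homogeneous for measurable functions.  By `est_R3`, for all `W, θ`:
`dbk r (nsq …) ≤ ofReal (1+τ²) * dbk r H + ofReal (128 τ²) * dbk r (ρ ↦ ofReal (qk^(7/5)))`, `H ρ = ofReal ((1-kp) + kp lam)` at `T n (pol ρ θ, W)`.  `dbw_eq`: `dbk r H = ∫⁻ ρ in Ioi 0, ofReal (ρ exp(-ρ²/2) kk r ρ) * H ρ =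
∫⁻ ρ in Ioi 0, ofReal (ρ exp(-ρ²/2)) * F (pol ρ θ)` with `F z = ofReal (kk r (rz z) * ((1-kp) + kp lam))` at `T n (z, W)` (`rz_pol`, `ofReal_mul`).  Then `∫⁻_θ ∂ang` and `pol_int` (for fixed `W`), then `∫⁻_W`, and Tonelli (`lintegral_prod_symm`) give the
integral over `gaT n`.
-/

set_option autoImplicit false

open MeasureTheory Set MB

namespace MK

variable {n : ℕ} {c τ : ℝ} {G : E (n + 2) → E (n + 2)} {S : E (n + 2) → E (n + 3)}
  {μ : E (n + 2) → ℝ}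

theorem KInR_dbk_mono {r : ℝ} {F H : ℝ → ENNReal} (h : ∀ ρ, 0 < ρ → F ρ ≤ H ρ) :
    dbk r F ≤ dbk r H := by
  unfold dbk
  refine lintegral_mono fun R => ?_
  refine mul_le_mul_right (setLIntegral_mono' measurableSet_Ioo fun ρ hρ =>
    mul_le_mul_right (h ρ hρ.1) _) _

theorem KInR_dbk_add {r : ℝ} {F : ℝ → ENNReal} (H : ℝ → ENNReal) (hF : Measurable F) :
    dbk r (fun ρ => F ρ + H ρ) = dbk r F + dbk r H := by
  unfold dbk
  rw [← lintegral_add_left]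
  · refine lintegral_congr fun R => ?_
    rw [← mul_add]
    congr 1
    have hF2 : Measurable fun ρ : ℝ => ENNReal.ofReal (om r ρ) * F ρ :=
      (om_meas r).ennreal_ofReal.mul hF
    rw [← lintegral_add_left hF2]
    refine lintegral_congr fun ρ => ?_
    rw [mul_add]
  · refine Measurable.mul ?_ (InR_meas _)
    exact (gr_meas.mul (by fun_prop)).ennreal_ofReal

theorem KInR_dbk_mul {r : ℝ} {a : ENNReal} (ha : a ≠ ⊤) (H : ℝ → ENNReal) :
    dbk r (fun ρ => a * H ρ) = a * dbk r H := by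
  unfold dbk
  rw [← lintegral_const_mul' _ _ ha]
  refine lintegral_congr fun R => ?_
  have e : ∀ ρ : ℝ, ENNReal.ofReal (om r ρ) * (a * H ρ) = a * (ENNReal.ofReal (om r ρ) * H ρ) :=
    fun ρ => by ring
  simp only [e]
  rw [lintegral_const_mul' _ _ ha]
  ring

theorem int_R3 {r : ℝ} (hr : 0 < r) (hr1 : r ≤ 1 / 2) (hτ : 0 < τ) (hτ1 : τ ≤ 1) (hc : 0 ≤ c)
    (hG : Dat c (2 / τ ^ 16) G) (hS : ConfS S μ) :
    ∫⁻ W, ∫⁻ θ, dbk r (fun ρ =>
        nsq (fderiv ℝ (Vk (τ ^ 16) S G) (T n (pol ρ θ, W)) (bR n θ))) ∂ang ∂(gad (n + 1)) ≤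
      ENNReal.ofReal (1 + τ ^ 2) * ∫⁻ p, ENNReal.ofReal (kk r (rz p.1) *
        ((1 - kp (T n p)) + kp (T n p) * lam c (2 / τ ^ 16) S G (T n p))) ∂(gaT n) +
      ENNReal.ofReal (128 * τ ^ 2) *
        ∫⁻ W, ∫⁻ θ, dbk r (fun ρ => ENNReal.ofReal (qk (T n (pol ρ θ, W)) ^ ((9 : ℝ) / 8))) ∂ang
          ∂(gad (n + 1)) := by
  have hTm : Measurable (T n) := (cont_T n).measurable
  -- the integrand
  obtain ⟨Q, hQ⟩ : ∃ Q : (ℝ × ℝ) × (Fin (n + 1) → ℝ) → ℝ, Q = fun p =>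
      (1 - kp (T n p)) + kp (T n p) * lam c (2 / τ ^ 16) S G (T n p) := ⟨_, rfl⟩
  have hQ0 : ∀ p, 0 ≤ Q p := by
    intro p
    have hk := kp_mem (T n p)
    rw [hQ]
    exact add_nonneg (by linarith [hk.2]) (mul_nonneg hk.1 (lam_nonneg hc _))
  have hkm : Measurable fun p : (ℝ × ℝ) × (Fin (n + 1) → ℝ) => kp (T n p) := kp_meas.comp hTm
  have hlm : Measurable fun p : (ℝ × ℝ) × (Fin (n + 1) → ℝ) =>
      lam c (2 / τ ^ 16) S G (T n p) := lam_meas.comp hTm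
  have hQm : Measurable Q := by
    rw [hQ]
    exact (measurable_const.sub hkm).add (hkm.mul hlm)
  obtain ⟨K, hK⟩ : ∃ K : (ℝ × ℝ) × (Fin (n + 1) → ℝ) → ENNReal, K = fun p =>
    ENNReal.ofReal (kk r (rz p.1) * Q p) := ⟨_, rfl⟩
  have hKm : Measurable K := by
    rw [hK]
    exact ((((kk_meas r).comp rz_cont.measurable).comp measurable_fst).mul hQm).ennreal_ofReal
  have hb : ENNReal.ofReal (1 + τ ^ 2) ≠ ⊤ := ENNReal.ofReal_ne_top
  have hd : ENNReal.ofReal (128 * τ ^ 2) ≠ ⊤ := ENNReal.ofReal_ne_top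
  -- step 1: the bound for fixed `W, θ`
  have step1 : ∀ (W : Fin (n + 1) → ℝ) (θ : ℝ),
      dbk r (fun ρ => nsq (fderiv ℝ (Vk (τ ^ 16) S G) (T n (pol ρ θ, W)) (bR n θ))) ≤
        ENNReal.ofReal (1 + τ ^ 2) * (∫⁻ ρ in Ioi (0 : ℝ),
          ENNReal.ofReal (ρ * Real.exp (-ρ ^ 2 / 2)) * K (pol ρ θ, W)) +
        ENNReal.ofReal (128 * τ ^ 2) *
          dbk r (fun ρ => ENNReal.ofReal (qk (T n (pol ρ θ, W)) ^ ((9 : ℝ) / 8))) := by
    intro W θ
    have hpm : Measurable fun ρ : ℝ => (pol ρ θ, W) := by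
      refine Measurable.prodMk ?_ measurable_const
      exact InR_pol_meas.comp (measurable_id.prodMk measurable_const)
    have hQρ : Measurable fun ρ : ℝ => ENNReal.ofReal (Q (pol ρ θ, W)) :=
      (hQm.comp hpm).ennreal_ofReal
    have h1 : dbk r (fun ρ => nsq (fderiv ℝ (Vk (τ ^ 16) S G) (T n (pol ρ θ, W)) (bR n θ))) ≤
        dbk r (fun ρ => ENNReal.ofReal (1 + τ ^ 2) * ENNReal.ofReal (Q (pol ρ θ, W)) +
          ENNReal.ofReal (128 * τ ^ 2) *
            ENNReal.ofReal (qk (T n (pol ρ θ, W)) ^ ((9 : ℝ) / 8))) := by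
      refine KInR_dbk_mono fun ρ hρ => ?_
      have hE := est_R3 hτ hτ1 hc hG hS ρ θ W hρ
      have hX := hQ0 (pol ρ θ, W)
      have hqq : 0 ≤ qk (T n (pol ρ θ, W)) ^ ((9 : ℝ) / 8) := by
        refine Real.rpow_nonneg ?_ _
        unfold qk wk
        exact div_nonneg (sq_nonneg _) (Finset.sum_nonneg fun i _ => sq_nonneg _)
      simp only [nsq]
      rw [← ENNReal.ofReal_mul (by positivity), ← ENNReal.ofReal_mul (by positivity),
        ← ENNReal.ofReal_add (mul_nonneg (by positivity) hX) (mul_nonneg (by positivity) hqq)]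
      refine ENNReal.ofReal_le_ofReal (hE.trans (le_of_eq ?_))
      rw [hQ]
    refine h1.trans (le_of_eq ?_)
    rw [KInR_dbk_add _ (hQρ.const_mul _), KInR_dbk_mul hb, KInR_dbk_mul hd, dbk_eq hr hr1 _ hQρ]
    congr 2
    refine setLIntegral_congr_fun measurableSet_Ioi fun ρ hρ => ?_
    have hρ0 : (0 : ℝ) < ρ := hρ
    have hk := kk_nonneg (r := r) hρ0.le
    simp only [hK]
    rw [rz_pol hρ0.le, ← ENNReal.ofReal_mul (mul_nonneg (by positivity) hk),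
      ← ENNReal.ofReal_mul (by positivity)]
    congr 1
    ring
  -- step 2: integration in `θ`
  have hjoint : Measurable fun q : (Fin (n + 1) → ℝ) × ℝ × ℝ =>
      ENNReal.ofReal (q.2.2 * Real.exp (-q.2.2 ^ 2 / 2)) * K (pol q.2.2 q.2.1, q.1) := by
    refine Measurable.mul (by fun_prop) (hKm.comp ?_)
    exact (InR_pol_meas.comp (measurable_snd.snd.prodMk measurable_snd.fst)).prodMk measurable_fst
  have step2 : ∀ W : Fin (n + 1) → ℝ,
      ∫⁻ θ, dbk r (fun ρ => nsq (fderiv ℝ (Vk (τ ^ 16) S G) (T n (pol ρ θ, W)) (bR n θ))) ∂ang ≤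
        ENNReal.ofReal (1 + τ ^ 2) * ∫⁻ z, K (z, W) ∂ga2 +
        ENNReal.ofReal (128 * τ ^ 2) *
          ∫⁻ θ, dbk r (fun ρ => ENNReal.ofReal (qk (T n (pol ρ θ, W)) ^ ((9 : ℝ) / 8))) ∂ang := by
    intro W
    have hm : Measurable fun θ : ℝ => ∫⁻ ρ in Ioi (0 : ℝ),
        ENNReal.ofReal (ρ * Real.exp (-ρ ^ 2 / 2)) * K (pol ρ θ, W) := by
      have := hjoint.comp (measurable_const (a := W) |>.prodMk (measurable_id (α := ℝ × ℝ)))
      exact Measurable.lintegral_prod_right' this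
    refine (lintegral_mono fun θ => step1 W θ).trans (le_of_eq ?_)
    have hK2 : Measurable fun z : ℝ × ℝ => K (z, W) :=
      hKm.comp (measurable_id.prodMk measurable_const)
    rw [InR_lin ang _ hm hb hd, pol_int _ hK2]
  -- step 3: integration in `W`
  refine (lintegral_mono step2).trans (le_of_eq ?_)
  have hm : Measurable fun W : Fin (n + 1) → ℝ => ∫⁻ z, K (z, W) ∂ga2 :=
    Measurable.lintegral_prod_left' hKm
  rw [InR_lin (gad (n + 1)) _ hm hb hd, ← lintegral_prod_symm _ hKm.aemeasurable, hK, hQ]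

end MK
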