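import Pool.Agent.H16.MK.KMea
import Pool.Agent.H16.MC.InW

set_option autoImplicit false

open MeasureTheory Set MB

namespace MK

variable {n : ℕ} {c τ : ℝ} {G : E (n + 2) → E (n + 2)} {S : E (n + 2) → E (n + 3)}
  {μ : E (n + 2) → ℝ}


theorem int_W3 {r : ℝ} (hr : 0 < r) (hr1 : r ≤ 1 / 2) (hτ : 0 < τ) (hτ1 : τ ≤ 1) (hc : 0 ≤ c)
    (hG : Dat c (2 / τ ^ 16) G) (hS : ConfS S μ) :
    ∑ i, ∫⁻ p, ENNReal.ofReal (gk r (rz p.1)) *
        nsq (fderiv ℝ (Vk (τ ^ 16) S G) (T n p) (bW n i)) ∂(gaT n) ≤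
      ENNReal.ofReal (1 + τ ^ 2) * ∫⁻ p, ENNReal.ofReal (gk r (rz p.1) * (kp (T n p) +
        ((n + 1) - kp (T n p)) * lam c (2 / τ ^ 16) S G (T n p))) ∂(gaT n) +
      ENNReal.ofReal (128 * τ ^ 2 * (n + 1)) *
        ∫⁻ p, ENNReal.ofReal (qk (T n p) ^ ((9 : ℝ) / 8)) ∂(gaT n) := by
  have hTm : Measurable (T n) := (cont_T n).measurable
  have hkm : Measurable fun p => kp (T n p) := kp_meas.comp hTm
  have hlm : Measurable fun p => lam c (2 / τ ^ 16) S G (T n p) := lam_meas.comp hTm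
  have hgm : Measurable fun p : (ℝ × ℝ) × (Fin (n + 1) → ℝ) => gk r (rz p.1) :=
    (gk_meas r).comp (rz_cont.measurable.comp measurable_fst)
  have hm : ∀ i, Measurable fun p => ENNReal.ofReal (gk r (rz p.1)) *
      nsq (fderiv ℝ (Vk (τ ^ 16) S G) (T n p) (bW n i)) := by
    intro i
    unfold nsq
    exact hgm.ennreal_ofReal.mul
      (((measurable_fderiv_apply_const ℝ (Vk (τ ^ 16) S G) (bW n i)).comp hTm).norm.pow_const
      2).ennreal_ofReal
  rw [← lintegral_finsetSum _ fun i _ => hm i]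
  have hA : Measurable fun p => ENNReal.ofReal (gk r (rz p.1) * (kp (T n p) +
        ((n + 1) - kp (T n p)) * lam c (2 / τ ^ 16) S G (T n p))) := by
    refine Measurable.ennreal_ofReal ?_
    exact hgm.mul (hkm.add ((measurable_const.sub hkm).mul hlm))
  have h1 : ∀ᵐ p ∂(gaT n), ∑ i, ENNReal.ofReal (gk r (rz p.1)) *
        nsq (fderiv ℝ (Vk (τ ^ 16) S G) (T n p) (bW n i)) ≤
      ENNReal.ofReal (1 + τ ^ 2) * ENNReal.ofReal (gk r (rz p.1) * (kp (T n p) +
        ((n + 1) - kp (T n p)) * lam c (2 / τ ^ 16) S G (T n p))) +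
      ENNReal.ofReal (128 * τ ^ 2 * (n + 1)) * ENNReal.ofReal (qk (T n p) ^ ((9 : ℝ) / 8)) := by
    filter_upwards [InW_ae n] with p hp
    have hE := est_W3 hτ hτ1 hc hG hS p hp
    have hk := kp_mem (T n p)
    have hl := lam_nonneg (R := 2 / τ ^ 16) (S := S) (G := G) hc (T n p)
    have hn : (0 : ℝ) ≤ n := Nat.cast_nonneg n
    have hrz : 0 ≤ rz p.1 := Real.sqrt_nonneg _
    have hg := gk_mem hr hr1 hrz
    have hq : 0 ≤ qk (T n p) ^ ((9 : ℝ) / 8) := Real.rpow_nonneg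
      (div_nonneg (sq_nonneg _) (Finset.sum_nonneg fun i _ => sq_nonneg _)) _
    have h3 : 0 ≤ ((n + 1) - kp (T n p)) * lam c (2 / τ ^ 16) S G (T n p) :=
      mul_nonneg (by linarith [hk.2]) hl
    have h4 : 0 ≤ gk r (rz p.1) * (kp (T n p) +
        ((n + 1) - kp (T n p)) * lam c (2 / τ ^ 16) S G (T n p)) :=
      mul_nonneg hg.1 (add_nonneg hk.1 h3)
    simp only [nsq]
    rw [← Finset.mul_sum, ← ENNReal.ofReal_sum_of_nonneg (fun i _ => sq_nonneg _),
      ← ENNReal.ofReal_mul hg.1, ← ENNReal.ofReal_mul (by positivity),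
      ← ENNReal.ofReal_mul (by positivity),
      ← ENNReal.ofReal_add (mul_nonneg (by positivity) h4) (by positivity)]
    refine ENNReal.ofReal_le_ofReal ?_
    have h5 := mul_le_mul_of_nonneg_left hE hg.1
    have h6 : gk r (rz p.1) * (128 * τ ^ 2 * (n + 1) * qk (T n p) ^ ((9 : ℝ) / 8)) ≤
        1 * (128 * τ ^ 2 * (n + 1) * qk (T n p) ^ ((9 : ℝ) / 8)) :=
      mul_le_mul_of_nonneg_right hg.2 (by positivity)
    rw [mul_add] at h5
    have h7 : gk r (rz p.1) * ((1 + τ ^ 2) * (kp (T n p) +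
        ((n + 1) - kp (T n p)) * lam c (2 / τ ^ 16) S G (T n p))) =
        (1 + τ ^ 2) * (gk r (rz p.1) * (kp (T n p) +
        ((n + 1) - kp (T n p)) * lam c (2 / τ ^ 16) S G (T n p))) := by ring
    rw [h7] at h5
    linarith
  refine (lintegral_mono_ae h1).trans (le_of_eq ?_)
  rw [lintegral_add_left (hA.const_mul _), lintegral_const_mul' _ _ ENNReal.ofReal_ne_top,
    lintegral_const_mul' _ _ ENNReal.ofReal_ne_top]

end MK
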