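import Pool.Agent.H16.MK.KKp
import Pool.Agent.H16.MC.Yg2

/-! Young's inequality, and finiteness (MP_c844e7, dimensions three and four). -/

set_option autoImplicit false

open MeasureTheory Set MB

namespace MK

variable {n : ℕ} {c R : ℝ} {G : E (n + 2) → E (n + 2)} {S : E (n + 2) → E (n + 3)}
  {μ : E (n + 2) → ℝ}

theorem KYg_young {n : ℕ} (hn : 1 ≤ n) {m L x w : ℝ} (hw : 0 < w) (hm : 0 ≤ m) (hx : 0 ≤ x)
    (hL : L = x ^ ((2 : ℝ) / (n + 2))) :
    m * L ≤ 2 / (n + 2) * w ^ (n + 2) * x +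
      n / (n + 2) * (m / w ^ 2) ^ (((n : ℝ) + 2) / n) := by
  have hn0 : (0 : ℝ) < n := by exact_mod_cast hn
  have hN : (0 : ℝ) < (n : ℝ) + 2 := by positivity
  have hL0 : 0 ≤ L := by rw [hL]; exact Real.rpow_nonneg hx _
  have hpq : (((n : ℝ) + 2) / 2).HolderConjugate (((n : ℝ) + 2) / n) := by
    rw [Real.holderConjugate_iff]
    refine ⟨by rw [lt_div_iff₀ (by norm_num)]; linarith, ?_⟩
    rw [inv_div, inv_div]
    field_simp
    ring
  have hw2 : 0 ≤ w ^ 2 := by positivity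
  have h1 := Real.young_inequality_of_nonneg (mul_nonneg hw2 hL0)
    (div_nonneg hm hw2) hpq
  have h2 : (w ^ 2 * L) ^ (((n : ℝ) + 2) / 2) = w ^ (n + 2) * x := by
    rw [Real.mul_rpow hw2 hL0, hL, ← Real.rpow_mul hx, ← Real.rpow_natCast w 2,
      ← Real.rpow_mul hw.le]
    have e1 : (2 : ℝ) / (n + 2) * ((n + 2) / 2) = 1 := by field_simp
    have e2 : ((2 : ℕ) : ℝ) * (((n : ℝ) + 2) / 2) = ((n + 2 : ℕ) : ℝ) := by
      push_cast
      ring
    rw [e1, e2, Real.rpow_one, Real.rpow_natCast]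
  rw [h2] at h1
  have h3 : m * L = w ^ 2 * L * (m / w ^ 2) := by field_simp
  rw [h3]
  refine h1.trans (le_of_eq ?_)
  field_simp

theorem ygk (hn : 1 ≤ n) {r : ℝ} (hr : 0 < r) (hr1 : r ≤ 1 / 2) {w : ℝ} (hw : 0 < w) (hc : 0 ≤ c)
    (hG : Dat c R G) (hS : ConfS S μ) :
    ∫⁻ p, ENNReal.ofReal (mK n r p * lam c R S G (T n p)) ∂(gaT n) ≤
      ENNReal.ofReal (2 / (n + 2) * w ^ (n + 2) * c) + ENNReal.ofReal (n / (n + 2)) *
        ∫⁻ p, ENNReal.ofReal ((mK n r p / w ^ 2) ^ (((n : ℝ) + 2) / n)) ∂(gaT n) := by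
  have hD : Measurable fun p => ENNReal.ofReal (Dd R S G (T n p)) :=
    (Dd_meas.comp (cont_T n).measurable).ennreal_ofReal
  have hM : Measurable fun p : (ℝ × ℝ) × (Fin (n + 1) → ℝ) =>
      ENNReal.ofReal ((mK n r p / w ^ 2) ^ (((n : ℝ) + 2) / n)) :=
    (((mK_meas r).div_const _).pow_const _).ennreal_ofReal
  have hk : 0 ≤ 2 / ((n : ℝ) + 2) * w ^ (n + 2) * c := by positivity
  calc ∫⁻ p, ENNReal.ofReal (mK n r p * lam c R S G (T n p)) ∂(gaT n)
      ≤ ∫⁻ p, (ENNReal.ofReal (2 / (n + 2) * w ^ (n + 2) * c) * ENNReal.ofReal (Dd R S G (T n p)) +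
          ENNReal.ofReal (n / (n + 2)) *
            ENNReal.ofReal ((mK n r p / w ^ 2) ^ (((n : ℝ) + 2) / n))) ∂(gaT n) := by
        refine lintegral_mono fun p => ?_
        have h0 := mK_nonneg (n := n) hr hr1 p
        have hd := Dd_nonneg (R := R) (S := S) (G := G) (T n p)
        have h1 := KYg_young hn hw h0 (mul_nonneg hc hd)
          (L := lam c R S G (T n p)) rfl
        have h2 : 0 ≤ (mK n r p / w ^ 2) ^ (((n : ℝ) + 2) / n) :=
          Real.rpow_nonneg (div_nonneg h0 (by positivity)) _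
        dsimp only
        rw [← ENNReal.ofReal_mul hk, ← ENNReal.ofReal_mul (by positivity),
          ← ENNReal.ofReal_add (mul_nonneg hk hd) (by positivity)]
        refine ENNReal.ofReal_le_ofReal (h1.trans (le_of_eq ?_))
        ring
    _ = ENNReal.ofReal (2 / (n + 2) * w ^ (n + 2) * c) *
          ∫⁻ p, ENNReal.ofReal (Dd R S G (T n p)) ∂(gaT n) +
        ENNReal.ofReal (n / (n + 2)) *
          ∫⁻ p, ENNReal.ofReal ((mK n r p / w ^ 2) ^ (((n : ℝ) + 2) / n)) ∂(gaT n) := by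
        rw [lintegral_add_left (hD.const_mul _), lintegral_const_mul _ hD,
          lintegral_const_mul _ hM]
    _ ≤ _ := by
        refine add_le_add ?_ le_rfl
        calc _ ≤ ENNReal.ofReal (2 / (n + 2) * w ^ (n + 2) * c) * 1 :=
              mul_le_mul' le_rfl (edd hG hS)
          _ = _ := mul_one _

/-- Finiteness of the integral of a power `q < 4` of `ρ^(-1/2)`. -/
theorem KYg_rho (n : ℕ) {q : ℝ} (hq : q < 4) :
    ∫⁻ p, ENNReal.ofReal ((rz p.1) ^ (-(q / 2))) ∂(gaT n) < ⊤ := by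
  have hF : Measurable fun z : ℝ × ℝ => ENNReal.ofReal ((rz z) ^ (-(q / 2))) :=
    ((rz_cont.measurable).pow_const _).ennreal_ofReal
  have hJ : ∫⁻ z, ENNReal.ofReal ((rz z) ^ (-(q / 2))) ∂ga2 < ⊤ := by
    rw [pol_int _ hF]
    have hin : ∀ θ : ℝ, ∫⁻ ρ in Ioi (0 : ℝ), ENNReal.ofReal (ρ * Real.exp (-ρ ^ 2 / 2)) *
        ENNReal.ofReal ((rz (pol ρ θ)) ^ (-(q / 2))) =
        ∫⁻ ρ in Ioi (0 : ℝ), ENNReal.ofReal (ρ ^ (1 - q / 2) * Real.exp (-(1 / 2) * ρ ^ 2)) := by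
      intro θ
      refine setLIntegral_congr_fun measurableSet_Ioi fun ρ hρ => ?_
      have hρ' : 0 < ρ := hρ
      rw [rz_pol hρ'.le, ← ENNReal.ofReal_mul (by positivity)]
      congr 1
      rw [sub_eq_add_neg, Real.rpow_add hρ', Real.rpow_one]
      have : -ρ ^ 2 / 2 = -(1 / 2) * ρ ^ 2 := by ring
      rw [this]
      ring
    rw [lintegral_congr hin, lintegral_const]
    refine ENNReal.mul_lt_top ?_ KKp_ang
    have h1 := integrableOn_rpow_mul_exp_neg_mul_sq (b := 1 / 2) (by norm_num) (s := 1 - q / 2)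
      (by linarith)
    exact h1.lintegral_lt_top
  have h1 : MeasurePreserving Prod.fst (gaT n) ga2 := measurePreserving_fst
  have h2 := h1.lintegral_comp hF
  rw [h2]
  exact hJ

theorem KYg_bd (n : ℕ) {r : ℝ} (hr : 0 < r) (hr1 : r ≤ 1 / 2) {p : (ℝ × ℝ) × (Fin (n + 1) → ℝ)}
    (hp : 0 < rz p.1) :
    mK n r p ≤ ((n : ℝ) + 3) + (Real.sqrt r)⁻¹ * (rz p.1) ^ (-(1 / 2) : ℝ) := by
  have hg := gk_mem hr hr1 hp.le
  have hk := kp_mem (T n p)
  have hn0 : (0 : ℝ) ≤ n := Nat.cast_nonneg n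
  have h1 := kk_le hr hp
  have h2 := kk_nonneg (r := r) hp.le
  unfold mK
  have h5 : gk r (rz p.1) * ((n + 1) - kp (T n p)) ≤ 1 * (n + 1) :=
    mul_le_mul hg.2 (by linarith) (by linarith) zero_le_one
  have h6 : kk r (rz p.1) * kp (T n p) ≤ kk r (rz p.1) * 1 :=
    mul_le_mul_of_nonneg_left hk.2 h2
  linarith

theorem mqk_fin {n : ℕ} (hn : 1 ≤ n) {r : ℝ} (hr : 0 < r) (hr1 : r ≤ 1 / 2) {w : ℝ} (hw : 0 < w) :
    ∫⁻ p, ENNReal.ofReal ((mK n r p / w ^ 2) ^ (((n : ℝ) + 2) / n)) ∂(gaT n) < ⊤ := by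
  have hn3 : (1 : ℝ) ≤ n := by exact_mod_cast hn
  set q : ℝ := ((n : ℝ) + 2) / n with hq
  have hq0 : 0 < q := by positivity
  have hq2 : q < 4 := by
    rw [hq, div_lt_iff₀ (by linarith)]
    linarith
  set A : ℝ := ((n : ℝ) + 3) / w ^ 2 with hA
  set B : ℝ := (Real.sqrt r)⁻¹ / w ^ 2 with hB
  have hA0 : 0 ≤ A := by positivity
  have hB0 : 0 ≤ B := by positivity
  -- the pointwise bound
  have hpt : ∀ᵐ p ∂(gaT n), ENNReal.ofReal ((mK n r p / w ^ 2) ^ q) ≤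
      ENNReal.ofReal ((2 * A) ^ q) + ENNReal.ofReal ((2 * B) ^ q) *
        ENNReal.ofReal ((rz p.1) ^ (-(q / 2))) := by
    filter_upwards [KKp_ae n] with p hp
    have hrz : 0 < rz p.1 := hp.1
    have h0 : 0 ≤ mK n r p / w ^ 2 := div_nonneg (mK_nonneg hr hr1 p) (by positivity)
    have h1 : mK n r p / w ^ 2 ≤ A + B * (rz p.1) ^ (-(1 / 2) : ℝ) := by
      rw [hA, hB]
      have h2 := KYg_bd n hr hr1 hrz
      calc mK n r p / w ^ 2 ≤ (((n : ℝ) + 3) + (Real.sqrt r)⁻¹ * (rz p.1) ^ (-(1 / 2) : ℝ)) / w ^ 2 :=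
            div_le_div_of_nonneg_right h2 (by positivity)
        _ = _ := by ring
    have hx : 0 ≤ B * (rz p.1) ^ (-(1 / 2) : ℝ) := by positivity
    have e1 : (2 * B) ^ q * (rz p.1) ^ (-(q / 2)) = (2 * (B * (rz p.1) ^ (-(1 / 2) : ℝ))) ^ q := by
      rw [← mul_assoc, Real.mul_rpow (x := 2 * B) (by positivity) (by positivity),
        ← Real.rpow_mul hrz.le]
      congr 2
      ring
    rw [← ENNReal.ofReal_mul (by positivity), ← ENNReal.ofReal_add (by positivity) (by positivity)]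
    apply ENNReal.ofReal_le_ofReal
    rw [e1]
    rcases le_total A (B * (rz p.1) ^ (-(1 / 2) : ℝ)) with h | h
    · have h2 : (mK n r p / w ^ 2) ^ q ≤ (2 * (B * (rz p.1) ^ (-(1 / 2) : ℝ))) ^ q :=
        Real.rpow_le_rpow h0 (by linarith) hq0.le
      have h3 : 0 ≤ (2 * A) ^ q := by positivity
      linarith
    · have h2 : (mK n r p / w ^ 2) ^ q ≤ (2 * A) ^ q :=
        Real.rpow_le_rpow h0 (by linarith) hq0.le
      have h3 : 0 ≤ (2 * (B * (rz p.1) ^ (-(1 / 2) : ℝ))) ^ q := by positivity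
      linarith
  refine lt_of_le_of_lt (lintegral_mono_ae hpt) ?_
  rw [lintegral_add_left measurable_const, lintegral_const,
    lintegral_const_mul' _ _ ENNReal.ofReal_ne_top]
  exact ENNReal.add_lt_top.2 ⟨ENNReal.mul_lt_top ENNReal.ofReal_lt_top (measure_lt_top _ _),
    ENNReal.mul_lt_top ENNReal.ofReal_lt_top (KYg_rho n hq2)⟩

/-- `eK + mK` has a finite integral. -/
theorem emk_fin (n : ℕ) {r : ℝ} (hr : 0 < r) (hr1 : r ≤ 1 / 2) :
    ∫⁻ p, ENNReal.ofReal (eK n r p + mK n r p) ∂(gaT n) < ⊤ := by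
  have hpt : ∀ᵐ p ∂(gaT n), ENNReal.ofReal (eK n r p + mK n r p) ≤
      ENNReal.ofReal ((n : ℝ) + 3) + ENNReal.ofReal ((Real.sqrt r)⁻¹) *
        ENNReal.ofReal ((rz p.1) ^ (-((1 : ℝ) / 2))) := by
    filter_upwards [KKp_ae n] with p hp
    have hrz : 0 < rz p.1 := hp.1
    rw [← ENNReal.ofReal_mul (by positivity), ← ENNReal.ofReal_add (by positivity) (by positivity)]
    apply ENNReal.ofReal_le_ofReal
    rw [eK_add]
    have hg := gk_mem hr hr1 hrz.le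
    have h1 := kk_le hr hrz
    have hn0 : (0 : ℝ) ≤ n := Nat.cast_nonneg n
    nlinarith
  refine lt_of_le_of_lt (lintegral_mono_ae hpt) ?_
  rw [lintegral_add_left measurable_const, lintegral_const,
    lintegral_const_mul' _ _ ENNReal.ofReal_ne_top]
  exact ENNReal.add_lt_top.2 ⟨ENNReal.mul_lt_top ENNReal.ofReal_lt_top (measure_lt_top _ _),
    ENNReal.mul_lt_top ENNReal.ofReal_lt_top (KYg_rho n (q := 1) (by norm_num))⟩

end MK
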