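import Pool.Agent.H16.MK.KDefs
import Pool.Agent.H16.MB.CutA

/-!
Row CutA (MP_c844e7, about 150 lines).  The ck-off function `ck ε X = (max 0 (wk X - ε²‖X‖²) / wk X)²`, `wk X = |w'|²` (sum of the squares of the
coordinates `2, …, n+1`; division by `0` is `0`).

PROOF.  `wk_bd`: a sum of squares, part of `‖ini X‖² = ∑_{i<n+2} (X i)²` (`EuclideanSpace.norm_sq_eq`, `Fin.sum_univ_succ` twice).
`ck_mem`: `wk ≥ 0`, `0 ≤ max 0 (wk - ε²‖X‖²) ≤ wk`.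
`P_ltk`: with `r = ‖X‖ > 0`, `l = lst X`: `wk ≥ ε² r² > 0` and `r² - l² = ‖ini X‖² ≥ wk > 0`, so `|l| < r`; `1+‖P X‖² = 2r/(r+l) = 2r(r-l)/(r²-l²) ≤ 4r²/wk ≤ 4/ε²`
(`one_add_P`).
`ck_zero`: `Y ↦ wk Y - ε²‖Y‖²` is continuous and negative at `X`, so near `X` the numerator is `0`.
`ck_diff`: if `wk X < ε²‖X‖²` it is locally `0`; otherwise `wk X ≥ ε²‖X‖² > 0` and near `X` it is `p(1 - ε²‖Y‖²/wk Y)`, where `p t = (max 0 t)²` is
differentiable everywhere with derivative `2 max 0 t`.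
`ck_grad`: in the first case the derivative is `0`.  In the second, `t = ε²‖X‖²/wk X ∈ (0,1]`, `D ck e = -2(1-t) Dt e`,
`Dt e = ε²(2⟪X,e⟫/wk - ‖X‖² 2⟪w',e⟫/wk²)`, `|⟪w',e⟫| ≤ √wk ‖e‖` (`w'` = the part of `X` in the coordinates `2..n+1`), so
`‖X‖ |Dt e| ≤ 2ε²‖e‖(‖X‖²/wk + ‖X‖³/wk^(3/2)) ≤ 4ε (‖X‖²/wk) ‖e‖` because `ε ≤ 1` and `ε‖X‖/√wk ≤ 1`.
`ck_one`: `t = ε²‖X‖²/wk`: if `t ≤ 1`, `1-(1-t)² ≤ 2t`; if `t > 1`, `1 ≤ 2t`.
-/

set_option autoImplicit false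

open MeasureTheory Set MB

namespace MK

variable {n : ℕ}

theorem wk_eq (X : E (n + 3)) : wk X = ‖ini (n + 2) X‖ ^ 2 := by
  rw [EuclideanSpace.real_norm_sq_eq]
  rfl

theorem wk_bd (X : E (n + 3)) : 0 ≤ wk X ∧ wk X ≤ ‖ini (n + 2) X‖ ^ 2 ∧ wk X ≤ ‖X‖ ^ 2 := by
  have h1 : 0 ≤ wk X := Finset.sum_nonneg fun i _ => sq_nonneg _
  have h2 : wk X ≤ ‖ini (n + 2) X‖ ^ 2 := (wk_eq X).le
  have h3 := norm_sq_eq X
  have h4 := sq_nonneg (lst X)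
  exact ⟨h1, h2, by linarith⟩

theorem wk_cont : Continuous (wk : E (n + 3) → ℝ) := by
  unfold wk
  fun_prop

theorem ck_mem (ε : ℝ) (X : E (n + 3)) : 0 ≤ ck ε X ∧ ck ε X ≤ 1 := by
  have h1 := (wk_bd X).1
  have h2 : 0 ≤ max 0 (wk X - ε ^ 2 * ‖X‖ ^ 2) / wk X := div_nonneg (le_max_left _ _) h1
  have h3 : max 0 (wk X - ε ^ 2 * ‖X‖ ^ 2) / wk X ≤ 1 := by
    refine div_le_one_of_le₀ (max_le h1 ?_) h1
    have : 0 ≤ ε ^ 2 * ‖X‖ ^ 2 := by positivity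
    linarith
  exact ⟨sq_nonneg _, pow_le_one₀ h2 h3⟩

theorem P_ltk {ε : ℝ} (hε : 0 < ε) (X : E (n + 3)) (hX : X ≠ 0) (h : ε ^ 2 * ‖X‖ ^ 2 ≤ wk X) :
    0 < ‖X‖ + lst X ∧ P X ∈ Metric.ball (0 : E (n + 2)) (2 / ε) := by
  have hr : 0 < ‖X‖ := norm_pos_iff.2 hX
  have hw : 0 < wk X := lt_of_lt_of_le (by positivity) h
  have h1 := norm_sq_eq X
  have h2 := (wk_bd X).2.1
  have h3 : 0 < ‖X‖ ^ 2 - lst X ^ 2 := by linarith
  have h4 : |lst X| < ‖X‖ := by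
    refine abs_lt_of_sq_lt_sq ?_ hr.le
    linarith
  have h5 := abs_lt.1 h4
  have h6 : 0 < ‖X‖ + lst X := by linarith
  refine ⟨h6, ?_⟩
  rw [mem_ball_zero_iff]
  have h7 := one_add_P X h6
  have h8 : 2 * ‖X‖ / (‖X‖ + lst X) ≤ (2 / ε) ^ 2 := by
    rw [div_le_iff₀ h6, div_pow]
    have h9 : 4 * ‖X‖ ^ 2 / wk X ≤ 2 ^ 2 / ε ^ 2 := by
      rw [div_le_div_iff₀ hw (by positivity)]
      nlinarith
    have h10 : 2 * ‖X‖ ≤ 4 * ‖X‖ ^ 2 / wk X * (‖X‖ + lst X) := by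
      rw [div_mul_eq_mul_div, le_div_iff₀ hw]
      have h11 : wk X ≤ (‖X‖ - lst X) * (‖X‖ + lst X) := by nlinarith
      have h12 : 2 * ‖X‖ * wk X ≤ 2 * ‖X‖ * ((‖X‖ - lst X) * (‖X‖ + lst X)) :=
        mul_le_mul_of_nonneg_left h11 (by positivity)
      have h13 : 2 * ‖X‖ * ((‖X‖ - lst X) * (‖X‖ + lst X)) ≤
          4 * ‖X‖ ^ 2 * (‖X‖ + lst X) := by
        have h14 : 2 * ‖X‖ * (‖X‖ - lst X) ≤ 2 * ‖X‖ * (2 * ‖X‖) :=
          mul_le_mul_of_nonneg_left (by linarith) (by positivity)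
        have := mul_le_mul_of_nonneg_right h14 h6.le
        linarith
      exact h12.trans h13
    exact h10.trans (mul_le_mul_of_nonneg_right h9 h6.le)
  refine lt_of_pow_lt_pow_left₀ 2 (by positivity) ?_
  linarith

theorem ck_ne {ε : ℝ} (hε : 0 < ε) (X : E (n + 3)) (h : ck ε X ≠ 0) :
    X ≠ 0 ∧ ε ^ 2 * ‖X‖ ^ 2 ≤ wk X := by
  have h1 : 0 < wk X - ε ^ 2 * ‖X‖ ^ 2 := by
    by_contra hc
    apply h
    unfold ck
    rw [max_eq_left (not_lt.1 hc), zero_div]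
    norm_num
  have h2 : 0 ≤ ε ^ 2 * ‖X‖ ^ 2 := by positivity
  refine ⟨?_, by linarith⟩
  rintro rfl
  have h3 := (wk_bd (0 : E (n + 3))).2.2
  rw [norm_zero] at h3 h1
  norm_num at h3 h1
  linarith

theorem ck_zero {ε : ℝ} (X : E (n + 3)) (h : wk X < ε ^ 2 * ‖X‖ ^ 2) :
    ∀ᶠ Y in nhds X, ck ε Y = 0 := by
  have h1 : ∀ᶠ Y in nhds X, wk Y < ε ^ 2 * ‖Y‖ ^ 2 := by
    refine (wk_cont.continuousAt).eventually_lt ?_ h
    fun_prop
  filter_upwards [h1] with Y hY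
  unfold ck
  rw [max_eq_left (by linarith), zero_div]
  norm_num

theorem KCa_p (t : ℝ) : HasDerivAt (fun t : ℝ => (max 0 t) ^ 2) (2 * max 0 t) t := by
  rcases lt_trichotomy t 0 with ht | rfl | ht
  · have h1 : (fun t : ℝ => (max 0 t) ^ 2) =ᶠ[nhds t] fun _ => (0 : ℝ) := by
      filter_upwards [gt_mem_nhds ht] with y hy
      rw [max_eq_left (le_of_lt hy)]
      norm_num
    rw [max_eq_left ht.le, mul_zero]
    exact (hasDerivAt_const t (0 : ℝ)).congr_of_eventuallyEq h1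
  · rw [max_self, mul_zero, hasDerivAt_iff_isLittleO_nhds_zero]
    have h1 : (fun h : ℝ => (max 0 (0 + h)) ^ 2 - (max 0 (0 : ℝ)) ^ 2 - h • (0 : ℝ)) =O[nhds 0]
        fun h : ℝ => h ^ 2 := by
      refine Asymptotics.IsBigO.of_bound 1 (Filter.Eventually.of_forall fun h => ?_)
      rw [zero_add, max_self, smul_zero, one_mul]
      simp only [Real.norm_eq_abs]
      rw [show (max 0 h) ^ 2 - (0 : ℝ) ^ 2 - 0 = (max 0 h) ^ 2 by ring, abs_of_nonneg (sq_nonneg _),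
        abs_of_nonneg (sq_nonneg _)]
      rcases le_total 0 h with hh | hh
      · rw [max_eq_right hh]
      · rw [max_eq_left hh]
        nlinarith [sq_nonneg h]
    exact h1.trans_isLittleO (Asymptotics.isLittleO_pow_id one_lt_two)
  · have h1 : (fun t : ℝ => (max 0 t) ^ 2) =ᶠ[nhds t] fun t => t ^ 2 := by
      filter_upwards [lt_mem_nhds ht] with y hy
      rw [max_eq_right (le_of_lt hy)]
    rw [max_eq_right ht.le]
    have h2 := (hasDerivAt_pow 2 t).congr_of_eventuallyEq h1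
    simpa using h2

theorem KCa_eq {ε : ℝ} (Y : E (n + 3)) (hw : 0 < wk Y) :
    ck ε Y = (max 0 (1 - ε ^ 2 * ‖Y‖ ^ 2 / wk Y)) ^ 2 := by
  unfold ck
  congr 1
  rcases le_total 0 (wk Y - ε ^ 2 * ‖Y‖ ^ 2) with h | h
  · rw [max_eq_right h, max_eq_right]
    · field_simp
    · have : ε ^ 2 * ‖Y‖ ^ 2 / wk Y ≤ 1 := (div_le_one hw).2 (by linarith)
      linarith
  · rw [max_eq_left h, max_eq_left, zero_div]
    have : 1 ≤ ε ^ 2 * ‖Y‖ ^ 2 / wk Y := (one_le_div hw).2 (by linarith)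
    linarith

theorem KCa_ev {ε : ℝ} (X : E (n + 3)) (hw : 0 < wk X) :
    ck (n := n) ε =ᶠ[nhds X] fun Y => (max 0 (1 - ε ^ 2 * ‖Y‖ ^ 2 / wk Y)) ^ 2 := by
  filter_upwards [wk_cont.continuousAt.eventually (lt_mem_nhds hw)] with Y hY
  exact KCa_eq Y hY

theorem ck_diff {ε : ℝ} (hε : 0 < ε) (X : E (n + 3)) (hX : X ≠ 0) :
    DifferentiableAt ℝ (ck (n := n) ε) X := by
  rcases lt_or_ge (wk X) (ε ^ 2 * ‖X‖ ^ 2) with h | h
  · exact (differentiableAt_const (0 : ℝ)).congr_of_eventuallyEq (ck_zero X h)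
  · have hr : 0 < ‖X‖ := norm_pos_iff.2 hX
    have hw : 0 < wk X := lt_of_lt_of_le (by positivity) h
    refine DifferentiableAt.congr_of_eventuallyEq ?_ (KCa_ev X hw)
    have h1 : DifferentiableAt ℝ (fun Y : E (n + 3) => 1 - ε ^ 2 * ‖Y‖ ^ 2 / wk Y) X := by
      have h2 : DifferentiableAt ℝ (fun Y : E (n + 3) => wk Y) X := by
        unfold wk
        fun_prop
      have h3 : DifferentiableAt ℝ (fun Y : E (n + 3) => ‖Y‖ ^ 2) X :=
        differentiableAt_id.norm_sq ℝ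
      simp only [div_eq_mul_inv]
      exact (differentiableAt_const _).sub
        (((differentiableAt_const _).mul h3).mul (h2.inv hw.ne'))
    exact (KCa_p _).differentiableAt.comp X h1

theorem KCa_line (X e : E (n + 3)) (t : ℝ) : wk (X + t • e) =
    wk X + 2 * t * (∑ i : Fin (n + 2), X i.castSucc * e i.castSucc) +
      t ^ 2 * wk e := by
  unfold wk
  rw [Finset.mul_sum, Finset.mul_sum, ← Finset.sum_add_distrib, ← Finset.sum_add_distrib]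
  refine Finset.sum_congr rfl fun i _ => ?_
  rw [PiLp.add_apply, PiLp.smul_apply, smul_eq_mul]
  ring

theorem KCa_norm (X e : E (n + 3)) (t : ℝ) : ‖X + t • e‖ ^ 2 =
    ‖X‖ ^ 2 + 2 * t * inner ℝ X e + t ^ 2 * ‖e‖ ^ 2 := by
  rw [norm_add_sq_real, inner_smul_right, norm_smul, mul_pow, Real.norm_eq_abs, sq_abs]
  ring

theorem KCa_B (X e : E (n + 3)) :
    |∑ i : Fin (n + 2), X i.castSucc * e i.castSucc| ≤
      Real.sqrt (wk X) * ‖e‖ := by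
  refine abs_le_of_sq_le_sq ?_ (by positivity)
  rw [mul_pow, Real.sq_sqrt (wk_bd X).1]
  have h1 := Finset.sum_mul_sq_le_sq_mul_sq Finset.univ
    (fun i : Fin (n + 2) => X i.castSucc) (fun i => e i.castSucc)
  have h2 : (∑ i : Fin (n + 2), e i.castSucc ^ 2) ≤ ‖e‖ ^ 2 := (wk_bd e).2.2
  exact h1.trans (mul_le_mul_of_nonneg_left h2 (wk_bd X).1)

theorem ck_grad {ε : ℝ} (hε : 0 < ε) (hε1 : ε ≤ 1) (X e : E (n + 3)) (hX : X ≠ 0) :
    |fderiv ℝ (ck (n := n) ε) X e| * ‖X‖ ≤ 8 * ε * qk X * ‖e‖ := by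
  have hr : 0 < ‖X‖ := norm_pos_iff.2 hX
  have hq : 0 ≤ qk X := div_nonneg (sq_nonneg _) (wk_bd X).1
  rcases lt_or_ge (wk X) (ε ^ 2 * ‖X‖ ^ 2) with h | h
  · have h1 : ck (n := n) ε =ᶠ[nhds X] fun _ => (0 : ℝ) := ck_zero X h
    rw [h1.fderiv_eq, fderiv_fun_const, Pi.zero_apply, ContinuousLinearMap.zero_apply, abs_zero,
      zero_mul]
    positivity
  · have hw : 0 < wk X := lt_of_lt_of_le (by positivity) h
    obtain ⟨B, hB⟩ : ∃ B : ℝ, B = ∑ i : Fin (n + 2), X i.castSucc *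
      e i.castSucc := ⟨_, rfl⟩
    have hc : HasDerivAt (fun t : ℝ => X + t • e) e 0 := by
      have h1 := ((hasDerivAt_id (0 : ℝ)).smul_const e).const_add X
      rwa [one_smul] at h1
    have hd1 : HasDerivAt (fun t : ℝ => ck ε (X + t • e)) (fderiv ℝ (ck (n := n) ε) X e) 0 := by
      have h1 : HasFDerivAt (ck (n := n) ε) (fderiv ℝ (ck (n := n) ε) X) (X + (0 : ℝ) • e) := by
        rw [zero_smul, add_zero]
        exact (ck_diff hε X hX).hasFDerivAt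
      exact h1.comp_hasDerivAt (0 : ℝ) hc
    have hN : HasDerivAt (fun t : ℝ => ‖X + t • e‖ ^ 2) (2 * inner ℝ X e) 0 := by
      have h1 : (fun t : ℝ => ‖X + t • e‖ ^ 2) = fun t =>
          ‖X‖ ^ 2 + 2 * t * inner ℝ X e + t ^ 2 * ‖e‖ ^ 2 := by
        funext t
        exact KCa_norm X e t
      rw [h1]
      have h2 : HasDerivAt (fun t : ℝ => ‖X‖ ^ 2 + 2 * t * inner ℝ X e + t ^ 2 * ‖e‖ ^ 2)
          (2 * 1 * inner ℝ X e + (2 : ℕ) * (0 : ℝ) ^ (2 - 1) * ‖e‖ ^ 2) 0 :=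
        ((((hasDerivAt_id (0 : ℝ)).const_mul 2).mul_const _).const_add _).add
          ((hasDerivAt_pow 2 (0 : ℝ)).mul_const _)
      convert h2 using 1
      norm_num
    have hW : HasDerivAt (fun t : ℝ => wk (X + t • e)) (2 * B) 0 := by
      have h1 : (fun t : ℝ => wk (X + t • e)) = fun t => wk X + 2 * t * B + t ^ 2 * wk e := by
        funext t
        rw [hB]
        exact KCa_line X e t
      rw [h1]
      have h2 : HasDerivAt (fun t : ℝ => wk X + 2 * t * B + t ^ 2 * wk e)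
          (2 * 1 * B + (2 : ℕ) * (0 : ℝ) ^ (2 - 1) * wk e) 0 :=
        ((((hasDerivAt_id (0 : ℝ)).const_mul 2).mul_const _).const_add _).add
          ((hasDerivAt_pow 2 (0 : ℝ)).mul_const _)
      convert h2 using 1
      norm_num
    have hW0 : wk (X + (0 : ℝ) • e) ≠ 0 := by
      rw [zero_smul, add_zero]
      exact hw.ne'
    have hg := ((hN.const_mul (ε ^ 2)).div hW hW0).const_sub 1
    have hg2 := (KCa_p (1 - ε ^ 2 * ‖X + (0 : ℝ) • e‖ ^ 2 / wk (X + (0 : ℝ) • e))).comp (0 : ℝ) hg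
    have hev : (fun t : ℝ => ck ε (X + t • e)) =ᶠ[nhds 0]
        ((fun t : ℝ => (max 0 t) ^ 2) ∘
          fun t : ℝ => 1 - ε ^ 2 * ‖X + t • e‖ ^ 2 / wk (X + t • e)) := by
      have h1 : Filter.Tendsto (fun t : ℝ => X + t • e) (nhds 0) (nhds X) := by
        have := hc.continuousAt
        unfold ContinuousAt at this
        simpa using this
      exact h1.eventually (KCa_ev X hw)
    have hd2 := hg2.congr_of_eventuallyEq hev
    have hD := hd1.unique hd2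
    rw [hD]
    simp only [zero_smul, add_zero]
    have hB2 : |B| ≤ Real.sqrt (wk X) * ‖e‖ := by
      rw [hB]
      exact KCa_B X e
    obtain ⟨s, hs⟩ : ∃ s, s = Real.sqrt (wk X) := ⟨_, rfl⟩
    rw [← hs] at hB2
    have hs0 : 0 < s := by
      rw [hs]
      exact Real.sqrt_pos.2 hw
    have hs2 : s ^ 2 = wk X := by
      rw [hs]
      exact Real.sq_sqrt hw.le
    have hes : ε * ‖X‖ ≤ s := by
      refine le_of_sq_le_sq ?_ hs0.le
      rw [hs2, mul_pow]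
      exact h
    have hI : |inner ℝ X e| ≤ ‖X‖ * ‖e‖ := abs_real_inner_le_norm X e
    have hm : |2 * max 0 (1 - ε ^ 2 * ‖X‖ ^ 2 / wk X)| ≤ 2 := by
      have h1 : 0 ≤ ε ^ 2 * ‖X‖ ^ 2 / wk X := by positivity
      have h2 : max 0 (1 - ε ^ 2 * ‖X‖ ^ 2 / wk X) ≤ 1 := max_le (by norm_num) (by linarith)
      have h3 : 0 ≤ max 0 (1 - ε ^ 2 * ‖X‖ ^ 2 / wk X) := le_max_left _ _
      rw [abs_of_nonneg (by positivity)]
      linarith
    have hnum : |ε ^ 2 * (2 * inner ℝ X e) * wk X - ε ^ 2 * ‖X‖ ^ 2 * (2 * B)| ≤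
        ε ^ 2 * (2 * (‖X‖ * ‖e‖) * s ^ 2 + 2 * ‖X‖ ^ 2 * (s * ‖e‖)) := by
      rw [hs2]
      have e1 : ε ^ 2 * (2 * inner ℝ X e) * wk X - ε ^ 2 * ‖X‖ ^ 2 * (2 * B) =
        (2 * ε ^ 2 * wk X) * inner ℝ X e - (2 * ε ^ 2 * ‖X‖ ^ 2) * B := by ring
      rw [e1]
      refine (abs_sub _ _).trans ?_
      rw [abs_mul (2 * ε ^ 2 * wk X), abs_mul (2 * ε ^ 2 * ‖X‖ ^ 2),
        abs_of_nonneg (show 0 ≤ 2 * ε ^ 2 * wk X by positivity),
        abs_of_nonneg (show 0 ≤ 2 * ε ^ 2 * ‖X‖ ^ 2 by positivity)]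
      have h1 := mul_le_mul_of_nonneg_left hI (show 0 ≤ 2 * ε ^ 2 * wk X by positivity)
      have h2 := mul_le_mul_of_nonneg_left hB2 (show 0 ≤ 2 * ε ^ 2 * ‖X‖ ^ 2 by positivity)
      linarith
    have hquot : |-((ε ^ 2 * (2 * inner ℝ X e) * wk X - ε ^ 2 * ‖X‖ ^ 2 * (2 * B)) / wk X ^ 2)| ≤
        ε ^ 2 * (2 * (‖X‖ * ‖e‖) * s ^ 2 + 2 * ‖X‖ ^ 2 * (s * ‖e‖)) / s ^ 4 := by
      rw [abs_neg, abs_div, abs_of_pos (show 0 < wk X ^ 2 by positivity), ← hs2,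
        show (s ^ 2) ^ 2 = s ^ 4 by ring]
      rw [← hs2] at hnum
      exact div_le_div_of_nonneg_right hnum (by positivity)
    rw [abs_mul]
    have hq2 : qk X = ‖X‖ ^ 2 / s ^ 2 := by
      unfold qk
      rw [hs2]
    rw [hq2]
    have hfin : 2 * (ε ^ 2 * (2 * (‖X‖ * ‖e‖) * s ^ 2 + 2 * ‖X‖ ^ 2 * (s * ‖e‖)) / s ^ 4) * ‖X‖ ≤
        8 * ε * (‖X‖ ^ 2 / s ^ 2) * ‖e‖ := by
      have h1 : 2 * (ε ^ 2 * (2 * (‖X‖ * ‖e‖) * s ^ 2 + 2 * ‖X‖ ^ 2 * (s * ‖e‖)) / s ^ 4) * ‖X‖ =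
          (4 * ε * (‖X‖ ^ 2 / s ^ 2) * ‖e‖) * (ε + ε * ‖X‖ / s) := by
        field_simp
        ring
      have h2 : ε * ‖X‖ / s ≤ 1 := (div_le_one hs0).2 hes
      have h3 : (4 * ε * (‖X‖ ^ 2 / s ^ 2) * ‖e‖) * (ε + ε * ‖X‖ / s) ≤
          (4 * ε * (‖X‖ ^ 2 / s ^ 2) * ‖e‖) * 2 :=
        mul_le_mul_of_nonneg_left (by linarith) (by positivity)
      rw [h1]
      linarith
    refine le_trans ?_ hfin
    refine mul_le_mul_of_nonneg_right ?_ hr.le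
    exact mul_le_mul hm hquot (abs_nonneg _) (by norm_num)

theorem ck_one (ε : ℝ) (X : E (n + 3)) (hw : 0 < wk X) :
    1 - ck ε X ≤ 2 * (ε ^ 2 * qk X) := by
  rw [KCa_eq X hw]
  have h1 : ε ^ 2 * qk X = ε ^ 2 * ‖X‖ ^ 2 / wk X := by
    unfold qk
    ring
  rw [h1]
  obtain ⟨t, ht⟩ : ∃ t, t = ε ^ 2 * ‖X‖ ^ 2 / wk X := ⟨_, rfl⟩
  rw [← ht]
  have h0 : 0 ≤ t := by
    rw [ht]
    positivity
  rcases le_total t 1 with h | h
  · rw [max_eq_right (by linarith)]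
    nlinarith [sq_nonneg t]
  · rw [max_eq_left (by linarith)]
    nlinarith

end MK
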