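import Pool.Agent.H16.MC.CDefs

/-!
# MP_c844e7 (Martio), dimensions three and four: definitions

`N = n + 2`, `n ≥ 1`, `d = n + 1 = N - 1`.  The weight of the plane is `gk r`, the weight of the radial
derivative it produces is `kk r` (with the auxiliary weight `om r`), `0 < r ≤ 1/2`.  The cut-off
function uses `wk X = |X|² - w₀²` (the square of the distance to the line of `w₀`).
-/

set_option autoImplicit false

open MeasureTheory Set MB

namespace MK

/-- The squared norm of the first `n + 2` coordinates. -/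
noncomputable def wk {n : ℕ} (X : E (n + 3)) : ℝ := ∑ i : Fin (n + 2), X i.castSucc ^ 2

/-- The cut-off function. -/
noncomputable def ck {n : ℕ} (ε : ℝ) (X : E (n + 3)) : ℝ :=
  (max 0 (wk X - ε ^ 2 * ‖X‖ ^ 2) / wk X) ^ 2

/-- The cut-off lift. -/
noncomputable def Vk {n : ℕ} (ε : ℝ) (S : E (n + 2) → E (n + 3)) (G : E (n + 2) → E (n + 2))
    (X : E (n + 3)) : E (n + 3) := ck ε X • lift S G X

/-- `|X|² / wk`. -/
noncomputable def qk {n : ℕ} (X : E (n + 3)) : ℝ := ‖X‖ ^ 2 / wk X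

/-- The positive part of `(R² + 3R/2 - 1)/2 = (R - 1/2)(R + 2)/2`. -/
noncomputable def gr (R : ℝ) : ℝ := max 0 ((R - 1 / 2) * (R + 2) / 2)

/-- The weight of the plane. -/
noncomputable def gk (r ρ : ℝ) : ℝ := gr ρ / (ρ * (ρ + r))

/-- The weight in the Cauchy–Schwarz inequality. -/
noncomputable def om (r ρ : ℝ) : ℝ := min 1 (Real.sqrt (ρ / r))

/-- The weight of the radial derivative. -/
noncomputable def kk (r ρ : ℝ) : ℝ :=
  if 1 / 2 ≤ ρ then 1 / 2 + 3 / (4 * ρ) else om r ρ * Real.exp ((ρ ^ 2 - 1 / 4) / 2) / ρ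

/-- `∫_0^∞ gr R exp(-R²/2) ∫_0^R om H`. -/
noncomputable def dbk (r : ℝ) (H : ℝ → ENNReal) : ENNReal :=
  ∫⁻ R in Ioi (0 : ℝ), ENNReal.ofReal (gr R * Real.exp (-R ^ 2 / 2)) *
    ∫⁻ ρ in Ioo 0 R, ENNReal.ofReal (om r ρ) * H ρ

/-- The constant part of the bound of the energy density. -/
noncomputable def eK (n : ℕ) (r : ℝ) (p : (ℝ × ℝ) × (Fin (n + 1) → ℝ)) : ℝ :=
  gk r (rz p.1) * kp (T n p) + kk r (rz p.1) * (1 - kp (T n p))

/-- The coefficient of the squared stretching in the bound of the energy density. -/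
noncomputable def mK (n : ℕ) (r : ℝ) (p : (ℝ × ℝ) × (Fin (n + 1) → ℝ)) : ℝ :=
  gk r (rz p.1) * ((n + 1) - kp (T n p)) + kk r (rz p.1) * kp (T n p)

end MK
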