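import Pool.Agent.H16.MK.KDefs
import Pool.Agent.H16.MC.Kgx
import Pool.Agent.H16.MB.Ftc

/-!
The weights of the plane (MP_c844e7, dimensions three and four): signs, measurability, exchange of the
order in `dbk`, weighted fundamental theorem of calculus.
-/

set_option autoImplicit false

open MeasureTheory Set MB

namespace MK

theorem gr_nonneg (R : ℝ) : 0 ≤ gr R := le_max_left _ _

theorem gr_of_le {R : ℝ} (h0 : 0 ≤ R) (h : R ≤ 1 / 2) : gr R = 0 := by
  unfold gr
  apply max_eq_left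
  have h1 : (R - 1 / 2) * (R + 2) ≤ 0 := mul_nonpos_of_nonpos_of_nonneg (by linarith) (by linarith)
  linarith

theorem gr_of_ge {R : ℝ} (h : 1 / 2 ≤ R) : gr R = (R - 1 / 2) * (R + 2) / 2 := by
  unfold gr
  apply max_eq_right
  have h1 : 0 ≤ (R - 1 / 2) * (R + 2) := mul_nonneg (by linarith) (by linarith)
  linarith

theorem gk_mem {r ρ : ℝ} (hr : 0 < r) (hr1 : r ≤ 1 / 2) (hρ : 0 ≤ ρ) :
    0 ≤ gk r ρ ∧ gk r ρ ≤ 1 := by
  unfold gk
  refine ⟨div_nonneg (gr_nonneg _) (by positivity), ?_⟩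
  rcases le_total ρ (1 / 2) with h | h
  · rw [gr_of_le hρ h, zero_div]
    exact zero_le_one
  · rw [gr_of_ge h]
    have h0 : 0 < ρ * (ρ + r) := mul_pos (by linarith) (by linarith)
    rw [div_le_one h0]
    nlinarith [sq_nonneg (ρ - 3 / 4), mul_pos hr (show 0 < ρ by linarith)]

theorem gk_pos {r ρ : ℝ} (hr : 0 < r) (h : 1 / 2 < ρ) : 0 < gk r ρ := by
  unfold gk
  rw [gr_of_ge h.le]
  have h0 : 0 < ρ * (ρ + r) := mul_pos (by linarith) (by linarith)
  have h1 : 0 < (ρ - 1 / 2) * (ρ + 2) := mul_pos (by linarith) (by linarith)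
  positivity

theorem om_mem (r ρ : ℝ) : 0 ≤ om r ρ ∧ om r ρ ≤ 1 :=
  ⟨le_min zero_le_one (Real.sqrt_nonneg _), min_le_left _ _⟩

theorem om_pos {r ρ : ℝ} (hr : 0 < r) (hρ : 0 < ρ) : 0 < om r ρ :=
  lt_min zero_lt_one (Real.sqrt_pos.2 (div_pos hρ hr))

theorem om_of_ge {r ρ : ℝ} (hr : 0 < r) (h : r ≤ ρ) : om r ρ = 1 := by
  unfold om
  apply min_eq_left
  rw [show (1 : ℝ) = Real.sqrt 1 by simp]
  exact Real.sqrt_le_sqrt ((one_le_div hr).2 h)

theorem kk_nonneg {r ρ : ℝ} (hρ : 0 ≤ ρ) : 0 ≤ kk r ρ := by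
  unfold kk
  split_ifs with h
  · positivity
  · have := (om_mem r ρ).1
    positivity

theorem kk_zero (r : ℝ) : kk r 0 = 0 := by
  unfold kk
  rw [if_neg (by norm_num), div_zero]

theorem gr_meas : Measurable gr := by
  unfold gr
  exact measurable_const.max (by fun_prop)

theorem gk_meas (r : ℝ) : Measurable (gk r) := by
  unfold gk
  exact gr_meas.div (by fun_prop)

theorem om_meas (r : ℝ) : Measurable (om r) := by
  unfold om
  exact measurable_const.min (by fun_prop)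

theorem kk_meas (r : ℝ) : Measurable (kk r) := by
  unfold kk
  refine Measurable.ite measurableSet_Ici ?_ ?_
  · exact measurable_const.add (measurable_const.div (measurable_const.mul measurable_id))
  · refine Measurable.div ?_ measurable_id
    refine (om_meas r).mul ?_
    fun_prop

private noncomputable def gm (t : ℝ) : ℝ := Real.exp (-t ^ 2 / 2)

private theorem gm_eq (t : ℝ) : gm t = Real.exp (-(1 / 2 : ℝ) * t ^ 2) := by
  unfold gm
  congr 1
  ring

private theorem gm_deriv (t : ℝ) : HasDerivAt gm (-t * gm t) t := by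
  have h1 : HasDerivAt (fun t : ℝ => -t ^ 2 / 2) (-t) t := by
    have h2 := ((hasDerivAt_pow 2 t).neg).div_const 2
    have h4 : -((2 : ℕ) * t ^ (2 - 1)) / 2 = -t := by
      norm_num
      ring
    rw [h4] at h2
    exact h2
  have h3 := h1.exp
  have h5 : Real.exp (-t ^ 2 / 2) * -t = -t * gm t := by
    unfold gm
    ring
  rw [h5] at h3
  exact h3

private theorem gm_lim : Filter.Tendsto gm Filter.atTop (nhds 0) := by
  have h := (tendsto_rpow_abs_mul_exp_neg_mul_sq_cocompact (a := 1 / 2) (by norm_num) 0).mono_left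
    atTop_le_cocompact
  refine h.congr fun t => ?_
  rw [Real.rpow_zero, one_mul, gm_eq]

private theorem gm_lim1 : Filter.Tendsto (fun t => t * gm t) Filter.atTop (nhds 0) := by
  have h := (tendsto_rpow_abs_mul_exp_neg_mul_sq_cocompact (a := 1 / 2) (by norm_num) 1).mono_left
    atTop_le_cocompact
  refine h.congr' ?_
  filter_upwards [Filter.eventually_ge_atTop 0] with t ht
  rw [Real.rpow_one, abs_of_nonneg ht, gm_eq]

theorem gr_int {ρ : ℝ} (h : 1 / 2 ≤ ρ) :
    ∫⁻ R in Ioi ρ, ENNReal.ofReal (gr R * Real.exp (-R ^ 2 / 2)) =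
      ENNReal.ofReal ((ρ + 3 / 2) / 2 * Real.exp (-ρ ^ 2 / 2)) := by
  have hd : ∀ x ∈ Ici ρ, HasDerivAt (fun t => -((t + 3 / 2) / 2 * gm t))
      ((x - 1 / 2) * (x + 2) / 2 * gm x) x := by
    intro x _
    have h1 := ((((hasDerivAt_id x).add_const (3 / 2 : ℝ)).div_const 2).mul (gm_deriv x)).neg
    refine h1.congr_deriv ?_
    simp only [id]
    ring
  have hl : Filter.Tendsto (fun t => -((t + 3 / 2) / 2 * gm t)) Filter.atTop (nhds 0) := by
    have h3 := ((gm_lim1.const_mul (1 / 2)).add (gm_lim.const_mul (3 / 4))).neg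
    simp only [mul_zero, add_zero, neg_zero] at h3
    refine h3.congr fun t => ?_
    ring
  have hp : ∀ x ∈ Ioi ρ, 0 ≤ (x - 1 / 2) * (x + 2) / 2 * gm x := by
    intro x hx
    have hx' : ρ < x := hx
    have h1 : 0 ≤ (x - 1 / 2) * (x + 2) := mul_nonneg (by linarith) (by linarith)
    have h2 : 0 < gm x := Real.exp_pos _
    positivity
  have hi := integrableOn_Ioi_deriv_of_nonneg' hd hp hl
  have he := integral_Ioi_of_hasDerivAt_of_nonneg' hd hp hl
  have h1 : ∫⁻ R in Ioi ρ, ENNReal.ofReal (gr R * Real.exp (-R ^ 2 / 2)) =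
      ∫⁻ R in Ioi ρ, ENNReal.ofReal ((R - 1 / 2) * (R + 2) / 2 * gm R) := by
    refine setLIntegral_congr_fun measurableSet_Ioi fun R hR => ?_
    have hR' : ρ < R := hR
    rw [gr_of_ge (by linarith)]
    rfl
  rw [h1, ← ofReal_integral_eq_lintegral_ofReal hi
    (ae_restrict_of_forall_mem measurableSet_Ioi hp), he]
  congr 1
  unfold gm
  ring

theorem kk_lint {r ρ : ℝ} (hr : 0 < r) (hr1 : r ≤ 1 / 2) (hρ : 0 < ρ) :
    ENNReal.ofReal (om r ρ) * ∫⁻ R in Ioi ρ, ENNReal.ofReal (gr R * Real.exp (-R ^ 2 / 2)) =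
      ENNReal.ofReal (ρ * Real.exp (-ρ ^ 2 / 2) * kk r ρ) := by
  unfold kk
  split_ifs with h
  · rw [gr_int h, om_of_ge hr (by linarith), ENNReal.ofReal_one, one_mul]
    congr 1
    field_simp
    ring
  · rw [not_le] at h
    have h1 : ∫⁻ R in Ioi ρ, ENNReal.ofReal (gr R * Real.exp (-R ^ 2 / 2)) =
        ∫⁻ R in Ioi (1 / 2), ENNReal.ofReal (gr R * Real.exp (-R ^ 2 / 2)) := by
      rw [← lintegral_indicator measurableSet_Ioi, ← lintegral_indicator measurableSet_Ioi]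
      refine lintegral_congr fun R => ?_
      by_cases h2 : 1 / 2 < R
      · rw [indicator_of_mem (show R ∈ Ioi (1 / 2) from h2),
          indicator_of_mem (show R ∈ Ioi ρ from h.trans h2)]
      · rw [indicator_of_notMem (show R ∉ Ioi (1 / 2) from h2)]
        by_cases h3 : ρ < R
        · rw [indicator_of_mem (show R ∈ Ioi ρ from h3), gr_of_le (by linarith) (not_lt.1 h2),
            zero_mul, ENNReal.ofReal_zero]
        · rw [indicator_of_notMem (show R ∉ Ioi ρ from h3)]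
    rw [h1, gr_int le_rfl, ← ENNReal.ofReal_mul (om_mem r ρ).1]
    congr 1
    have h5 : Real.exp (-(1 / 2) ^ 2 / 2) = Real.exp (-ρ ^ 2 / 2) *
        Real.exp ((ρ ^ 2 - 1 / 4) / 2) := by
      rw [← Real.exp_add]
      congr 1
      ring
    rw [h5]
    field_simp
    ring

theorem dbk_eq {r : ℝ} (hr : 0 < r) (hr1 : r ≤ 1 / 2) (H : ℝ → ENNReal) (hH : Measurable H) :
    dbk r H = ∫⁻ ρ in Ioi (0 : ℝ),
      ENNReal.ofReal (ρ * Real.exp (-ρ ^ 2 / 2) * kk r ρ) * H ρ := by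
  unfold dbk
  have hw : Measurable fun R : ℝ => ENNReal.ofReal (gr R * Real.exp (-R ^ 2 / 2)) := by
    refine Measurable.ennreal_ofReal ?_
    exact gr_meas.mul (by fun_prop)
  have hK : Measurable fun ρ : ℝ => ENNReal.ofReal (om r ρ) * H ρ :=
    (om_meas r).ennreal_ofReal.mul hH
  rw [Kgx_swap _ _ hw hK]
  refine setLIntegral_congr_fun measurableSet_Ioi fun ρ hρ => ?_
  rw [← kk_lint hr hr1 hρ]
  ring

/-- `∫_0^R 1/om ≤ R + r` for `R ≥ r`. -/
theorem om_inv {r R : ℝ} (hr : 0 < r) (hR : r ≤ R) :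
    ∫⁻ ρ in Ioo 0 R, ENNReal.ofReal ((om r ρ)⁻¹) ≤ ENNReal.ofReal (R + r) := by
  have h1 : ∀ ρ ∈ Ioo 0 R, ENNReal.ofReal ((om r ρ)⁻¹) ≤
      ENNReal.ofReal 1 + ENNReal.ofReal ((Ioo 0 r).indicator (fun ρ => Real.sqrt r * ρ ^ (-(1 / 2) : ℝ) - 1) ρ) := by
    intro ρ hρ
    have hρ0 : 0 < ρ := hρ.1
    by_cases h : ρ < r
    · rw [indicator_of_mem (show ρ ∈ Ioo 0 r from ⟨hρ0, h⟩)]
      have e1 : Real.sqrt (ρ / r) ≤ 1 := by
        rw [show (1 : ℝ) = Real.sqrt 1 by simp]
        exact Real.sqrt_le_sqrt ((div_le_one hr).2 h.le)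
      have e2 : om r ρ = Real.sqrt (ρ / r) := min_eq_right e1
      have e3 : (om r ρ)⁻¹ = Real.sqrt r * ρ ^ (-(1 / 2) : ℝ) := by
        rw [e2, Real.sqrt_div hρ0.le, inv_div, Real.rpow_neg hρ0.le, ← Real.sqrt_eq_rpow]
        rfl
      have e4 : 1 ≤ (om r ρ)⁻¹ := by
        rw [one_le_inv₀ (om_pos hr hρ0)]
        exact (om_mem r ρ).2
      rw [← ENNReal.ofReal_add zero_le_one (by rw [← e3]; linarith), e3]
      exact ENNReal.ofReal_le_ofReal (by linarith)
    · rw [indicator_of_notMem (show ρ ∉ Ioo 0 r from fun h' => h h'.2), om_of_ge hr (not_lt.1 h),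
        inv_one, ENNReal.ofReal_zero, add_zero]
  refine (setLIntegral_mono' measurableSet_Ioo h1).trans ?_
  rw [lintegral_add_left measurable_const, lintegral_const, Measure.restrict_apply_univ,
    Real.volume_Ioo, sub_zero, ENNReal.ofReal_one, one_mul,
    ENNReal.ofReal_add (hr.le.trans hR) hr.le]
  refine add_le_add le_rfl ?_
  have h2 : ∫⁻ ρ in Ioo 0 R, ENNReal.ofReal ((Ioo 0 r).indicator
      (fun ρ => Real.sqrt r * ρ ^ (-(1 / 2) : ℝ) - 1) ρ) =
      ∫⁻ ρ in Ioo 0 r, ENNReal.ofReal (Real.sqrt r * ρ ^ (-(1 / 2) : ℝ) - 1) := by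
    rw [← lintegral_indicator measurableSet_Ioo, ← lintegral_indicator measurableSet_Ioo]
    refine lintegral_congr fun ρ => ?_
    by_cases h : ρ ∈ Ioo 0 r
    · rw [indicator_of_mem h, indicator_of_mem (show ρ ∈ Ioo 0 R from ⟨h.1, h.2.trans_le hR⟩),
        indicator_of_mem h]
    · rw [indicator_of_notMem h]
      by_cases h' : ρ ∈ Ioo 0 R
      · rw [indicator_of_mem h', indicator_of_notMem h, ENNReal.ofReal_zero]
      · rw [indicator_of_notMem h']
  rw [h2]
  have hi : IntegrableOn (fun ρ : ℝ => Real.sqrt r * ρ ^ (-(1 / 2) : ℝ) - 1) (Ioo 0 r) := by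
    have h3 := (intervalIntegral.intervalIntegrable_rpow' (a := 0) (b := r)
      (by norm_num : (-1 : ℝ) < -(1 / 2)))
    have h4 := (h3.const_mul (Real.sqrt r)).sub
      (intervalIntegrable_const (c := (1 : ℝ)) (μ := volume) (a := 0) (b := r))
    exact (intervalIntegrable_iff_integrableOn_Ioo_of_le hr.le).1 h4
  have hp : ∀ ρ ∈ Ioo 0 r, 0 ≤ Real.sqrt r * ρ ^ (-(1 / 2) : ℝ) - 1 := by
    intro ρ hρ
    have e5 : Real.sqrt ρ ≤ Real.sqrt r := Real.sqrt_le_sqrt hρ.2.le
    have e6 : 0 < Real.sqrt ρ := Real.sqrt_pos.2 hρ.1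
    rw [Real.rpow_neg hρ.1.le, ← Real.sqrt_eq_rpow, sub_nonneg, ← div_eq_mul_inv,
      one_le_div e6]
    exact e5
  rw [← ofReal_integral_eq_lintegral_ofReal hi (ae_restrict_of_forall_mem measurableSet_Ioo hp)]
  refine ENNReal.ofReal_le_ofReal (le_of_eq ?_)
  rw [← integral_Ioc_eq_integral_Ioo, ← intervalIntegral.integral_of_le hr.le,
    intervalIntegral.integral_sub ((intervalIntegral.intervalIntegrable_rpow'
      (by norm_num : (-1 : ℝ) < -(1 / 2))).const_mul _) intervalIntegrable_const,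
    intervalIntegral.integral_const_mul, integral_rpow (Or.inl (by norm_num)),
    intervalIntegral.integral_const]
  have e7 : (r : ℝ) ^ (-(1 / 2) + 1 : ℝ) = Real.sqrt r := by
    rw [Real.sqrt_eq_rpow]
    norm_num
  have e8 : (0 : ℝ) ^ (-(1 / 2) + 1 : ℝ) = 0 := Real.zero_rpow (by norm_num)
  rw [e7, e8]
  have e9 := Real.mul_self_sqrt hr.le
  simp only [sub_zero, smul_eq_mul, mul_one]
  field_simp
  nlinarith

theorem ftc_w {m : ℕ} (f g : ℝ → E m) {r R : ℝ} (hr : 0 < r) (hR : r ≤ R)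
    (hc : ContinuousOn f (Icc 0 R)) (hf : ∀ x ∈ Ioo 0 R, HasDerivAt f (g x) x)
    (hg : AEStronglyMeasurable g (volume.restrict (Ioo 0 R))) :
    nsq (f R - f 0) ≤ ENNReal.ofReal (R + r) *
      ∫⁻ t in Ioo 0 R, ENNReal.ofReal (om r t) * nsq (g t) := by
  have hR0 : 0 < R := hr.trans_le hR
  by_cases hI : ∫⁻ t in Ioo 0 R, ENNReal.ofReal (om r t) * nsq (g t) = ⊤
  · rw [hI, ENNReal.mul_top (by simpa using (by linarith : 0 < R + r))]
    exact le_top
  -- Cauchy–Schwarz
  have hcs : (∫⁻ t in Ioo 0 R, ENNReal.ofReal ‖g t‖) ^ 2 ≤ ENNReal.ofReal (R + r) *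
      ∫⁻ t in Ioo 0 R, ENNReal.ofReal (om r t) * nsq (g t) := by
    have h1 := ENNReal.lintegral_mul_le_Lp_mul_Lq (volume.restrict (Ioo 0 R))
      (p := 2) (q := 2) (by rw [Real.holderConjugate_iff]; norm_num)
      (f := fun t => ENNReal.ofReal (Real.sqrt ((om r t)⁻¹)))
      (g := fun t => ENNReal.ofReal (Real.sqrt (om r t) * ‖g t‖)) ?_ ?_
    · have e1 : ∫⁻ t in Ioo 0 R, ENNReal.ofReal ‖g t‖ = ∫⁻ t in Ioo 0 R,
          ((fun t => ENNReal.ofReal (Real.sqrt ((om r t)⁻¹))) *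
          fun t => ENNReal.ofReal (Real.sqrt (om r t) * ‖g t‖)) t := by
        refine setLIntegral_congr_fun measurableSet_Ioo fun t ht => ?_
        simp only [Pi.mul_apply]
        rw [← ENNReal.ofReal_mul (Real.sqrt_nonneg _), ← mul_assoc, ← Real.sqrt_mul
          (inv_nonneg.2 (om_mem r t).1), inv_mul_cancel₀ (om_pos hr ht.1).ne', Real.sqrt_one,
          one_mul]
      rw [e1]
      refine (pow_le_pow_left' h1 2).trans ?_
      rw [mul_pow]
      refine mul_le_mul' ?_ ?_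
      · refine le_trans (le_of_eq ?_) (om_inv hr hR)
        rw [← ENNReal.rpow_natCast, ← ENNReal.rpow_mul]
        norm_num
        refine setLIntegral_congr_fun measurableSet_Ioo fun t ht => ?_
        rw [← Real.sqrt_inv, ← ENNReal.ofReal_pow (Real.sqrt_nonneg _),
          Real.sq_sqrt (inv_nonneg.2 (om_mem r t).1)]
      · refine le_of_eq ?_
        rw [← ENNReal.rpow_natCast, ← ENNReal.rpow_mul]
        norm_num
        refine setLIntegral_congr_fun measurableSet_Ioo fun t ht => ?_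
        simp only [nsq]
        rw [← ofReal_norm_eq_enorm, ← ENNReal.ofReal_mul (Real.sqrt_nonneg _),
          ← ENNReal.ofReal_pow (by positivity), ← ENNReal.ofReal_mul (om_mem r t).1, mul_pow,
          Real.sq_sqrt (om_mem r t).1]
    · exact ((om_meas r).inv.sqrt.ennreal_ofReal).aemeasurable
    · exact ((om_meas r).sqrt.aemeasurable.mul hg.norm.aemeasurable).ennreal_ofReal
  have hfin : ∫⁻ t in Ioo 0 R, ENNReal.ofReal ‖g t‖ < ⊤ := by
    have h2 : (∫⁻ t in Ioo 0 R, ENNReal.ofReal ‖g t‖) ^ 2 < ⊤ :=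
      hcs.trans_lt (ENNReal.mul_lt_top ENNReal.ofReal_lt_top (lt_top_iff_ne_top.2 hI))
    by_contra h3
    rw [not_lt, top_le_iff] at h3
    rw [h3] at h2
    exact absurd h2 (by simp)
  have hint : Integrable g (volume.restrict (Ioo 0 R)) := by
    refine ⟨hg, ?_⟩
    rw [HasFiniteIntegral]
    refine lt_of_le_of_lt (lintegral_mono fun t => ?_) hfin
    rw [← ofReal_norm_eq_enorm]
  have hii : IntervalIntegrable g volume 0 R :=
    (intervalIntegrable_iff_integrableOn_Ioo_of_le hR0.le).2 hint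
  have hftc := intervalIntegral.integral_eq_sub_of_hasDerivAt_of_le hR0.le hc hf hii
  rw [intervalIntegral.integral_of_le hR0.le, integral_Ioc_eq_integral_Ioo] at hftc
  refine le_trans ?_ hcs
  unfold nsq
  rw [ENNReal.ofReal_pow (norm_nonneg _), ← hftc]
  refine pow_le_pow_left' ?_ 2
  refine (ENNReal.ofReal_le_ofReal (norm_integral_le_integral_norm _)).trans (le_of_eq ?_)
  rw [ofReal_integral_eq_lintegral_ofReal hint.norm
    (Filter.Eventually.of_forall fun x => norm_nonneg _)]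

end MK
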