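import Pool.Agent.H16.MK.KMea
import Pool.Agent.H16.MC.Kpd
import Pool.Agent.H16.MC.Wpw
import Pool.Agent.H16.MB.Pol

/-!
Three finite integrals of `qk X = ‖X‖²/wk X` (MP_c844e7, dimensions three and four), `n ≥ 1`.
`wk ≥ ρ² + W₀² ≥ ρ^(11/9) |W₀|^(7/9)`, so `wk^(-9/8) ≤ ρ^(-11/8) |W₀|^(-7/8)`.
-/

set_option autoImplicit false

open MeasureTheory Set MB

namespace MK

theorem wk_T (n : ℕ) (p : (ℝ × ℝ) × (Fin (n + 1) → ℝ)) :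
    wk (T n p) = p.1.1 ^ 2 + (p.1.2 ^ 2 + ∑ i : Fin n, p.2 i.castSucc ^ 2) := by
  unfold wk
  rw [Fin.sum_univ_succ, Fin.sum_univ_succ]
  rfl

theorem wk_pos_ae (n : ℕ) : ∀ᵐ p ∂(gaT n), 0 < wk (T n p) := by
  have h : ∀ᵐ p ∂(gaT n), p.1 ≠ 0 :=
    Measure.quasiMeasurePreserving_fst.ae Wpw_ne
  filter_upwards [h] with p hp
  rw [wk_T]
  have h1 : 0 ≤ ∑ i : Fin n, p.2 i.castSucc ^ 2 := Finset.sum_nonneg fun i _ => sq_nonneg _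
  by_contra h2
  rw [not_lt] at h2
  have h3 := sq_nonneg p.1.1
  have h4 := sq_nonneg p.1.2
  have h5 : p.1.1 ^ 2 = 0 := by linarith
  have h6 : p.1.2 ^ 2 = 0 := by linarith
  exact hp (Prod.ext (by simpa using h5) (by simpa using h6))

/-- the weight of `W` -/
noncomputable def KKp_w (n : ℕ) (W : Fin (n + 1) → ℝ) : ENNReal :=
  ENNReal.ofReal ((1 + ∑ j, W j ^ 2) ^ 3 * |W 0| ^ (-(7 / 8) : ℝ))

theorem KKp_wlt (n : ℕ) : ∫⁻ W, KKp_w n W ∂(gad (n + 1)) < ⊤ := by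
  have hint : Integrable (fun W : Fin (n + 1) → ℝ => ∏ j : Fin (n + 1),
      (|W j| ^ (if j = 0 then (-(7 / 8) : ℝ) else 0) * Real.exp (W j ^ 2 / 8)))
      (gad (n + 1)) := by
    refine Integrable.fintype_prod (f := fun (j : Fin (n + 1)) (x : ℝ) =>
      |x| ^ (if j = 0 then (-(7 / 8) : ℝ) else 0) * Real.exp (x ^ 2 / 8)) (fun j => ?_)
    apply Kpc_ga
    split_ifs <;> norm_num
  have hint2 := hint.const_mul (24 ^ 3 * Real.exp (1 / 8))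
  refine lt_of_le_of_lt (lintegral_mono fun W => ?_) hint2.lintegral_lt_top
  unfold KKp_w
  apply ENNReal.ofReal_le_ofReal
  rw [Finset.prod_mul_distrib]
  have h1 : ∏ j : Fin (n + 1), |W j| ^ (if j = 0 then (-(7 / 8) : ℝ) else 0) =
      |W 0| ^ (-(7 / 8) : ℝ) := by
    rw [Finset.prod_eq_single 0]
    · rw [if_pos rfl]
    · intro j _ hj
      rw [if_neg hj, Real.rpow_zero]
    · intro h
      exact absurd (Finset.mem_univ _) h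
  have h2 := Kpc_cub (t := ∑ j, W j ^ 2) (Finset.sum_nonneg fun j _ => sq_nonneg _)
  have h3 : Real.exp ((∑ j, W j ^ 2) / 8) = ∏ j, Real.exp (W j ^ 2 / 8) := by
    rw [Finset.sum_div, Real.exp_sum]
  rw [← h3, h1]
  have h4 : 0 ≤ |W 0| ^ (-(7 / 8) : ℝ) := by positivity
  calc (1 + ∑ j, W j ^ 2) ^ 3 * |W 0| ^ (-(7 / 8) : ℝ) ≤
        (24 ^ 3 * Real.exp (1 / 8) * Real.exp ((∑ j, W j ^ 2) / 8)) * |W 0| ^ (-(7 / 8) : ℝ) :=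
          mul_le_mul_of_nonneg_right h2 h4
    _ = _ := by ring

theorem KKp_wk {ρ w S : ℝ} (hρ : 0 < ρ) (hw : w ≠ 0) (hS : ρ ^ 2 + w ^ 2 ≤ S) :
    S ^ (-(9 / 8) : ℝ) ≤ ρ ^ (-(11 / 8) : ℝ) * |w| ^ (-(7 / 8) : ℝ) := by
  have hw0 : 0 < |w| := abs_pos.2 hw
  have hw2 : 0 < w ^ 2 := by positivity
  have hρ2 : 0 < ρ ^ 2 := by positivity
  have hS0 : 0 < S := by linarith
  have e : S ^ (-(9 / 8) : ℝ) = S ^ (-(11 / 16) : ℝ) * S ^ (-(7 / 16) : ℝ) := by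
    rw [← Real.rpow_add hS0]
    norm_num
  have h1 : S ^ (-(11 / 16) : ℝ) ≤ (ρ ^ 2) ^ (-(11 / 16) : ℝ) :=
    Real.rpow_le_rpow_of_nonpos hρ2 (by linarith) (by norm_num)
  have h2 : S ^ (-(7 / 16) : ℝ) ≤ (w ^ 2) ^ (-(7 / 16) : ℝ) :=
    Real.rpow_le_rpow_of_nonpos hw2 (by linarith) (by norm_num)
  have e1 : (ρ ^ 2) ^ (-(11 / 16) : ℝ) = ρ ^ (-(11 / 8) : ℝ) := by
    rw [← Real.rpow_natCast, ← Real.rpow_mul hρ.le]
    norm_num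
  have e2 : (w ^ 2) ^ (-(7 / 16) : ℝ) = |w| ^ (-(7 / 8) : ℝ) := by
    rw [← sq_abs, ← Real.rpow_natCast, ← Real.rpow_mul hw0.le]
    norm_num
  rw [e, ← e1, ← e2]
  exact mul_le_mul h1 h2 (by positivity) (by positivity)

theorem KKp_alg {A B N S x : ℝ} (hA : 1 ≤ A) (hB : 1 ≤ B) (hN : 0 ≤ N) (hNAB : N ≤ A * B)
    (hS : 0 < S) (hSAB : S ≤ A * B) (hx : S ^ (-(9 / 8) : ℝ) ≤ x) :
    N * (N / S) ≤ A ^ 3 * B ^ 3 * x ∧ (N / S) ^ ((9 : ℝ) / 8) ≤ A ^ 3 * B ^ 3 * x := by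
  have h1AB : 1 ≤ A * B := one_le_mul_of_one_le_of_one_le hA hB
  have hAB : A ^ 3 * B ^ 3 = (A * B) ^ 3 := by ring
  have hSp : 0 < S ^ (-(9 / 8) : ℝ) := Real.rpow_pos_of_pos hS _
  rw [hAB]
  constructor
  · have e : N * (N / S) = N ^ 2 * (S ^ ((1 : ℝ) / 8) * S ^ (-(9 / 8) : ℝ)) := by
      rw [← Real.rpow_add hS]
      have : (1 : ℝ) / 8 + -(9 / 8) = -1 := by norm_num
      rw [this, Real.rpow_neg_one]
      field_simp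
    have h2 : S ^ ((1 : ℝ) / 8) ≤ A * B := by
      calc S ^ ((1 : ℝ) / 8) ≤ (A * B) ^ ((1 : ℝ) / 8) :=
            Real.rpow_le_rpow hS.le hSAB (by norm_num)
        _ ≤ (A * B) ^ (1 : ℝ) := Real.rpow_le_rpow_of_exponent_le h1AB (by norm_num)
        _ = A * B := Real.rpow_one _
    have h3 : N ^ 2 ≤ (A * B) ^ 2 := pow_le_pow_left₀ hN hNAB 2
    rw [e]
    calc N ^ 2 * (S ^ ((1 : ℝ) / 8) * S ^ (-(9 / 8) : ℝ)) ≤ (A * B) ^ 2 * ((A * B) * x) := by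
          refine mul_le_mul h3 (mul_le_mul h2 hx hSp.le (by positivity)) (by positivity)
            (by positivity)
      _ = (A * B) ^ 3 * x := by ring
  · have h4 : (N / S) ^ ((9 : ℝ) / 8) = N ^ ((9 : ℝ) / 8) * S ^ (-(9 / 8) : ℝ) := by
      rw [Real.div_rpow hN hS.le, Real.rpow_neg hS.le]
      rfl
    rw [h4]
    have h5 : N ^ ((9 : ℝ) / 8) ≤ (A * B) ^ 3 := by
      calc N ^ ((9 : ℝ) / 8) ≤ (A * B) ^ ((9 : ℝ) / 8) :=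
            Real.rpow_le_rpow hN hNAB (by norm_num)
        _ ≤ (A * B) ^ (3 : ℝ) := Real.rpow_le_rpow_of_exponent_le h1AB (by norm_num)
        _ = (A * B) ^ 3 := by rw [← Real.rpow_natCast]; norm_num
    exact mul_le_mul h5 hx hSp.le (by positivity)

theorem KKp_pt {n : ℕ} (hn : 1 ≤ n) {ρ : ℝ} (hρ : 0 < ρ) (z : ℝ × ℝ)
    (hz : z.1 ^ 2 + z.2 ^ 2 = ρ ^ 2) (W : Fin (n + 1) → ℝ) (hW : W 0 ≠ 0) :
    ‖T n (z, W)‖ ^ 2 * qk (T n (z, W)) ≤ ((1 + ρ ^ 2) ^ 3 * ρ ^ (-(11 / 8) : ℝ)) *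
      ((1 + ∑ j, W j ^ 2) ^ 3 * |W 0| ^ (-(7 / 8) : ℝ)) ∧
    qk (T n (z, W)) ^ ((9 : ℝ) / 8) ≤ ((1 + ρ ^ 2) ^ 3 * ρ ^ (-(11 / 8) : ℝ)) *
      ((1 + ∑ j, W j ^ 2) ^ 3 * |W 0| ^ (-(7 / 8) : ℝ)) := by
  unfold qk
  rw [norm_T]
  have h5 : 0 ≤ ∑ j, W j ^ 2 := Finset.sum_nonneg fun i _ => sq_nonneg _
  have hk : 0 < n := hn
  have h1 := Finset.single_le_sum (f := fun i : Fin n => W i.castSucc ^ 2)
      (fun i _ => sq_nonneg _) (Finset.mem_univ (⟨0, hk⟩ : Fin n))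
  have h2 : (⟨0, hk⟩ : Fin n).castSucc = 0 := rfl
  simp only [h2] at h1
  have h3 := Kp2_wq_le n W
  have h4 : wk (T n (z, W)) = ρ ^ 2 + ∑ i : Fin n, W i.castSucc ^ 2 := by
    rw [wk_T, ← hz]
    ring
  have hN : z.1 ^ 2 + z.2 ^ 2 + ∑ j, W j ^ 2 = ρ ^ 2 + ∑ j, W j ^ 2 := by rw [hz]
  have hS : ρ ^ 2 + W 0 ^ 2 ≤ wk (T n (z, W)) := by
    rw [h4]
    linarith
  have hS0 : 0 < wk (T n (z, W)) := by
    have : 0 < ρ ^ 2 := by positivity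
    nlinarith [sq_nonneg (W 0)]
  have hx := KKp_wk hρ hW hS
  have hρ2 := sq_nonneg ρ
  have h := KKp_alg (A := 1 + ρ ^ 2) (B := 1 + ∑ j, W j ^ 2) (N := ρ ^ 2 + ∑ j, W j ^ 2)
    (S := wk (T n (z, W))) (by linarith) (by linarith) (by positivity)
    (by nlinarith [mul_nonneg hρ2 h5]) hS0
    (by rw [h4]; nlinarith [mul_nonneg hρ2 h5]) hx
  have hN' : (z, W).1.1 ^ 2 + (z, W).1.2 ^ 2 + ∑ j, (z, W).2 j ^ 2 = ρ ^ 2 + ∑ j, W j ^ 2 := hN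
  rw [hN']
  refine ⟨h.1.trans (le_of_eq (by ring)), h.2.trans (le_of_eq (by ring))⟩

theorem KKp_W0 (n : ℕ) : ∀ᵐ W ∂(gad (n + 1)), W 0 ≠ 0 := by
  filter_upwards [Kp2_ne n] with W hW
  exact hW 0

theorem KKp_int {s : ℝ} (hs : -1 < s) (C : ℝ) :
    ∫⁻ ρ in Ioi (0 : ℝ), ENNReal.ofReal (C * (ρ ^ s * Real.exp (-(3 / 8) * ρ ^ 2))) < ⊤ := by
  have h1 := (integrableOn_rpow_mul_exp_neg_mul_sq (b := 3 / 8) (by norm_num) hs).const_mul C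
  exact h1.lintegral_lt_top

theorem KKp_exp (ρ : ℝ) : Real.exp (-ρ ^ 2 / 2) * (1 + ρ ^ 2) ^ 3 ≤
    24 ^ 3 * Real.exp (1 / 8) * Real.exp (-(3 / 8) * ρ ^ 2) := by
  have h2 := Kpc_cub (sq_nonneg ρ)
  have e2 : Real.exp (-(3 / 8) * ρ ^ 2) = Real.exp (-ρ ^ 2 / 2) * Real.exp (ρ ^ 2 / 8) := by
    rw [← Real.exp_add]
    congr 1
    ring
  rw [e2]
  calc Real.exp (-ρ ^ 2 / 2) * (1 + ρ ^ 2) ^ 3 ≤ Real.exp (-ρ ^ 2 / 2) *
        (24 ^ 3 * Real.exp (1 / 8) * Real.exp (ρ ^ 2 / 8)) :=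
          mul_le_mul_of_nonneg_left h2 (Real.exp_pos _).le
    _ = _ := by ring

theorem KKp_ang : ang univ < ⊤ := by
  unfold ang
  rw [Measure.smul_apply, Measure.restrict_apply_univ, Real.volume_Ioo, smul_eq_mul]
  exact ENNReal.mul_lt_top ENNReal.ofReal_lt_top ENNReal.ofReal_lt_top

/-- the weight of the plane -/
noncomputable def KKp_z (z : ℝ × ℝ) : ENNReal :=
  ENNReal.ofReal ((1 + rz z ^ 2) ^ 3 * rz z ^ (-(11 / 8) : ℝ))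

theorem KKp_zm : Measurable KKp_z := by
  unfold KKp_z
  have h := rz_cont.measurable
  exact (((measurable_const.add (h.pow_const 2)).pow_const 3).mul (h.pow_const _)).ennreal_ofReal

theorem KKp_zlt : ∫⁻ z, KKp_z z ∂ga2 < ⊤ := by
  rw [pol_int _ KKp_zm]
  have hin : ∀ θ : ℝ, ∫⁻ ρ in Ioi (0 : ℝ), ENNReal.ofReal (ρ * Real.exp (-ρ ^ 2 / 2)) *
      KKp_z (pol ρ θ) ≤ ∫⁻ ρ in Ioi (0 : ℝ), ENNReal.ofReal ((24 ^ 3 * Real.exp (1 / 8)) *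
        (ρ ^ (-(3 / 8) : ℝ) * Real.exp (-(3 / 8) * ρ ^ 2))) := by
    intro θ
    refine setLIntegral_mono' measurableSet_Ioi fun ρ hρ => ?_
    have hρ' : 0 < ρ := hρ
    unfold KKp_z
    rw [rz_pol hρ'.le, ← ENNReal.ofReal_mul (by positivity)]
    apply ENNReal.ofReal_le_ofReal
    have e1 : ρ * ρ ^ (-(11 / 8) : ℝ) = ρ ^ (-(3 / 8) : ℝ) := by
      rw [mul_comm, ← Real.rpow_add_one hρ'.ne']
      norm_num
    have h1 : 0 ≤ ρ ^ (-(3 / 8) : ℝ) := by positivity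
    calc ρ * Real.exp (-ρ ^ 2 / 2) * ((1 + ρ ^ 2) ^ 3 * ρ ^ (-(11 / 8) : ℝ)) =
          (ρ * ρ ^ (-(11 / 8) : ℝ)) * (Real.exp (-ρ ^ 2 / 2) * (1 + ρ ^ 2) ^ 3) := by ring
      _ ≤ ρ ^ (-(3 / 8) : ℝ) * (24 ^ 3 * Real.exp (1 / 8) * Real.exp (-(3 / 8) * ρ ^ 2)) := by
          rw [e1]
          exact mul_le_mul_of_nonneg_left (KKp_exp ρ) h1
      _ = _ := by ring
  refine lt_of_le_of_lt (lintegral_mono hin) ?_
  rw [lintegral_const]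
  exact ENNReal.mul_lt_top (KKp_int (by norm_num) _) KKp_ang

theorem KKp_prod (n : ℕ) : ∫⁻ p, KKp_z p.1 * KKp_w n p.2 ∂(gaT n) < ⊤ := by
  have hm2 : Measurable (KKp_w n) := by
    unfold KKp_w
    fun_prop
  have h := lintegral_prod_mul (μ := ga2) (ν := gad (n + 1)) KKp_zm.aemeasurable hm2.aemeasurable
  exact lt_of_eq_of_lt h (ENNReal.mul_lt_top KKp_zlt (KKp_wlt n))

theorem KKp_ae (n : ℕ) : ∀ᵐ p ∂(gaT n), 0 < rz p.1 ∧ p.2 0 ≠ 0 := by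
  have h1 : ∀ᵐ p ∂(gaT n), p.1 ≠ 0 := Measure.quasiMeasurePreserving_fst.ae Wpw_ne
  have h2 : ∀ᵐ p ∂(gaT n), p.2 0 ≠ 0 := Measure.quasiMeasurePreserving_snd.ae (KKp_W0 n)
  filter_upwards [h1, h2] with p hp1 hp2
  refine ⟨?_, hp2⟩
  unfold rz
  apply Real.sqrt_pos.2
  rcases (sq_nonneg p.1.1).eq_or_lt with h | h
  · rcases (sq_nonneg p.1.2).eq_or_lt with h' | h'
    · exact absurd (Prod.ext (by simpa using h.symm) (by simpa using h'.symm)) hp1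
    · linarith
  · have := sq_nonneg p.1.2
    linarith

theorem KKp_rz (z : ℝ × ℝ) : z.1 ^ 2 + z.2 ^ 2 = rz z ^ 2 := by
  unfold rz
  rw [Real.sq_sqrt (by positivity)]

theorem kpk1 {n : ℕ} (hn : 1 ≤ n) :
    ∫⁻ p, ENNReal.ofReal (‖T n p‖ ^ 2 * qk (T n p)) ∂(gaT n) < ⊤ := by
  refine lt_of_le_of_lt (lintegral_mono_ae ?_) (KKp_prod n)
  filter_upwards [KKp_ae n] with p hp
  unfold KKp_w KKp_z
  have h0 : 0 < rz p.1 := hp.1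
  rw [← ENNReal.ofReal_mul (by positivity)]
  exact ENNReal.ofReal_le_ofReal (KKp_pt hn hp.1 p.1 (KKp_rz _) p.2 hp.2).1

theorem kpk2 {n : ℕ} (hn : 1 ≤ n) :
    ∫⁻ p, ENNReal.ofReal (qk (T n p) ^ ((9 : ℝ) / 8)) ∂(gaT n) < ⊤ := by
  refine lt_of_le_of_lt (lintegral_mono_ae ?_) (KKp_prod n)
  filter_upwards [KKp_ae n] with p hp
  unfold KKp_w KKp_z
  have h0 : 0 < rz p.1 := hp.1
  rw [← ENNReal.ofReal_mul (by positivity)]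
  exact ENNReal.ofReal_le_ofReal (KKp_pt hn hp.1 p.1 (KKp_rz _) p.2 hp.2).2

theorem kk_le {r ρ : ℝ} (hr : 0 < r) (hρ : 0 < ρ) :
    kk r ρ ≤ 2 + (Real.sqrt r)⁻¹ * ρ ^ (-(1 / 2) : ℝ) := by
  have h1 : 0 ≤ ρ ^ (-(1 / 2) : ℝ) := by positivity
  have h2 : 0 ≤ (Real.sqrt r)⁻¹ := by positivity
  have h3 := mul_nonneg h2 h1
  unfold kk
  split_ifs with h
  · have h4 : 3 / (4 * ρ) ≤ 3 / 2 := by
      rw [div_le_div_iff₀ (by positivity) (by norm_num)]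
      linarith
    linarith
  · rw [not_le] at h
    have h4 : om r ρ ≤ Real.sqrt (ρ / r) := min_le_right _ _
    have h5 : Real.exp ((ρ ^ 2 - 1 / 4) / 2) ≤ 1 := by
      rw [Real.exp_le_one_iff]
      nlinarith
    have h6 : om r ρ * Real.exp ((ρ ^ 2 - 1 / 4) / 2) / ρ ≤ Real.sqrt (ρ / r) / ρ := by
      rw [div_le_div_iff_of_pos_right hρ]
      calc om r ρ * Real.exp ((ρ ^ 2 - 1 / 4) / 2) ≤ Real.sqrt (ρ / r) * 1 :=
            mul_le_mul h4 h5 (Real.exp_pos _).le (Real.sqrt_nonneg _)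
        _ = _ := mul_one _
    have h7 : Real.sqrt (ρ / r) / ρ = (Real.sqrt r)⁻¹ * ρ ^ (-(1 / 2) : ℝ) := by
      rw [Real.sqrt_div hρ.le, Real.rpow_neg hρ.le, ← Real.sqrt_eq_rpow]
      have h8 : 0 < Real.sqrt ρ := Real.sqrt_pos.2 hρ
      have h9 : 0 < Real.sqrt r := Real.sqrt_pos.2 hr
      have h10 := Real.mul_self_sqrt hρ.le
      field_simp
      nlinarith
    linarith

theorem KKp_K {r : ℝ} (hr : 0 < r) : ∫⁻ ρ in Ioi (0 : ℝ),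
    ENNReal.ofReal (ρ * Real.exp (-ρ ^ 2 / 2) * kk r ρ) *
      ENNReal.ofReal ((1 + ρ ^ 2) ^ 3 * ρ ^ (-(11 / 8) : ℝ)) < ⊤ := by
  have hA := KKp_int (s := -(3 / 8)) (by norm_num) (2 * (24 ^ 3 * Real.exp (1 / 8)))
  have hB := KKp_int (s := -(7 / 8)) (by norm_num) ((Real.sqrt r)⁻¹ * (24 ^ 3 * Real.exp (1 / 8)))
  have hm : Measurable fun ρ : ℝ => ENNReal.ofReal (2 * (24 ^ 3 * Real.exp (1 / 8)) *
      (ρ ^ (-(3 / 8) : ℝ) * Real.exp (-(3 / 8) * ρ ^ 2))) := by fun_prop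
  have hAB := ENNReal.add_lt_top.2 ⟨hA, hB⟩
  rw [← lintegral_add_left hm] at hAB
  refine lt_of_le_of_lt (setLIntegral_mono' measurableSet_Ioi fun ρ hρ => ?_) hAB
  have hρ' : 0 < ρ := hρ
  have hk := kk_nonneg (r := r) hρ'.le
  have h0 : 0 ≤ (Real.sqrt r)⁻¹ := by positivity
  rw [← ENNReal.ofReal_mul (by positivity), ← ENNReal.ofReal_add (by positivity) (by positivity)]
  apply ENNReal.ofReal_le_ofReal
  have e1 : ρ * ρ ^ (-(11 / 8) : ℝ) = ρ ^ (-(3 / 8) : ℝ) := by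
    rw [mul_comm, ← Real.rpow_add_one hρ'.ne']
    norm_num
  have e2 : ρ ^ (-(3 / 8) : ℝ) * ρ ^ (-(1 / 2) : ℝ) = ρ ^ (-(7 / 8) : ℝ) := by
    rw [← Real.rpow_add hρ']
    norm_num
  have h1 : 0 ≤ ρ ^ (-(3 / 8) : ℝ) := by positivity
  have h2 : 0 ≤ ρ ^ (-(1 / 2) : ℝ) := by positivity
  calc ρ * Real.exp (-ρ ^ 2 / 2) * kk r ρ * ((1 + ρ ^ 2) ^ 3 * ρ ^ (-(11 / 8) : ℝ)) =
        (ρ * ρ ^ (-(11 / 8) : ℝ)) * kk r ρ * (Real.exp (-ρ ^ 2 / 2) * (1 + ρ ^ 2) ^ 3) := by ring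
    _ ≤ ρ ^ (-(3 / 8) : ℝ) * (2 + (Real.sqrt r)⁻¹ * ρ ^ (-(1 / 2) : ℝ)) *
        (24 ^ 3 * Real.exp (1 / 8) * Real.exp (-(3 / 8) * ρ ^ 2)) := by
        rw [e1]
        refine mul_le_mul (mul_le_mul_of_nonneg_left (kk_le hr hρ') h1) (KKp_exp ρ)
          (by positivity) (by positivity)
    _ = _ := by
        rw [← e2]
        ring

theorem kpk3 {n : ℕ} (hn : 1 ≤ n) {r : ℝ} (hr : 0 < r) (hr1 : r ≤ 1 / 2) :
    ∫⁻ W, ∫⁻ θ, dbk r (fun ρ => ENNReal.ofReal (qk (T n (pol ρ θ, W)) ^ ((9 : ℝ) / 8))) ∂ang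
      ∂(gad (n + 1)) < ⊤ := by
  have hK := KKp_K hr
  set K := ∫⁻ ρ in Ioi (0 : ℝ),
    ENNReal.ofReal (ρ * Real.exp (-ρ ^ 2 / 2) * kk r ρ) *
      ENNReal.ofReal ((1 + ρ ^ 2) ^ 3 * ρ ^ (-(11 / 8) : ℝ)) with hKdef
  have h1 : ∫⁻ W, ∫⁻ θ, dbk r (fun ρ =>
      ENNReal.ofReal (qk (T n (pol ρ θ, W)) ^ ((9 : ℝ) / 8))) ∂ang
      ∂(gad (n + 1)) ≤ ∫⁻ W, (K * ang univ) * KKp_w n W ∂(gad (n + 1)) := by
    refine lintegral_mono_ae ?_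
    filter_upwards [KKp_W0 n] with W hW
    calc ∫⁻ θ, dbk r (fun ρ => ENNReal.ofReal (qk (T n (pol ρ θ, W)) ^ ((9 : ℝ) / 8))) ∂ang
        ≤ ∫⁻ _θ, K * KKp_w n W ∂ang := by
          refine lintegral_mono fun θ => ?_
          have hpm : Measurable fun ρ : ℝ => T n (pol ρ θ, W) := by
            refine (cont_T n).measurable.comp (Measurable.prodMk ?_ measurable_const)
            unfold pol
            fun_prop
          have hqm : Measurable fun ρ : ℝ =>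
              ENNReal.ofReal (qk (T n (pol ρ θ, W)) ^ ((9 : ℝ) / 8)) :=
            ((qk_meas.comp hpm).pow_const _).ennreal_ofReal
          have hw : KKp_w n W ≠ ⊤ := ENNReal.ofReal_ne_top
          rw [dbk_eq hr hr1 _ hqm, hKdef, ← lintegral_mul_const' _ _ hw]
          refine setLIntegral_mono' measurableSet_Ioi fun ρ hρ => ?_
          have hρ' : 0 < ρ := hρ
          have hfin : ENNReal.ofReal (qk (T n (pol ρ θ, W)) ^ ((9 : ℝ) / 8)) ≤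
              ENNReal.ofReal ((1 + ρ ^ 2) ^ 3 * ρ ^ (-(11 / 8) : ℝ)) * KKp_w n W := by
            unfold KKp_w
            rw [← ENNReal.ofReal_mul (by positivity)]
            exact ENNReal.ofReal_le_ofReal (KKp_pt hn hρ' (pol ρ θ) (Kp2_pol ρ θ) W hW).2
          calc _ ≤ ENNReal.ofReal (ρ * Real.exp (-ρ ^ 2 / 2) * kk r ρ) *
                (ENNReal.ofReal ((1 + ρ ^ 2) ^ 3 * ρ ^ (-(11 / 8) : ℝ)) * KKp_w n W) := by gcongr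
            _ = _ := (mul_assoc _ _ _).symm
      _ = K * ang univ * KKp_w n W := by
          rw [lintegral_const]
          ring
  refine lt_of_le_of_lt h1 ?_
  rw [lintegral_const_mul' _ _ (ENNReal.mul_lt_top hK KKp_ang).ne]
  exact ENNReal.mul_lt_top (ENNReal.mul_lt_top hK KKp_ang) (KKp_wlt n)

end MK
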