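import Pool.Agent.H16.MK.KCr
import Pool.Agent.H16.MC.Cr3

/-! The limit `τ → 0` (MP_c844e7, dimensions three and four). -/

set_option autoImplicit false

open MeasureTheory Set MB

namespace MK

/-- The gain. -/
noncomputable def tK (n : ℕ) (r : ℝ) (p : (ℝ × ℝ) × (Fin (n + 1) → ℝ)) : ℝ :=
  gk r (rz p.1) * ‖T n p‖ ^ 2 - eK n r p

theorem KLim_e (n : ℕ) {r : ℝ} (hr : 0 < r) (hr1 : r ≤ 1 / 2) : Integrable (eK n r) (gaT n) :=
  Cr3_int (eK_meas r) (eK_nonneg hr hr1) (lt_of_le_of_lt (lintegral_mono fun p =>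
    ENNReal.ofReal_le_ofReal (by linarith [mK_nonneg (n := n) hr hr1 p])) (emk_fin n hr hr1))

theorem mK_int (n : ℕ) {r : ℝ} (hr : 0 < r) (hr1 : r ≤ 1 / 2) : Integrable (mK n r) (gaT n) :=
  Cr3_int (mK_meas r) (mK_nonneg hr hr1) (lt_of_le_of_lt (lintegral_mono fun p =>
    ENNReal.ofReal_le_ofReal (by linarith [eK_nonneg (n := n) hr hr1 p])) (emk_fin n hr hr1))

theorem mKq_int {n : ℕ} (hn : 1 ≤ n) {r : ℝ} (hr : 0 < r) (hr1 : r ≤ 1 / 2) {w : ℝ}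
    (hw : 0 < w) :
    Integrable (fun p => (mK n r p / w ^ 2) ^ (((n : ℝ) + 2) / n)) (gaT n) :=
  Cr3_int (((mK_meas r).div_const _).pow_const _)
    (fun p => Real.rpow_nonneg (div_nonneg (mK_nonneg hr hr1 p) (by positivity)) _)
    (mqk_fin hn hr hr1 hw)

theorem KLim_g (n : ℕ) {r : ℝ} (hr : 0 < r) (hr1 : r ≤ 1 / 2) :
    Integrable (fun p => gk r (rz p.1) * ‖T n p‖ ^ 2) (gaT n) := by
  refine Cr3_int ((KMea_gk r).mul (((cont_T n).norm.measurable).pow_const 2))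
    (fun p => mul_nonneg (gk_mem hr hr1 (Mea_rz _)).1 (sq_nonneg _)) ?_
  refine lt_of_le_of_lt (lintegral_mono fun p => ?_) (lt_of_eq_of_lt (mom_norm n) ?_)
  · unfold nsq
    apply ENNReal.ofReal_le_ofReal
    exact mul_le_of_le_one_left (sq_nonneg _) (gk_mem hr hr1 (Mea_rz _)).2
  · have : ((n : ENNReal) + 3) = ((n + 3 : ℕ) : ENNReal) := by push_cast; rfl
    rw [this]
    exact ENNReal.natCast_lt_top _

theorem tK_int (n : ℕ) {r : ℝ} (hr : 0 < r) (hr1 : r ≤ 1 / 2) : Integrable (tK n r) (gaT n) :=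
  (KLim_g n hr hr1).sub (KLim_e n hr hr1)

theorem crl {n : ℕ} (hn : 1 ≤ n) {r w : ℝ} (hr : 0 < r) (hr1 : r ≤ 1 / 2) (hw : 0 < w) {c : ℝ}
    (hc : 0 ≤ c) (h : ∀ R : ℝ, 0 < R → ∃ G : E (n + 2) → E (n + 2), Dat c R G) :
    ∫ p, tK n r p ∂(gaT n) -
      n / (n + 2) * ∫ p, (mK n r p / w ^ 2) ^ (((n : ℝ) + 2) / n) ∂(gaT n) ≤
      2 / (n + 2) * w ^ (n + 2) * c := by
  obtain ⟨C, hC, hcr⟩ := crk hn hr hr1 hw
  have hI0 := KLim_g n hr hr1
  have hI1 := KLim_e n hr hr1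
  have hI3 := mKq_int hn hr hr1 hw
  have hg0 : ∀ p : (ℝ × ℝ) × (Fin (n + 1) → ℝ), 0 ≤ gk r (rz p.1) * ‖T n p‖ ^ 2 :=
    fun p => mul_nonneg (gk_mem hr hr1 (Mea_rz _)).1 (sq_nonneg _)
  have hq0 : ∀ p : (ℝ × ℝ) × (Fin (n + 1) → ℝ), 0 ≤ (mK n r p / w ^ 2) ^ (((n : ℝ) + 2) / n) :=
    fun p => Real.rpow_nonneg (div_nonneg (mK_nonneg hr hr1 p) (by positivity)) _
  have ht : ∫ p, tK n r p ∂(gaT n) =
      ∫ p, gk r (rz p.1) * ‖T n p‖ ^ 2 ∂(gaT n) - ∫ p, eK n r p ∂(gaT n) :=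
    integral_sub hI0 hI1
  rw [ht]
  set g : ℝ := ∫ p, gk r (rz p.1) * ‖T n p‖ ^ 2 ∂(gaT n) with hg
  set a : ℝ := ∫ p, eK n r p ∂(gaT n) with ha
  set q : ℝ := ∫ p, (mK n r p / w ^ 2) ^ (((n : ℝ) + 2) / n) ∂(gaT n) with hq
  have g0 : 0 ≤ g := integral_nonneg hg0
  have a0 : 0 ≤ a := integral_nonneg (eK_nonneg hr hr1)
  have q0 : 0 ≤ q := integral_nonneg hq0
  have e1 : ∫⁻ p, ENNReal.ofReal (eK n r p) ∂(gaT n) = ENNReal.ofReal a :=
    (ofReal_integral_eq_lintegral_ofReal hI1 (Filter.Eventually.of_forall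
      (eK_nonneg hr hr1))).symm
  have e2 : ∫⁻ p, ENNReal.ofReal (gk r (rz p.1)) * nsq (T n p) ∂(gaT n) = ENNReal.ofReal g := by
    rw [hg, ofReal_integral_eq_lintegral_ofReal hI0 (Filter.Eventually.of_forall hg0)]
    refine lintegral_congr fun p => ?_
    unfold nsq
    rw [← ENNReal.ofReal_mul (gk_mem hr hr1 (Mea_rz _)).1]
  have e3 : ∫⁻ p, ENNReal.ofReal ((mK n r p / w ^ 2) ^ (((n : ℝ) + 2) / n)) ∂(gaT n) =
      ENNReal.ofReal q :=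
    (ofReal_integral_eq_lintegral_ofReal hI3 (Filter.Eventually.of_forall hq0)).symm
  have hn0 : (0 : ℝ) ≤ n := Nat.cast_nonneg n
  set X : ℝ := a + (2 / (n + 2) * w ^ (n + 2) * c + n / (n + 2) * q) with hX
  have X0 : 0 ≤ X := by positivity
  have key : ∀ τ : ℝ, 0 < τ → τ ≤ 1 / 2 → g ≤ (1 + τ ^ 2) * X + C * τ ^ 2 := by
    intro τ hτ hτ2
    obtain ⟨G, hG⟩ := h (2 / τ ^ 16) (by positivity)
    have h1 := hcr τ hτ hτ2 c hc G hG
    rw [e1, e2, e3, ← ENNReal.ofReal_mul (by positivity), ← ENNReal.ofReal_add (by positivity)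
      (by positivity), ← ENNReal.ofReal_add a0 (by positivity), ← hX,
      ← ENNReal.ofReal_mul (by positivity), ← ENNReal.ofReal_add (by positivity) (by positivity),
      ENNReal.ofReal_le_ofReal_iff (by positivity)] at h1
    exact h1
  have hlim : Filter.Tendsto (fun τ : ℝ => (1 + τ ^ 2) * X + C * τ ^ 2) (nhdsWithin 0 (Ioi 0))
      (nhds X) := by
    have hc : Continuous (fun τ : ℝ => (1 + τ ^ 2) * X + C * τ ^ 2) := by fun_prop
    exact (hc.tendsto' 0 X (by simp)).mono_left nhdsWithin_le_nhds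
  have hle : g ≤ X := by
    refine ge_of_tendsto hlim ?_
    filter_upwards [Ioc_mem_nhdsGT (by norm_num : (0 : ℝ) < 1 / 2)] with τ hτ
    exact key τ hτ.1 hτ.2
  rw [hX] at hle
  linarith

end MK
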