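import Pool.Agent.H16.MK.KKg
import Pool.Agent.H16.MK.KEs
import Pool.Agent.H16.MC.Mea

/-! Measurability and signs (MP_c844e7, dimensions three and four). -/

set_option autoImplicit false

open MeasureTheory Set MB

namespace MK

variable {n : ℕ} {c R : ℝ} {G : E (n + 2) → E (n + 2)} {S : E (n + 2) → E (n + 3)}

theorem qk_meas : Measurable (qk (n := n)) := by
  unfold qk wk
  refine Measurable.div ?_ ?_
  · exact (by fun_prop : Continuous fun X : E (n + 3) => ‖X‖ ^ 2).measurable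
  · exact (by fun_prop : Continuous fun X : E (n + 3) =>
      ∑ i : Fin (n + 2), X i.castSucc ^ 2).measurable

theorem qk_nonneg (X : E (n + 3)) : 0 ≤ qk X := div_nonneg (sq_nonneg _) (wk_bd X).1

theorem eK_nonneg {r : ℝ} (hr : 0 < r) (hr1 : r ≤ 1 / 2) (p : (ℝ × ℝ) × (Fin (n + 1) → ℝ)) :
    0 ≤ eK n r p := by
  obtain ⟨h1, h2⟩ := kp_mem (T n p)
  obtain ⟨h3, -⟩ := gk_mem hr hr1 (Mea_rz p.1)
  have h4 := kk_nonneg (r := r) (Mea_rz p.1)
  exact add_nonneg (mul_nonneg h3 h1) (mul_nonneg h4 (sub_nonneg.2 h2))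

theorem mK_nonneg {r : ℝ} (hr : 0 < r) (hr1 : r ≤ 1 / 2) (p : (ℝ × ℝ) × (Fin (n + 1) → ℝ)) :
    0 ≤ mK n r p := by
  obtain ⟨h1, h2⟩ := kp_mem (T n p)
  obtain ⟨h3, -⟩ := gk_mem hr hr1 (Mea_rz p.1)
  have h4 := kk_nonneg (r := r) (Mea_rz p.1)
  have h5 : (0 : ℝ) ≤ n := Nat.cast_nonneg n
  exact add_nonneg (mul_nonneg h3 (by linarith)) (mul_nonneg h4 h1)

theorem KMea_gk (r : ℝ) :
    Measurable fun p : (ℝ × ℝ) × (Fin (n + 1) → ℝ) => gk r (rz p.1) :=
  (gk_meas r).comp (rz_cont.measurable.comp measurable_fst)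

theorem KMea_kk (r : ℝ) :
    Measurable fun p : (ℝ × ℝ) × (Fin (n + 1) → ℝ) => kk r (rz p.1) :=
  (kk_meas r).comp (rz_cont.measurable.comp measurable_fst)

theorem eK_meas (r : ℝ) : Measurable (eK n r) := by
  unfold eK
  exact ((KMea_gk r).mul Mea_kp).add ((KMea_kk r).mul (measurable_const.sub Mea_kp))

theorem mK_meas (r : ℝ) : Measurable (mK n r) := by
  unfold mK
  exact ((KMea_gk r).mul (measurable_const.sub Mea_kp)).add ((KMea_kk r).mul Mea_kp)

theorem eK_add (r : ℝ) (p : (ℝ × ℝ) × (Fin (n + 1) → ℝ)) :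
    eK n r p + mK n r p = gk r (rz p.1) * (n + 1) + kk r (rz p.1) := by
  unfold eK mK
  ring

end MK
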