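import Pool.Agent.H16.MK.KA1

/-! Dimension three: the bound (MP_c844e7). -/

set_option autoImplicit false

open MeasureTheory Set MB

namespace MK

theorem u_bd : 88237 / 100000 ≤ Real.exp (-(1 / 8)) ∧ Real.exp (-(1 / 8)) ≤ 88325 / 100000 := by
  have h := Real.exp_bound (x := -(1 / 8)) (by norm_num) (n := 3) (by norm_num)
  obtain ⟨h1, h2⟩ := abs_le.1 h
  norm_num [Finset.sum_range_succ, Nat.factorial] at h1 h2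
  constructor <;> linarith

theorem g1_eq {ρ : ℝ} (h : 1 / 2 < ρ) :
    gk (1 / 2) ρ = 2 * (2 * ρ - 1) * (ρ + 2) / (4 * ρ * (2 * ρ + 1)) ∧
    kk (1 / 2) ρ - gk (1 / 2) ρ = (2 * ρ + 7) / (4 * ρ * (2 * ρ + 1)) ∧
    gk (1 / 2) ρ + kk (1 / 2) ρ = (8 * ρ ^ 2 + 14 * ρ - 1) / (4 * ρ * (2 * ρ + 1)) := by
  have h0 : 0 < ρ := by linarith
  rw [gk_of_ge h.le, kk_of_ge h.le]
  refine ⟨?_, ?_, ?_⟩
  · field_simp
    ring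
  · field_simp
    ring
  · field_simp
    ring

theorem KC1 {w : ℝ} (hw : 0 < w) (hw6 : w ^ 6 = 4) {ρ : ℝ} (hρ : 1 / 2 < ρ) :
    (191 / 200 - 2 * (1 / 2)) + 9 / 20 * ρ + 1 / 2 * ρ ^ 2 +
      (-4 / 125 - 9 / 20) / ρ + -4 / 125 / ρ ^ 3 ≤ ps 1 (1 / 2) w ρ := by
  have h0 : 0 < ρ := by linarith
  have ha : 0 < ρ ^ 2 := pow_pos h0 2
  have hps := KPsi (n := 1) (r := 1 / 2) (w := w) (by norm_num) le_rfl h0 hw 0 0 0 (1 / 3)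
    (fun x _ => by
      have e : (((1 : ℕ) : ℝ) + 2) / ((1 : ℕ) : ℝ) = ((3 : ℕ) : ℝ) := by norm_num
      rw [e, Real.rpow_natCast]
      norm_num)
  have hy1 : ρ ^ 2 / (ρ ^ 2 + 2) ≤ m1 1 (ρ ^ 2) := by
    have hy := m1_lo 1 ha
    have e : ρ ^ 2 + ((1 : ℕ) : ℝ) + 1 = ρ ^ 2 + 2 := by push_cast; ring
    rw [e] at hy
    exact hy
  have hy2 : m1 1 (ρ ^ 2) ≤ ((ρ ^ 2) ^ 2 + 6 * ρ ^ 2 + 4) / ((ρ ^ 2 + 2) * (ρ ^ 2 + 6)) := by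
    refine (m1_up le_rfl ha).trans (le_of_eq ?_)
    obtain ⟨a, haa⟩ : ∃ a, a = ρ ^ 2 := ⟨_, rfl⟩
    rw [← haa] at ha ⊢
    push_cast
    have e1 : (a + 1 + 1) * ((a + 1 - 1) * (a + 1 + 1) + 4 * a) = a * ((a + 2) * (a + 6)) := by ring
    rw [e1, ← mul_div_assoc, mul_div_mul_left _ _ ha.ne']
    congr 1
    ring
  obtain ⟨y, hy⟩ : ∃ y, y = m1 1 (ρ ^ 2) := ⟨_, rfl⟩
  rw [← hy] at hy1 hy2
  obtain ⟨hg, he, hh⟩ := g1_eq hρ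
  have hF : F1 (gk (1 / 2) ρ) (kk (1 / 2) ρ - gk (1 / 2) ρ) (gk (1 / 2) ρ + kk (1 / 2) ρ) (ρ ^ 2) y ≤
      ps 1 (1 / 2) w ρ := by
    refine le_trans (le_of_eq ?_) hps
    unfold F1 m3 m2
    rw [← hy, hw6]
    push_cast
    ring
  refine le_trans ?_ hF
  obtain ⟨s, hs⟩ : ∃ s, s = ρ - 1 / 2 := ⟨_, rfl⟩
  have hs0 : 0 ≤ s := by linarith
  have hρs : ρ = s + 1 / 2 := by linarith
  have l1 := KC1_lo hs0
  have l2 := KC1_up hs0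
  rw [← hρs, ← hg, ← he, ← hh] at l1 l2
  rw [F1_lin] at l1 l2 ⊢
  rcases le_total 0 (F1 (gk (1 / 2) ρ) (kk (1 / 2) ρ - gk (1 / 2) ρ) (gk (1 / 2) ρ + kk (1 / 2) ρ)
    (ρ ^ 2) 1 - F1 (gk (1 / 2) ρ) (kk (1 / 2) ρ - gk (1 / 2) ρ) (gk (1 / 2) ρ + kk (1 / 2) ρ)
    (ρ ^ 2) 0) with h | h
  · have := mul_le_mul_of_nonneg_left hy1 h
    linarith
  · have := mul_le_mul_of_nonpos_left hy2 h
    linarith

/-- Dimension three. -/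
theorem KN1 {c : ℝ} (hc : 0 ≤ c)
    (h : ∀ R : ℝ, 0 < R → ∃ G : E (1 + 2) → E (1 + 2), Dat c R G) : 5 / 8 ≤ c := by
  obtain ⟨w, hw⟩ : ∃ w : ℝ, w = 2 ^ ((1 : ℝ) / 3) := ⟨_, rfl⟩
  have hw0 : 0 < w := by rw [hw]; positivity
  have hw3 : w ^ 3 = 2 := by
    rw [hw, ← Real.rpow_natCast, ← Real.rpow_mul (by norm_num)]
    norm_num
  have hw6 : w ^ 6 = 4 := by
    have e : w ^ 6 = (w ^ 3) ^ 2 := by ring
    rw [e, hw3]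
    norm_num
  obtain ⟨hJ, hJ2⟩ := KTot (n := 1) le_rfl (r := 1 / 2) (by norm_num) le_rfl hw0 hc h
  have h1 := KA1 hw0 hw6 hJ
  have h2 := KPhi (ψ := ps 1 (1 / 2) w) hJ (fun ρ => rfl) (191 / 200) (9 / 20) (1 / 2) (-4 / 125)
    (fun ρ hρ => KC1 hw0 hw6 hρ)
  have h3 := KTwo hJ h1 h2
  have h4 := h3.trans hJ2
  have e1 : (1 : ℕ) + 2 = 3 := rfl
  rw [e1, hw3] at h4
  obtain ⟨u, hu⟩ : ∃ u, u = Real.exp (-(1 / 8)) := ⟨_, rfl⟩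
  have hu3 : Real.exp (-(3 / 8)) = u ^ 3 := by
    rw [hu, ← Real.exp_nat_mul]
    congr 1
    norm_num
  obtain ⟨u1, u2⟩ := u_bd
  rw [← hu] at u1 u2
  rw [hu3, ← hu] at h4
  push_cast at h4
  have h5 : u ^ 3 ≤ 78014 / 100000 * u := by
    have : u ^ 2 ≤ 78014 / 100000 := by nlinarith
    nlinarith
  nlinarith

end MK
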