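import Pool.Agent.H16.MK.KC2
import Pool.Agent.H16.MK.KC3

/-! Dimensions four and five: the bound (MP_c844e7). -/

set_option autoImplicit false

open MeasureTheory Set MB

namespace MK

theorem kk_ge1 {r ρ : ℝ} (hr : 0 < r) (hρr : r ≤ ρ) (h : ρ < 1 / 2) :
    (7 / 8 + ρ ^ 2 / 2) / ρ ≤ kk r ρ := by
  have h0 : 0 < ρ := hr.trans_le hρr
  rw [kk_of_lt h, om_of_ge hr hρr, one_mul]
  refine div_le_div_of_nonneg_right ?_ h0.le
  have h1 := Real.add_one_le_exp ((ρ ^ 2 - 1 / 4) / 2)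
  linarith

theorem kk_ge2 {r ρ : ℝ} (hr : 0 < r) (h0 : 0 < ρ) (hρr : ρ ≤ r) (h : ρ < 1 / 2) :
    7 / 8 / r ≤ kk r ρ := by
  rw [kk_of_lt h]
  have h1 := Real.add_one_le_exp ((ρ ^ 2 - 1 / 4) / 2)
  have h2 : 7 / 8 ≤ Real.exp ((ρ ^ 2 - 1 / 4) / 2) := by
    have := sq_nonneg ρ
    linarith
  have h3 : ρ / r ≤ 1 := (div_le_one hr).2 hρr
  have h4 : 0 ≤ ρ / r := by positivity
  have h5 : ρ / r ≤ om r ρ := by
    unfold om
    refine le_min h3 (Real.le_sqrt_of_sq_le ?_)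
    nlinarith
  rw [div_le_div_iff₀ hr h0]
  have h6 : ρ ≤ om r ρ * r := by
    rwa [div_le_iff₀ hr] at h5
  have h7 : 0 ≤ om r ρ * r := h0.le.trans h6
  nlinarith

theorem g2_eq {ρ : ℝ} (h : 1 / 2 < ρ) :
    gk (1 / 4) ρ = (4 * (2 * ρ - 1) * (ρ + 2)) / (4 * ρ * (4 * ρ + 1)) ∧
    kk (1 / 4) ρ - gk (1 / 4) ρ = (2 * ρ + 11) / (4 * ρ * (4 * ρ + 1)) ∧
    2 * gk (1 / 4) ρ + kk (1 / 4) ρ = (24 * ρ ^ 2 + 38 * ρ - 13) / (4 * ρ * (4 * ρ + 1)) := by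
  have h0 : 0 < ρ := by linarith
  rw [gk_of_ge h.le, kk_of_ge h.le]
  refine ⟨?_, ?_, ?_⟩
  · field_simp
    ring
  · field_simp
    ring
  · field_simp
    ring

theorem g3_eq {ρ : ℝ} (h : 1 / 2 < ρ) :
    gk (1 / 8) ρ = (8 * (2 * ρ - 1) * (ρ + 2)) / (4 * ρ * (8 * ρ + 1)) ∧
    kk (1 / 8) ρ - gk (1 / 8) ρ = (2 * ρ + 19) / (4 * ρ * (8 * ρ + 1)) ∧
    3 * gk (1 / 8) ρ + kk (1 / 8) ρ = (64 * ρ ^ 2 + 98 * ρ - 45) / (4 * ρ * (8 * ρ + 1)) := by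
  have h0 : 0 < ρ := by linarith
  rw [gk_of_ge h.le, kk_of_ge h.le]
  refine ⟨?_, ?_, ?_⟩
  · field_simp
    ring
  · field_simp
    ring
  · field_simp
    ring

/-- Affine functions. -/
theorem Fn_two {n : ℕ} {W g e h a y y1 L : ℝ} (hy1 : y1 ≤ y) (hy2 : y ≤ 1)
    (l1 : L ≤ Fn n W g e h a y1) (l2 : L ≤ Fn n W g e h a 1) : L ≤ Fn n W g e h a y := by
  rw [Fn_lin n W g e h a y]
  rw [Fn_lin n W g e h a y1] at l1
  rcases le_total 0 (Fn n W g e h a 1 - Fn n W g e h a 0) with h | h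
  · have := mul_le_mul_of_nonneg_left hy1 h
    linarith
  · have := mul_le_mul_of_nonpos_left hy2 h
    linarith

theorem KC2 {w : ℝ} (hw : 0 < w) (hw2 : w ^ 2 = 8 / 5) {ρ : ℝ} (hρ : 1 / 2 < ρ) :
    (571 / 500 - 2 * (1 / 2)) + 59 / 100 * ρ + 1 / 2 * ρ ^ 2 +
      (-13 / 500 - 59 / 100) / ρ + -13 / 500 / ρ ^ 3 ≤ ps 2 (1 / 4) w ρ := by
  have h0 : 0 < ρ := by linarith
  have ha : 0 < ρ ^ 2 := pow_pos h0 2
  have hF := Fn_ps (n := 2) le_rfl (r := 1 / 4) (by norm_num) (by norm_num) h0 hw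
  have hy1 : ρ ^ 2 / (ρ ^ 2 + 3) ≤ m1 2 (ρ ^ 2) := by
    have hy := m1_lo 2 ha
    have e : ρ ^ 2 + ((2 : ℕ) : ℝ) + 1 = ρ ^ 2 + 3 := by push_cast; ring
    rw [e] at hy
    exact hy
  obtain ⟨hg, he, hh⟩ := g2_eq hρ
  have hc : ((2 : ℕ) : ℝ) = 2 := by norm_num
  rw [hw2, hc] at hF
  refine le_trans ?_ hF
  obtain ⟨s, hs⟩ : ∃ s, s = ρ - 1 / 2 := ⟨_, rfl⟩
  have hs0 : 0 ≤ s := by linarith
  have hρs : ρ = s + 1 / 2 := by linarith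
  have l1 := KC2_lo hs0
  have l2 := KC2_one hs0
  rw [← hρs, ← hg, ← he, ← hh] at l1 l2
  exact Fn_two hy1 (m1_le_one 2 ha) l1 l2

theorem KC3 {w : ℝ} (hw : 0 < w) (hw2 : w ^ 2 = 5 / 3) {ρ : ℝ} (hρ : 1 / 2 < ρ) :
    (1271 / 1000 - 2 * (49 / 100)) + 697 / 1000 * ρ + 49 / 100 * ρ ^ 2 +
      (-13 / 500 - 697 / 1000) / ρ + -13 / 500 / ρ ^ 3 ≤ ps 3 (1 / 8) w ρ := by
  have h0 : 0 < ρ := by linarith
  have ha : 0 < ρ ^ 2 := pow_pos h0 2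
  have hF := Fn_ps (n := 3) (by norm_num) (r := 1 / 8) (by norm_num) (by norm_num) h0 hw
  have hy1 : ρ ^ 2 / (ρ ^ 2 + 4) ≤ m1 3 (ρ ^ 2) := by
    have hy := m1_lo 3 ha
    have e : ρ ^ 2 + ((3 : ℕ) : ℝ) + 1 = ρ ^ 2 + 4 := by push_cast; ring
    rw [e] at hy
    exact hy
  obtain ⟨hg, he, hh⟩ := g3_eq hρ
  have hc : ((3 : ℕ) : ℝ) = 3 := by norm_num
  rw [hw2, hc] at hF
  refine le_trans ?_ hF
  obtain ⟨s, hs⟩ : ∃ s, s = ρ - 1 / 2 := ⟨_, rfl⟩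
  have hs0 : 0 ≤ s := by linarith
  have hρs : ρ = s + 1 / 2 := by linarith
  have l1 := KC3_lo hs0
  have l2 := KC3_one hs0
  rw [← hρs, ← hg, ← he, ← hh] at l1 l2
  exact Fn_two hy1 (m1_le_one 3 ha) l1 l2

/-- Dimension four. -/
theorem KN2 {c : ℝ} (hc : 0 ≤ c)
    (h : ∀ R : ℝ, 0 < R → ∃ G : E (2 + 2) → E (2 + 2), Dat c R G) : 4 / 5 ≤ c := by
  obtain ⟨w, hw⟩ : ∃ w : ℝ, w = Real.sqrt (8 / 5) := ⟨_, rfl⟩
  have hw0 : 0 < w := by rw [hw]; exact Real.sqrt_pos.2 (by norm_num)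
  have hw2 : w ^ 2 = 8 / 5 := by rw [hw]; exact Real.sq_sqrt (by norm_num)
  have hw4 : w ^ 4 = 64 / 25 := by
    have e : w ^ 4 = (w ^ 2) ^ 2 := by ring
    rw [e, hw2]
    norm_num
  obtain ⟨hJ, hJ2⟩ := KTot (n := 2) (by norm_num) (r := 1 / 4) (by norm_num) (by norm_num) hw0 hc h
  have h1 := KA2 (n := 2) le_rfl (r := 1 / 4) (by norm_num) (by norm_num) hw0 hJ (by
    intro ρ h0 h
    rw [hw2]
    push_cast
    have h1 : 256 / 25 ≤ kk (1 / 4) ρ * (ρ ^ 2 + 5) := by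
      rcases le_total (1 / 4) ρ with h2 | h2
      · have h3 := mul_le_mul_of_nonneg_right (kk_ge1 (r := 1 / 4) (by norm_num) h2 h)
          (show 0 ≤ ρ ^ 2 + 5 by positivity)
        refine le_trans ?_ h3
        rw [div_mul_eq_mul_div, le_div_iff₀ h0]
        nlinarith [mul_nonneg (show 0 ≤ 1 / 2 - ρ by linarith) h0.le, pow_pos h0 2, pow_pos h0 4]
      · have h3 := mul_le_mul_of_nonneg_right (kk_ge2 (r := 1 / 4) (by norm_num) h0 h2 h)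
          (show 0 ≤ ρ ^ 2 + 5 by positivity)
        refine le_trans ?_ h3
        have := sq_nonneg ρ
        linarith
    linarith)
  have h2 := KPhi (ψ := ps 2 (1 / 4) w) hJ (fun ρ => rfl) (571 / 500) (59 / 100) (1 / 2) (-13 / 500)
    (fun ρ hρ => KC2 hw0 hw2 hρ)
  have h3 := KTwo hJ h1 h2
  have h4 := h3.trans hJ2
  have e1 : (2 : ℕ) + 2 = 4 := rfl
  rw [e1, hw4, hw2] at h4
  obtain ⟨u, hu⟩ : ∃ u, u = Real.exp (-(1 / 8)) := ⟨_, rfl⟩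
  obtain ⟨u1, u2⟩ := u_bd
  rw [← hu] at u1 u2 h4
  have hl : Real.log (1 / 2) - Real.log (1 / 4) = Real.log 2 := by
    rw [← Real.log_div (by norm_num) (by norm_num)]
    norm_num
  have hl2 := Real.log_two_lt_d9
  rw [hl] at h4
  push_cast at h4
  have h5 : u ^ 2 ≤ 88325 / 100000 * u := by nlinarith
  have h6 : u ^ 2 * (1 + 11 / 30 * (1 / 4) ^ 2 + Real.log 2 + 11 / 20 * (1 / 4 - (1 / 4) ^ 2)) ≤
      88325 / 100000 * u * (18192 / 10000) := by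
    refine mul_le_mul h5 (by linarith) ?_ (by positivity)
    have := Real.log_pos (show (1 : ℝ) < 2 by norm_num)
    positivity
  linarith

/-- Dimension five. -/
theorem KN3 {c : ℝ} (hc : 0 ≤ c)
    (h : ∀ R : ℝ, 0 < R → ∃ G : E (3 + 2) → E (3 + 2), Dat c R G) : 4 / 5 ≤ c := by
  obtain ⟨w, hw⟩ : ∃ w : ℝ, w = Real.sqrt (5 / 3) := ⟨_, rfl⟩
  have hw0 : 0 < w := by rw [hw]; exact Real.sqrt_pos.2 (by norm_num)
  have hw2 : w ^ 2 = 5 / 3 := by rw [hw]; exact Real.sq_sqrt (by norm_num)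
  have hw4 : w ^ 4 = 25 / 9 := by
    have e : w ^ 4 = (w ^ 2) ^ 2 := by ring
    rw [e, hw2]
    norm_num
  have hwu : w ≤ 1291 / 1000 := by nlinarith
  have hw5 : w ^ 5 ≤ 25 / 9 * (1291 / 1000) := by
    have e : w ^ 5 = w ^ 4 * w := by ring
    rw [e, hw4]
    exact mul_le_mul_of_nonneg_left hwu (by norm_num)
  obtain ⟨hJ, hJ2⟩ := KTot (n := 3) (by norm_num) (r := 1 / 8) (by norm_num) (by norm_num) hw0 hc h
  have h1 := KA2 (n := 3) (by norm_num) (r := 1 / 8) (by norm_num) (by norm_num) hw0 hJ (by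
    intro ρ h0 h
    rw [hw2]
    push_cast
    have h1 : 110 / 9 ≤ kk (1 / 8) ρ * (ρ ^ 2 + 6) := by
      rcases le_total (1 / 8) ρ with h2 | h2
      · have h3 := mul_le_mul_of_nonneg_right (kk_ge1 (r := 1 / 8) (by norm_num) h2 h)
          (show 0 ≤ ρ ^ 2 + 6 by positivity)
        refine le_trans ?_ h3
        rw [div_mul_eq_mul_div, le_div_iff₀ h0]
        nlinarith [mul_nonneg (show 0 ≤ 1 / 2 - ρ by linarith) h0.le, pow_pos h0 2, pow_pos h0 4]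
      · have h3 := mul_le_mul_of_nonneg_right (kk_ge2 (r := 1 / 8) (by norm_num) h0 h2 h)
          (show 0 ≤ ρ ^ 2 + 6 by positivity)
        refine le_trans ?_ h3
        have := sq_nonneg ρ
        linarith
    linarith)
  have h2 := KPhi (ψ := ps 3 (1 / 8) w) hJ (fun ρ => rfl) (1271 / 1000) (697 / 1000) (49 / 100)
    (-13 / 500) (fun ρ hρ => KC3 hw0 hw2 hρ)
  have h3 := KTwo hJ h1 h2
  have h4 := h3.trans hJ2
  have e1 : (3 : ℕ) + 2 = 5 := rfl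
  rw [e1, hw4, hw2] at h4
  obtain ⟨u, hu⟩ : ∃ u, u = Real.exp (-(1 / 8)) := ⟨_, rfl⟩
  obtain ⟨u1, u2⟩ := u_bd
  rw [← hu] at u1 u2 h4
  have hl : Real.log (1 / 2) - Real.log (1 / 8) = 2 * Real.log 2 := by
    rw [← Real.log_div (by norm_num) (by norm_num)]
    have e : (1 / 2 / (1 / 8) : ℝ) = 2 ^ 2 := by norm_num
    rw [e, Real.log_pow]
    norm_num
  have hl2 := Real.log_two_lt_d9
  rw [hl] at h4
  push_cast at h4
  have h5 : u ^ 2 ≤ 88325 / 100000 * u := by nlinarith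
  have h6 : u ^ 2 * (1 + 11 / 30 * (1 / 8) ^ 2 + 2 * Real.log 2 + 11 / 20 * (1 / 4 - (1 / 8) ^ 2)) ≤
      88325 / 100000 * u * (252094 / 100000) := by
    refine mul_le_mul h5 (by linarith) ?_ (by positivity)
    have := Real.log_pos (show (1 : ℝ) < 2 by norm_num)
    positivity
  by_contra hcon
  push Not at hcon
  have h7 : w ^ 5 * c ≤ 25 / 9 * (1291 / 1000) * (4 / 5) :=
    mul_le_mul hw5 hcon.le hc (by norm_num)
  linarith

end MK
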