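import Pool.Agent.H16.MK.KRed
import Pool.Agent.H16.MC.Fmu

/-! The inner integral (MP_c844e7, dimensions three to five). -/

set_option autoImplicit false

open MeasureTheory Set MB

namespace MK

/-- The first moment of `a/(a+|W|²)`. -/
noncomputable def m1 (n : ℕ) (a : ℝ) : ℝ := a * Ik (n + 1) 1 a

/-- The second moment. -/
noncomputable def m2 (n : ℕ) (a : ℝ) : ℝ := (a - (a + n - 1) * m1 n a) / 2

/-- The third moment. -/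
noncomputable def m3 (n : ℕ) (a : ℝ) : ℝ := (a * m1 n a - (a + n - 3) * m2 n a) / 4

theorem xi_mem {a S : ℝ} (ha : 0 < a) (hS : 0 ≤ S) : 0 ≤ xi a S ∧ xi a S ≤ 1 := by
  unfold xi
  constructor
  · positivity
  · rw [div_le_one (by linarith)]
    linarith

theorem xi_pow (a S : ℝ) (k : ℕ) : xi a S ^ k = a ^ k * (1 / (a + S) ^ k) := by
  unfold xi
  rw [div_pow, mul_one_div]

theorem m1_eq (n : ℕ) (a : ℝ) : m1 n a = ∫ W, xi a (sq W) ^ 1 ∂(gad (n + 1)) := by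
  unfold m1 Ik
  simp_rw [xi_pow]
  rw [integral_const_mul, pow_one]

theorem m2_eq (n : ℕ) {a : ℝ} (ha : 0 < a) :
    m2 n a = ∫ W, xi a (sq W) ^ 2 ∂(gad (n + 1)) := by
  have h := Ik_one n ha
  simp_rw [xi_pow]
  rw [integral_const_mul]
  change m2 n a = a ^ 2 * Ik (n + 1) 2 a
  unfold m2 m1
  have h2 : a ^ 2 * Ik (n + 1) 2 a = a / 2 * (2 * a * Ik (n + 1) 2 a) := by ring
  rw [h2, h]
  ring

theorem m3_eq (n : ℕ) {a : ℝ} (ha : 0 < a) :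
    m3 n a = ∫ W, xi a (sq W) ^ 3 ∂(gad (n + 1)) := by
  have h := Ik_two n ha
  have h1 := m2_eq n ha
  simp_rw [xi_pow] at h1 ⊢
  rw [integral_const_mul] at h1 ⊢
  change m2 n a = a ^ 2 * Ik (n + 1) 2 a at h1
  change m3 n a = a ^ 3 * Ik (n + 1) 3 a
  have h2 : a ^ 3 * Ik (n + 1) 3 a = a ^ 2 / 4 * (4 * a * Ik (n + 1) 3 a) := by ring
  rw [h2, h]
  unfold m3
  rw [h1]
  unfold m1
  ring

theorem xi_int (n k : ℕ) {a : ℝ} (ha : 0 < a) :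
    Integrable (fun W : Fin (n + 1) → ℝ => xi a (sq W) ^ k) (gad (n + 1)) := by
  simp_rw [xi_pow]
  exact (Ik_int (n + 1) k ha).const_mul _

/-- Polynomials in `ξ`. -/
theorem Eaff (n : ℕ) {a : ℝ} (ha : 0 < a) (b0 b1 b2 b3 b4 : ℝ) :
    Integrable (fun W : Fin (n + 1) → ℝ => b0 + b1 * sq W + b2 * xi a (sq W) ^ 1 +
      b3 * xi a (sq W) ^ 2 + b4 * xi a (sq W) ^ 3) (gad (n + 1)) ∧
    ∫ W, (b0 + b1 * sq W + b2 * xi a (sq W) ^ 1 +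
      b3 * xi a (sq W) ^ 2 + b4 * xi a (sq W) ^ 3) ∂(gad (n + 1)) =
      b0 + b1 * (n + 1) + b2 * m1 n a + b3 * m2 n a + b4 * m3 n a := by
  obtain ⟨hs, hs2⟩ := sq_int (n + 1)
  have i1 : Integrable (fun _ : Fin (n + 1) → ℝ => b0) (gad (n + 1)) := integrable_const _
  have i2 : Integrable (fun W : Fin (n + 1) → ℝ => b1 * sq W) (gad (n + 1)) := hs.const_mul _
  have i3 := (xi_int n 1 ha).const_mul b2
  have i4 := (xi_int n 2 ha).const_mul b3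
  have i5 := (xi_int n 3 ha).const_mul b4
  have j1 : Integrable (fun W : Fin (n + 1) → ℝ => b0 + b1 * sq W) (gad (n + 1)) := i1.add i2
  have j2 : Integrable (fun W : Fin (n + 1) → ℝ => b0 + b1 * sq W + b2 * xi a (sq W) ^ 1)
    (gad (n + 1)) := j1.add i3
  have j3 : Integrable (fun W : Fin (n + 1) → ℝ => b0 + b1 * sq W + b2 * xi a (sq W) ^ 1 +
      b3 * xi a (sq W) ^ 2) (gad (n + 1)) := j2.add i4
  refine ⟨j3.add i5, ?_⟩
  rw [integral_add j3 i5, integral_add j2 i4, integral_add j1 i3, integral_add i1 i2,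
    integral_const_mul, integral_const_mul, integral_const_mul, integral_const_mul, hs2,
    m1_eq, m2_eq n ha, m3_eq n ha]
  simp

theorem m1_lo (n : ℕ) {a : ℝ} (ha : 0 < a) : a / (a + n + 1) ≤ m1 n a := by
  have h := mul_le_mul_of_nonneg_left (Ik_lo (n + 1) ha) ha.le
  push_cast at h
  unfold m1
  rw [mul_one_div, ← add_assoc] at h
  exact h

theorem m1_le_one (n : ℕ) {a : ℝ} (ha : 0 < a) : m1 n a ≤ 1 := by
  rw [m1_eq]
  have h : ∫ W : Fin (n + 1) → ℝ, xi a (sq W) ^ 1 ∂(gad (n + 1)) ≤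
      ∫ _ : Fin (n + 1) → ℝ, (1 : ℝ) ∂(gad (n + 1)) :=
    integral_mono (xi_int n 1 ha) (integrable_const _) fun W => by
      simp only [pow_one]
      exact (xi_mem ha (sq_nn W)).2
  simpa using h

theorem m1_nonneg (n : ℕ) {a : ℝ} (ha : 0 < a) : 0 ≤ m1 n a := by
  refine le_trans ?_ (m1_lo n ha)
  positivity

theorem m1_up {n : ℕ} (hn : 1 ≤ n) {a : ℝ} (ha : 0 < a) :
    m1 n a ≤ a * (((a + n + 1) ^ 2 + 2 * a) / ((a + n + 1) * ((a + n - 1) * (a + n + 1) + 4 * a))) :=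
  mul_le_mul_of_nonneg_left (Ik_up n ha hn) ha.le

theorem mf_nonneg (n : ℕ) {r ρ S : ℝ} (hr : 0 < r) (hr1 : r ≤ 1 / 2) (hρ : 0 < ρ) (hS : 0 ≤ S) :
    0 ≤ mf n r ρ S := by
  have h1 := (gk_mem hr hr1 hρ.le).1
  have h2 := kk_nonneg (r := r) hρ.le
  obtain ⟨h3, h4⟩ := xi_mem (pow_pos hρ 2) hS
  unfold mf
  have e : n * gk r ρ + kk r ρ - (kk r ρ - gk r ρ) * xi (ρ ^ 2) S =
      n * gk r ρ + gk r ρ * xi (ρ ^ 2) S + kk r ρ * (1 - xi (ρ ^ 2) S) := by ring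
  rw [e]
  have h5 : 0 ≤ 1 - xi (ρ ^ 2) S := by linarith
  positivity

/-- The lower bound of the inner integral. -/
theorem KPsi {n : ℕ} {r ρ w : ℝ} (hr : 0 < r) (hr1 : r ≤ 1 / 2) (hρ : 0 < ρ)
    (hw : 0 < w) (a0 a1 a2 a3 : ℝ)
    (hp : ∀ x : ℝ, 0 ≤ x → n / (n + 2) * x ^ (((n : ℝ) + 2) / n) ≤
      a0 + a1 * x + a2 * x ^ 2 + a3 * x ^ 3) :
    gk r ρ * (ρ ^ 2 + n) - (kk r ρ - gk r ρ) * m1 n (ρ ^ 2) -
      (a0 + a1 * ((n * gk r ρ + kk r ρ) - (kk r ρ - gk r ρ) * m1 n (ρ ^ 2)) / w ^ 2 +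
      a2 * ((n * gk r ρ + kk r ρ) ^ 2 - 2 * (n * gk r ρ + kk r ρ) * (kk r ρ - gk r ρ) *
        m1 n (ρ ^ 2) + (kk r ρ - gk r ρ) ^ 2 * m2 n (ρ ^ 2)) / w ^ 4 +
      a3 * ((n * gk r ρ + kk r ρ) ^ 3 - 3 * (n * gk r ρ + kk r ρ) ^ 2 * (kk r ρ - gk r ρ) *
        m1 n (ρ ^ 2) + 3 * (n * gk r ρ + kk r ρ) * (kk r ρ - gk r ρ) ^ 2 * m2 n (ρ ^ 2) -
        (kk r ρ - gk r ρ) ^ 3 * m3 n (ρ ^ 2)) / w ^ 6) ≤
    ∫ W, (tf r ρ (sq W) - n / (n + 2) * (mf n r ρ (sq W) / w ^ 2) ^ (((n : ℝ) + 2) / n))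
      ∂(gad (n + 1)) := by
  have ha : 0 < ρ ^ 2 := pow_pos hρ 2
  obtain ⟨g, hg⟩ : ∃ g, g = gk r ρ := ⟨_, rfl⟩
  obtain ⟨k, hk⟩ : ∃ k, k = kk r ρ := ⟨_, rfl⟩
  obtain ⟨e, he⟩ : ∃ e, e = k - g := ⟨_, rfl⟩
  obtain ⟨h, hh⟩ : ∃ h, h = n * g + k := ⟨_, rfl⟩
  obtain ⟨i1, i2⟩ := Eaff n ha (g * (ρ ^ 2 - 1) - (a0 + a1 * h / w ^ 2 + a2 * h ^ 2 / w ^ 4 +
    a3 * h ^ 3 / w ^ 6)) g (-e - (-(a1 * e) / w ^ 2 - a2 * (2 * h * e) / w ^ 4 -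
    a3 * (3 * h ^ 2 * e) / w ^ 6)) (-(a2 * e ^ 2 / w ^ 4 + a3 * (3 * h * e ^ 2) / w ^ 6))
    (a3 * e ^ 3 / w ^ 6)
  have hq0 : (0 : ℝ) ≤ (n : ℝ) / (n + 2) := by positivity
  have hmf : ∀ W : Fin (n + 1) → ℝ, mf n r ρ (sq W) = h - e * xi (ρ ^ 2) (sq W) := by
    intro W
    unfold mf
    rw [hh, he, hg, hk]
  have htf : ∀ W : Fin (n + 1) → ℝ, tf r ρ (sq W) =
      g * (ρ ^ 2 + sq W - 1) - e * xi (ρ ^ 2) (sq W) := by
    intro W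
    unfold tf
    rw [he, hg, hk]
  have hm : Measurable (sq : (Fin (n + 1) → ℝ) → ℝ) := sq_cont.measurable
  have hpt : ∀ W : Fin (n + 1) → ℝ, g * (ρ ^ 2 - 1) - (a0 + a1 * h / w ^ 2 + a2 * h ^ 2 / w ^ 4 +
      a3 * h ^ 3 / w ^ 6) + g * sq W + (-e - (-(a1 * e) / w ^ 2 - a2 * (2 * h * e) / w ^ 4 -
      a3 * (3 * h ^ 2 * e) / w ^ 6)) * xi (ρ ^ 2) (sq W) ^ 1 +
      (-(a2 * e ^ 2 / w ^ 4 + a3 * (3 * h * e ^ 2) / w ^ 6)) * xi (ρ ^ 2) (sq W) ^ 2 +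
      (a3 * e ^ 3 / w ^ 6) * xi (ρ ^ 2) (sq W) ^ 3 =
      tf r ρ (sq W) - (a0 + a1 * (mf n r ρ (sq W) / w ^ 2) + a2 * (mf n r ρ (sq W) / w ^ 2) ^ 2 +
        a3 * (mf n r ρ (sq W) / w ^ 2) ^ 3) := by
    intro W
    rw [hmf, htf]
    field_simp
    ring
  have hb : ∀ W : Fin (n + 1) → ℝ, 0 ≤ mf n r ρ (sq W) / w ^ 2 := fun W =>
    div_nonneg (mf_nonneg n hr hr1 hρ (sq_nn W)) (by positivity)
  have it : Integrable (fun W : Fin (n + 1) → ℝ => tf r ρ (sq W)) (gad (n + 1)) := by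
    obtain ⟨i3, -⟩ := Eaff n ha (g * (ρ ^ 2 - 1)) g (-e) 0 0
    refine i3.congr (Filter.Eventually.of_forall fun W => ?_)
    simp only []
    rw [htf]
    ring
  have im : Integrable (fun W : Fin (n + 1) → ℝ =>
      n / (n + 2) * (mf n r ρ (sq W) / w ^ 2) ^ (((n : ℝ) + 2) / n)) (gad (n + 1)) := by
    have i4 := it.sub i1
    refine i4.mono' ?_ (Filter.Eventually.of_forall fun W => ?_)
    · have h1 : Measurable fun W : Fin (n + 1) → ℝ => mf n r ρ (sq W) := by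
        have := (mf_meas n r).comp ((measurable_const (a := ρ)).prodMk hm)
        exact this
      exact (((h1.div_const _).pow_const _).const_mul _).aestronglyMeasurable
    · simp only [Pi.sub_apply]
      rw [hpt, Real.norm_of_nonneg (mul_nonneg hq0 (Real.rpow_nonneg (hb W) _))]
      have := hp _ (hb W)
      linarith
  have hmono := integral_mono i1 (it.sub im) fun W => by
    simp only [Pi.sub_apply]
    rw [hpt]
    have := hp _ (hb W)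
    linarith
  rw [i2] at hmono
  refine le_trans (le_of_eq ?_) hmono
  rw [← hg, ← hk, ← he, ← hh]
  ring

end MK
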