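import Pool.Agent.H16.MK.KDefs
import Pool.Agent.H16.MB.Mom
import Pool.Agent.H16.MB.Pol
import Pool.Agent.H16.MC.Iu

/-!
Integration by parts for the Gaussian measure (MP_c844e7, dimensions three and four): the integrals of
`(a + |W|²)^(-k)`.
-/

set_option autoImplicit false

open MeasureTheory Set MB

namespace MK

/-- The function of one variable. -/
private noncomputable def sf (a : ℝ) (k : ℕ) (t : ℝ) : ℝ :=
  t ^ 2 / (a + t ^ 2) ^ (k + 1) - 1 / (a + t ^ 2) ^ (k + 1) +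
    2 * (k + 1) * t ^ 2 / (a + t ^ 2) ^ (k + 2)

private theorem sf_bd {a : ℝ} (ha : 0 < a) (k : ℕ) (t : ℝ) :
    |sf a k t| ≤ 1 / a ^ k + 1 / a ^ (k + 1) + 2 * (k + 1) * (1 / a ^ (k + 1)) := by
  have h0 := sq_nonneg t
  have hp : 0 < a + t ^ 2 := by linarith
  have hle : a ≤ a + t ^ 2 := by linarith
  have hk0 : (0 : ℝ) ≤ k := Nat.cast_nonneg k
  have h1 : ∀ m : ℕ, 1 / (a + t ^ 2) ^ m ≤ 1 / a ^ m := fun m =>
    one_div_le_one_div_of_le (pow_pos ha m) (pow_le_pow_left₀ ha.le hle m)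
  have h2 : ∀ m : ℕ, 0 ≤ t ^ 2 / (a + t ^ 2) ^ (m + 1) ∧
      t ^ 2 / (a + t ^ 2) ^ (m + 1) ≤ 1 / a ^ m := by
    intro m
    refine ⟨by positivity, ?_⟩
    refine le_trans ?_ (h1 m)
    rw [div_le_div_iff₀ (by positivity) (by positivity), pow_succ (a + t ^ 2) m, one_mul]
    nlinarith [pow_pos hp m, mul_nonneg ha.le (pow_pos hp m).le]
  have h3 : 0 ≤ 1 / (a + t ^ 2) ^ (k + 1) := by positivity
  have h4 : 2 * (k + 1) * t ^ 2 / (a + t ^ 2) ^ (k + 2) =
      2 * (k + 1) * (t ^ 2 / (a + t ^ 2) ^ (k + 1 + 1)) := by ring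
  have h5 := h2 k
  have h6 := h2 (k + 1)
  have h7 := h1 (k + 1)
  unfold sf
  rw [h4, abs_le]
  have h8 : 2 * ((k : ℝ) + 1) * (t ^ 2 / (a + t ^ 2) ^ (k + 1 + 1)) ≤
      2 * (k + 1) * (1 / a ^ (k + 1)) := mul_le_mul_of_nonneg_left h6.2 (by positivity)
  have h9 : 0 ≤ 2 * ((k : ℝ) + 1) * (t ^ 2 / (a + t ^ 2) ^ (k + 1 + 1)) :=
    mul_nonneg (by positivity) h6.1
  have h10 : 0 ≤ 1 / a ^ k := by positivity
  constructor <;> linarith [h5.1, h5.2]

private theorem sf_cont {a : ℝ} (ha : 0 < a) (k : ℕ) : Continuous (sf a k) := by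
  unfold sf
  have h : ∀ t : ℝ, a + t ^ 2 ≠ 0 := fun t => by
    have := sq_nonneg t
    linarith
  have h2 : ∀ m : ℕ, ∀ t : ℝ, (a + t ^ 2) ^ m ≠ 0 := fun m t => pow_ne_zero _ (h t)
  refine ((Continuous.div (by fun_prop) (by fun_prop) (h2 _)).sub
    (Continuous.div (by fun_prop) (by fun_prop) (h2 _))).add
    (Continuous.div (by fun_prop) (by fun_prop) (h2 _))

private theorem st1 {a : ℝ} (ha : 0 < a) (k : ℕ) : ∫ t, sf a k t ∂ga = 0 := by
  unfold ga
  rw [ProbabilityTheory.integral_gaussianReal_eq_integral_smul one_ne_zero]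
  have h1 : ∀ t : ℝ, ProbabilityTheory.gaussianPDFReal 0 1 t • sf a k t =
      (Real.sqrt (2 * Real.pi))⁻¹ * (sf a k t * Real.exp (-t ^ 2 / 2)) := by
    intro t
    rw [ProbabilityTheory.gaussianPDFReal_def, smul_eq_mul]
    simp only [NNReal.coe_one, mul_one, sub_zero]
    ring
  simp_rw [h1]
  rw [integral_const_mul]
  have hexp : Integrable (fun t : ℝ => Real.exp (-t ^ 2 / 2)) := by
    have h := integrable_exp_neg_mul_sq (b := 1 / 2) (by norm_num)
    refine h.congr (Filter.Eventually.of_forall fun t => ?_)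
    simp only []
    congr 1
    ring
  have hint : Integrable (fun t : ℝ => sf a k t * Real.exp (-t ^ 2 / 2)) := by
    refine hexp.bdd_mul (sf_cont ha k).aestronglyMeasurable (c := 1 / a ^ k + 1 / a ^ (k + 1) +
      2 * (k + 1) * (1 / a ^ (k + 1))) (Filter.Eventually.of_forall fun t => ?_)
    rw [Real.norm_eq_abs]
    exact sf_bd ha k t
  have hd : ∀ t : ℝ, HasDerivAt (fun t : ℝ => -(t / (a + t ^ 2) ^ (k + 1)) * Real.exp (-t ^ 2 / 2))
      (sf a k t * Real.exp (-t ^ 2 / 2)) t := by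
    intro t
    have h0 := sq_nonneg t
    have hp : 0 < a + t ^ 2 := by linarith
    have e1 : HasDerivAt (fun t : ℝ => -t ^ 2 / 2) (-t) t := by
      have h2 := ((hasDerivAt_pow 2 t).neg).div_const 2
      have h4 : -((2 : ℕ) * t ^ (2 - 1)) / 2 = -t := by
        norm_num
        ring
      rw [h4] at h2
      exact h2
    have e2 := e1.exp
    have e3 : HasDerivAt (fun t : ℝ => a + t ^ 2) (2 * t) t := by
      have := (hasDerivAt_pow 2 t).const_add a
      simpa using this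
    have e4 := (hasDerivAt_id t).div (e3.pow (k + 1)) (pow_ne_zero _ hp.ne')
    refine (e4.neg.mul e2).congr_deriv ?_
    simp only [Pi.neg_apply, Pi.div_apply, Pi.pow_apply, id]
    unfold sf
    rw [Nat.add_sub_cancel]
    push_cast
    field_simp
    ring
  have hl : ∀ {l : Filter ℝ}, l ≤ Filter.cocompact ℝ → Filter.Tendsto
      (fun t : ℝ => -(t / (a + t ^ 2) ^ (k + 1)) * Real.exp (-t ^ 2 / 2)) l (nhds 0) := by
    intro l hl
    have h2 := (tendsto_rpow_abs_mul_exp_neg_mul_sq_cocompact (a := 1 / 2) (by norm_num) 1).mono_left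
      hl
    have h3 := h2.const_mul ((1 / a) ^ (k + 1))
    rw [mul_zero] at h3
    refine squeeze_zero_norm (fun t => ?_) h3
    rw [Real.rpow_one, norm_mul, norm_neg, Real.norm_eq_abs, Real.norm_eq_abs,
      abs_of_pos (Real.exp_pos _), abs_div, ← mul_assoc]
    have e5 : Real.exp (-t ^ 2 / 2) = Real.exp (-(1 / 2) * t ^ 2) := by
      congr 1
      ring
    rw [e5]
    refine mul_le_mul_of_nonneg_right ?_ (Real.exp_pos _).le
    have h0 := sq_nonneg t
    have hp : 0 < a + t ^ 2 := by linarith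
    rw [abs_of_pos (pow_pos hp _), mul_comm, div_eq_mul_one_div]
    refine mul_le_mul_of_nonneg_left ?_ (abs_nonneg _)
    rw [one_div_pow]
    exact one_div_le_one_div_of_le (pow_pos ha _) (pow_le_pow_left₀ ha.le (by linarith) _)
  rw [integral_of_hasDerivAt_of_tendsto hd hint (hl atBot_le_cocompact) (hl atTop_le_cocompact)]
  simp

/-- `|W|²`. -/
noncomputable def sq {d : ℕ} (W : Fin d → ℝ) : ℝ := ∑ j, W j ^ 2

theorem sq_nn {d : ℕ} (W : Fin d → ℝ) : 0 ≤ sq W := Finset.sum_nonneg fun _ _ => sq_nonneg _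

theorem sq_cont {d : ℕ} : Continuous (sq : (Fin d → ℝ) → ℝ) := by
  unfold sq
  fun_prop

private theorem st_i {d : ℕ} {a : ℝ} (ha : 0 < a) (k : ℕ) (i : Fin (d + 1)) :
    ∫ W, (W i ^ 2 / (a + sq W) ^ (k + 1) - 1 / (a + sq W) ^ (k + 1) +
      2 * (k + 1) * W i ^ 2 / (a + sq W) ^ (k + 2)) ∂(gad (d + 1)) = 0 := by
  have hmp := (measurePreserving_piFinSuccAbove (fun _ : Fin (d + 1) => ga) i).symm
  rw [← hmp.integral_comp (MeasurableEquiv.measurableEmbedding _)]
  have e : ∀ x : ℝ × (Fin d → ℝ),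
      ((((MeasurableEquiv.piFinSuccAbove (fun _ : Fin (d + 1) => ℝ) i).symm x) i) ^ 2 = x.1 ^ 2) ∧
      sq ((MeasurableEquiv.piFinSuccAbove (fun _ : Fin (d + 1) => ℝ) i).symm x) =
        x.1 ^ 2 + sq x.2 := by
    intro x
    have h1 : (MeasurableEquiv.piFinSuccAbove (fun _ : Fin (d + 1) => ℝ) i).symm x =
        i.insertNth x.1 x.2 := rfl
    rw [h1]
    refine ⟨by simp, ?_⟩
    unfold sq
    rw [Fin.sum_univ_succAbove _ i]
    simp
  have e2 : ∀ x : ℝ × (Fin d → ℝ),
      (((MeasurableEquiv.piFinSuccAbove (fun _ : Fin (d + 1) => ℝ) i).symm x) i) ^ 2 /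
        (a + sq ((MeasurableEquiv.piFinSuccAbove (fun _ : Fin (d + 1) => ℝ) i).symm x)) ^ (k + 1) -
      1 / (a + sq ((MeasurableEquiv.piFinSuccAbove (fun _ : Fin (d + 1) => ℝ) i).symm x)) ^ (k + 1) +
      2 * (k + 1) * (((MeasurableEquiv.piFinSuccAbove (fun _ : Fin (d + 1) => ℝ) i).symm x) i) ^ 2 /
        (a + sq ((MeasurableEquiv.piFinSuccAbove (fun _ : Fin (d + 1) => ℝ) i).symm x)) ^ (k + 2) =
      sf (a + sq x.2) k x.1 := by
    intro x
    obtain ⟨h1, h2⟩ := e x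
    rw [h1, h2]
    unfold sf
    have h3 : a + (x.1 ^ 2 + sq x.2) = a + sq x.2 + x.1 ^ 2 := by ring
    rw [h3]
  refine (integral_congr_ae (Filter.Eventually.of_forall e2)).trans ?_
  have hint : Integrable (fun x : ℝ × (Fin d → ℝ) => sf (a + sq x.2) k x.1)
      (ga.prod (gad d)) := by
    refine Integrable.of_bound ?_ (1 / a ^ k + 1 / a ^ (k + 1) + 2 * (k + 1) * (1 / a ^ (k + 1)))
      (Filter.Eventually.of_forall fun x => ?_)
    · unfold sf
      have hc : Continuous fun x : ℝ × (Fin d → ℝ) => sq x.2 := sq_cont.comp continuous_snd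
      have hm := hc.measurable
      have : Measurable fun x : ℝ × (Fin d → ℝ) =>
          x.1 ^ 2 / (a + sq x.2 + x.1 ^ 2) ^ (k + 1) - 1 / (a + sq x.2 + x.1 ^ 2) ^ (k + 1) +
            2 * (k + 1) * x.1 ^ 2 / (a + sq x.2 + x.1 ^ 2) ^ (k + 2) := by fun_prop
      exact this.aestronglyMeasurable
    · rw [Real.norm_eq_abs]
      have h0 := sq_nn x.2
      have hle : a ≤ a + sq x.2 := by linarith
      have h1 : ∀ m : ℕ, 1 / (a + sq x.2) ^ m ≤ 1 / a ^ m := fun m =>
        one_div_le_one_div_of_le (pow_pos ha m) (pow_le_pow_left₀ ha.le hle m)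
      refine (sf_bd (by linarith) k x.1).trans ?_
      have h2 : (0 : ℝ) ≤ 2 * (k + 1) := by positivity
      have h3 := mul_le_mul_of_nonneg_left (h1 (k + 1)) h2
      linarith [h1 k, h1 (k + 1)]
  change ∫ x, sf (a + sq x.2) k x.1 ∂(ga.prod (gad d)) = 0
  rw [integral_prod_symm _ hint]
  have h0 : ∀ y : Fin d → ℝ, ∫ x, sf (a + sq y) k x ∂ga = 0 := fun y =>
    st1 (by have := sq_nn y; linarith) k
  simp only [h0, integral_zero]

/-- The integral of `(a + |W|²)^(-k)`. -/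
noncomputable def Ik (d : ℕ) (k : ℕ) (a : ℝ) : ℝ := ∫ W, 1 / (a + sq W) ^ k ∂(gad d)

theorem Ik_int (d k : ℕ) {a : ℝ} (ha : 0 < a) :
    Integrable (fun W : Fin d → ℝ => 1 / (a + sq W) ^ k) (gad d) := by
  refine Integrable.of_bound ?_ (1 / a ^ k) (Filter.Eventually.of_forall fun W => ?_)
  · have hm : Measurable (sq : (Fin d → ℝ) → ℝ) := sq_cont.measurable
    exact (by fun_prop : Measurable fun W : Fin d → ℝ => 1 / (a + sq W) ^ k).aestronglyMeasurable
  · have h0 := sq_nn W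
    have hp : 0 < a + sq W := by linarith
    rw [Real.norm_of_nonneg (by positivity)]
    exact one_div_le_one_div_of_le (pow_pos ha k) (pow_le_pow_left₀ ha.le (by linarith) k)

theorem sq_int (d : ℕ) : Integrable (sq : (Fin d → ℝ) → ℝ) (gad d) ∧
    ∫ W, sq W ∂(gad d) = d := by
  have h1 : ∀ i : Fin d, Integrable (fun W : Fin d → ℝ => W i ^ 2) (gad d) ∧
      ∫ W, W i ^ 2 ∂(gad d) = 1 := by
    intro i
    have h2 := Mom_eval d i
    have h0 : ∀ W : Fin d → ℝ, 0 ≤ W i ^ 2 := fun W => sq_nonneg _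
    have hi : Integrable (fun W : Fin d → ℝ => W i ^ 2) (gad d) := by
      refine ⟨((measurable_pi_apply i).pow_const 2).aestronglyMeasurable, ?_⟩
      rw [hasFiniteIntegral_iff_ofReal (Filter.Eventually.of_forall h0), h2]
      exact ENNReal.one_lt_top
    refine ⟨hi, ?_⟩
    have h3 := ofReal_integral_eq_lintegral_ofReal hi (Filter.Eventually.of_forall h0)
    rw [h2, ← ENNReal.ofReal_one] at h3
    exact (ENNReal.ofReal_eq_ofReal_iff (integral_nonneg h0) zero_le_one).1 h3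
  constructor
  · unfold sq
    exact integrable_finset_sum _ fun i _ => (h1 i).1
  · unfold sq
    rw [integral_finset_sum _ fun i _ => (h1 i).1]
    simp [fun i => (h1 i).2]

theorem lin3 {α : Type*} [MeasurableSpace α] (μ : Measure α) {f g h : α → ℝ}
    (hf : Integrable f μ) (hg : Integrable g μ) (hh : Integrable h μ) (a b c : ℝ) :
    ∫ x, (a * f x + b * g x + c * h x) ∂μ = a * ∫ x, f x ∂μ + b * ∫ x, g x ∂μ + c * ∫ x, h x ∂μ := by
  have h1 : Integrable (fun x => a * f x) μ := hf.const_mul a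
  have h2 : Integrable (fun x => b * g x) μ := hg.const_mul b
  have h3 : Integrable (fun x => c * h x) μ := hh.const_mul c
  have h4 : Integrable (fun x => a * f x + b * g x) μ := h1.add h2
  rw [integral_add h4 h3, integral_add h1 h2, integral_const_mul, integral_const_mul,
    integral_const_mul]

/-- The relation of integration by parts. -/
theorem Ik_rel (d k : ℕ) {a : ℝ} (ha : 0 < a) :
    Ik (d + 1) k a - a * Ik (d + 1) (k + 1) a - (d + 1) * Ik (d + 1) (k + 1) a +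
      2 * (k + 1) * (Ik (d + 1) (k + 1) a - a * Ik (d + 1) (k + 2) a) = 0 := by
  have h1 : ∀ W : Fin (d + 1) → ℝ, ∑ i : Fin (d + 1), (W i ^ 2 / (a + sq W) ^ (k + 1) -
      1 / (a + sq W) ^ (k + 1) + 2 * (k + 1) * W i ^ 2 / (a + sq W) ^ (k + 2)) =
      1 / (a + sq W) ^ k - a * (1 / (a + sq W) ^ (k + 1)) -
        (d + 1) * (1 / (a + sq W) ^ (k + 1)) +
        2 * (k + 1) * (1 / (a + sq W) ^ (k + 1) - a * (1 / (a + sq W) ^ (k + 2))) := by
    intro W
    have h0 := sq_nn W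
    have hp : 0 < a + sq W := by linarith
    have e1 : ∑ i : Fin (d + 1), (W i ^ 2 / (a + sq W) ^ (k + 1) -
      1 / (a + sq W) ^ (k + 1) + 2 * (k + 1) * W i ^ 2 / (a + sq W) ^ (k + 2)) =
      (∑ i : Fin (d + 1), W i ^ 2) / (a + sq W) ^ (k + 1) -
      (d + 1) * (1 / (a + sq W) ^ (k + 1)) +
      2 * (k + 1) * (∑ i : Fin (d + 1), W i ^ 2) / (a + sq W) ^ (k + 2) := by
      rw [Finset.sum_add_distrib, Finset.sum_sub_distrib, Finset.sum_div, Finset.sum_const,
        Finset.card_univ, Fintype.card_fin, nsmul_eq_mul, Finset.mul_sum, Finset.sum_div]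
      push_cast
      ring
    rw [e1]
    have e2 : (∑ i : Fin (d + 1), W i ^ 2) = (a + sq W) - a := by
      unfold sq
      ring
    rw [e2]
    obtain ⟨y, hy⟩ : ∃ y, y = a + sq W := ⟨_, rfl⟩
    rw [← hy] at hp ⊢
    field_simp
    ring
  have h2 : ∫ W, ∑ i : Fin (d + 1), (W i ^ 2 / (a + sq W) ^ (k + 1) -
      1 / (a + sq W) ^ (k + 1) + 2 * (k + 1) * W i ^ 2 / (a + sq W) ^ (k + 2)) ∂(gad (d + 1)) =
      0 := by
    rw [integral_finset_sum]
    · exact Finset.sum_eq_zero fun i _ => st_i ha k i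
    · intro i _
      have hb : ∀ W : Fin (d + 1) → ℝ, ∀ m : ℕ, 0 ≤ W i ^ 2 / (a + sq W) ^ (m + 1) ∧
          W i ^ 2 / (a + sq W) ^ (m + 1) ≤ 1 / a ^ m := by
        intro W m
        have h0 := sq_nn W
        have hp : 0 < a + sq W := by linarith
        refine ⟨by positivity, ?_⟩
        have h3 : 1 / (a + sq W) ^ m ≤ 1 / a ^ m :=
          one_div_le_one_div_of_le (pow_pos ha m) (pow_le_pow_left₀ ha.le (by linarith) m)
        refine le_trans ?_ h3
        have h4 : W i ^ 2 ≤ a + sq W := by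
          have := Finset.single_le_sum (s := Finset.univ) (f := fun j => W j ^ 2)
            (fun j _ => sq_nonneg _) (Finset.mem_univ i)
          have h5 : sq W = ∑ j, W j ^ 2 := rfl
          rw [h5]
          linarith
        rw [div_le_div_iff₀ (by positivity) (by positivity), pow_succ (a + sq W) m, one_mul,
          mul_comm ((a + sq W) ^ m)]
        exact mul_le_mul_of_nonneg_right h4 (pow_pos hp m).le
      have hm : Measurable (sq : (Fin (d + 1) → ℝ) → ℝ) := sq_cont.measurable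
      have i1 : ∀ m : ℕ, Integrable (fun W : Fin (d + 1) → ℝ => W i ^ 2 / (a + sq W) ^ (m + 1))
          (gad (d + 1)) := by
        intro m
        refine Integrable.of_bound ?_ (1 / a ^ m) (Filter.Eventually.of_forall fun W => ?_)
        · exact (by fun_prop : Measurable fun W : Fin (d + 1) → ℝ =>
            W i ^ 2 / (a + sq W) ^ (m + 1)).aestronglyMeasurable
        · rw [Real.norm_of_nonneg (hb W m).1]
          exact (hb W m).2
      refine ((i1 k).sub (Ik_int (d + 1) (k + 1) ha)).add ?_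
      refine ((i1 (k + 1)).const_mul (2 * ((k : ℝ) + 1))).congr
        (Filter.Eventually.of_forall fun W => ?_)
      simp only []
      ring
  have h3 : ∀ W : Fin (d + 1) → ℝ, ∑ i : Fin (d + 1), (W i ^ 2 / (a + sq W) ^ (k + 1) -
      1 / (a + sq W) ^ (k + 1) + 2 * (k + 1) * W i ^ 2 / (a + sq W) ^ (k + 2)) =
      1 * (1 / (a + sq W) ^ k) + (2 * (k + 1) - a - (d + 1)) * (1 / (a + sq W) ^ (k + 1)) +
        (-(2 * (k + 1) * a)) * (1 / (a + sq W) ^ (k + 2)) := by
    intro W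
    rw [h1 W]
    ring
  rw [integral_congr_ae (Filter.Eventually.of_forall h3),
    lin3 _ (Ik_int (d + 1) k ha) (Ik_int (d + 1) (k + 1) ha) (Ik_int (d + 1) (k + 2) ha)] at h2
  unfold Ik
  linarith

theorem Ik_zero (d : ℕ) (a : ℝ) : Ik d 0 a = 1 := by
  unfold Ik
  simp

theorem Ik_one (d : ℕ) {a : ℝ} (ha : 0 < a) :
    2 * a * Ik (d + 1) 2 a = 1 - (a + d - 1) * Ik (d + 1) 1 a := by
  have h := Ik_rel d 0 ha
  rw [Ik_zero] at h
  push_cast at h
  linarith

theorem Ik_two (d : ℕ) {a : ℝ} (ha : 0 < a) :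
    4 * a * Ik (d + 1) 3 a = Ik (d + 1) 1 a - (a + d - 3) * Ik (d + 1) 2 a := by
  have h := Ik_rel d 1 ha
  push_cast at h
  linarith

theorem Ik_lo (d : ℕ) {a : ℝ} (ha : 0 < a) : 1 / (a + d) ≤ Ik d 1 a := by
  obtain ⟨h1, h2⟩ := sq_int d
  have hd : (0 : ℝ) ≤ d := Nat.cast_nonneg d
  have hp : 0 < a + (d : ℝ) := by linarith
  have h3 : ∫ W, (1 / (a + d) - (sq W - d) / (a + d) ^ 2) ∂(gad d) ≤ Ik d 1 a := by
    unfold Ik
    refine integral_mono ((integrable_const _).sub ((h1.sub (integrable_const _)).div_const _))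
      (Ik_int d 1 ha) fun W => ?_
    have h0 := sq_nn W
    have hq : 0 < a + sq W := by linarith
    simp only [pow_one]
    rw [← sub_nonneg]
    have e : 1 / (a + sq W) - (1 / (a + d) - (sq W - d) / (a + d) ^ 2) =
        (sq W - d) ^ 2 / ((a + sq W) * (a + d) ^ 2) := by
      field_simp
      ring
    rw [e]
    positivity
  have h4 : ∫ W : Fin d → ℝ, (1 / (a + d) - (sq W - d) / (a + d) ^ 2) ∂(gad d) = 1 / (a + d) := by
    have h5 : ∀ W : Fin d → ℝ, (1 / (a + d) - (sq W - d) / (a + d) ^ 2) =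
        (1 / (a + d) + d / (a + d) ^ 2) * 1 + (-(1 / (a + d) ^ 2)) * sq W + 0 * sq W := by
      intro W
      ring
    rw [integral_congr_ae (Filter.Eventually.of_forall h5),
      lin3 _ (integrable_const (1 : ℝ)) h1 h1, h2]
    simp
    ring
  rw [h4] at h3
  exact h3

theorem Ik_up (d : ℕ) {a : ℝ} (ha : 0 < a) (hd : 1 ≤ d) :
    Ik (d + 1) 1 a ≤ ((a + d + 1) ^ 2 + 2 * a) /
      ((a + d + 1) * ((a + d - 1) * (a + d + 1) + 4 * a)) := by
  have hd1 : (1 : ℝ) ≤ d := by exact_mod_cast hd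
  obtain ⟨c, hc⟩ : ∃ c, c = 1 / (a + d + 1) := ⟨_, rfl⟩
  have hp : 0 < a + (d : ℝ) + 1 := by linarith
  have h1 := Ik_one d ha
  have h2 : 2 * c * Ik (d + 1) 1 a - c ^ 2 ≤ Ik (d + 1) 2 a := by
    have h3 : ∫ W, (2 * c * (1 / (a + sq W) ^ 1) - c ^ 2) ∂(gad (d + 1)) ≤ Ik (d + 1) 2 a := by
      unfold Ik
      refine integral_mono (((Ik_int (d + 1) 1 ha).const_mul _).sub (integrable_const _))
        (Ik_int (d + 1) 2 ha) fun W => ?_
      have h0 := sq_nn W
      have hq : 0 < a + sq W := by linarith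
      simp only [pow_one]
      have e : 1 / (a + sq W) ^ 2 = (1 / (a + sq W)) ^ 2 := by rw [one_div_pow]
      rw [e]
      nlinarith [sq_nonneg (1 / (a + sq W) - c)]
    rw [integral_sub ((Ik_int (d + 1) 1 ha).const_mul _) (integrable_const _),
      integral_const_mul] at h3
    unfold Ik at h3 ⊢
    simpa using h3
  have h4 := mul_le_mul_of_nonneg_left h2 (show 0 ≤ 2 * a by linarith)
  rw [h1] at h4
  have h5 : 0 < (a + d - 1) * (a + d + 1) + 4 * a := by nlinarith
  rw [le_div_iff₀ (mul_pos hp h5)]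
  have h6 : Ik (d + 1) 1 a * (a + d - 1 + 4 * a * c) ≤ 1 + 2 * a * c ^ 2 := by linarith
  have h7 := mul_le_mul_of_nonneg_right h6 (show 0 ≤ (a + (d : ℝ) + 1) ^ 2 by positivity)
  have e1 : c * (a + d + 1) = 1 := by
    rw [hc]
    field_simp
  have e2 : Ik (d + 1) 1 a * (a + d - 1 + 4 * a * c) * (a + d + 1) ^ 2 =
      Ik (d + 1) 1 a * ((a + d + 1) * ((a + d - 1) * (a + d + 1) + 4 * a * (c * (a + d + 1)))) := by
    ring
  have e3 : (1 + 2 * a * c ^ 2) * (a + d + 1) ^ 2 =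
      (a + d + 1) ^ 2 + 2 * a * (c * (a + d + 1)) ^ 2 := by ring
  rw [e2, e3, e1] at h7
  simpa using h7

theorem rad_map : Measure.map rz ga2 = (volume.restrict (Ioi (0 : ℝ))).withDensity
    (fun ρ => ENNReal.ofReal (ρ * Real.exp (-ρ ^ 2 / 2))) := by
  ext s hs
  have h1 := Iu_rad (s.indicator 1) (measurable_one.indicator hs)
  have h2 : ∫⁻ z, s.indicator (1 : ℝ → ENNReal) (rz z) ∂ga2 = Measure.map rz ga2 s := by
    rw [← lintegral_map (measurable_one.indicator hs) rz_cont.measurable,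
      lintegral_indicator_one hs]
  rw [← h2, h1, withDensity_apply _ hs, ← lintegral_indicator hs]
  refine lintegral_congr fun ρ => ?_
  by_cases h : ρ ∈ s
  · simp [h]
  · simp [h]

/-- Radial functions of the plane. -/
theorem rad_int (f : ℝ → ℝ) (hf : Measurable f) :
    ∫ z, f (rz z) ∂ga2 = ∫ ρ in Ioi (0 : ℝ), ρ * Real.exp (-ρ ^ 2 / 2) * f ρ := by
  have h1 : ∫ z, f (rz z) ∂ga2 = ∫ ρ, f ρ ∂(Measure.map rz ga2) :=
    (integral_map rz_cont.measurable.aemeasurable hf.aestronglyMeasurable).symm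
  have hm : Measurable fun ρ : ℝ => ENNReal.ofReal (ρ * Real.exp (-ρ ^ 2 / 2)) := by fun_prop
  rw [h1, rad_map, integral_withDensity_eq_integral_toReal_smul hm
    (Filter.Eventually.of_forall fun a => ENNReal.ofReal_lt_top)]
  refine setIntegral_congr_fun measurableSet_Ioi fun ρ hρ => ?_
  have hρ' : (0 : ℝ) < ρ := hρ
  rw [ENNReal.toReal_ofReal (by positivity), smul_eq_mul]

theorem rad_integrable (f : ℝ → ℝ) (hf : Measurable f) :
    Integrable (fun z => f (rz z)) ga2 ↔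
      IntegrableOn (fun ρ => ρ * Real.exp (-ρ ^ 2 / 2) * f ρ) (Ioi (0 : ℝ)) := by
  have hm : Measurable fun ρ : ℝ => ENNReal.ofReal (ρ * Real.exp (-ρ ^ 2 / 2)) := by fun_prop
  have h1 : Integrable (fun z => f (rz z)) ga2 ↔ Integrable f (Measure.map rz ga2) :=
    (integrable_map_measure hf.aestronglyMeasurable rz_cont.measurable.aemeasurable).symm
  rw [h1, rad_map, integrable_withDensity_iff_integrable_smul' hm
    (Filter.Eventually.of_forall fun a => ENNReal.ofReal_lt_top)]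
  refine integrable_congr ?_
  refine (ae_restrict_iff' measurableSet_Ioi).2 (Filter.Eventually.of_forall fun ρ hρ => ?_)
  have hρ' : (0 : ℝ) < ρ := hρ
  simp only []
  rw [ENNReal.toReal_ofReal (by positivity), smul_eq_mul]

end MK
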