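import Pool.Agent.H16.MK.KLim
import Pool.Agent.H16.MK.KSt

/-! Reduction to one variable (MP_c844e7, dimensions three to five). -/

set_option autoImplicit false

open MeasureTheory Set MB

namespace MK

theorem KRed_T (n : ℕ) (p : (ℝ × ℝ) × (Fin (n + 1) → ℝ)) :
    ‖T n p‖ ^ 2 = rz p.1 ^ 2 + sq p.2 := by
  rw [← KKp_rz, EuclideanSpace.norm_sq_eq, Fin.sum_univ_succ, Fin.sum_univ_succ]
  unfold T sq
  simp only [Real.norm_eq_abs, sq_abs]
  rw [← add_assoc]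
  rfl

theorem KRed_kp (n : ℕ) (p : (ℝ × ℝ) × (Fin (n + 1) → ℝ)) (hp : 0 < rz p.1) :
    kp (T n p) = 1 - rz p.1 ^ 2 / (rz p.1 ^ 2 + sq p.2) := by
  have h0 := sq_nn p.2
  have h1 : 0 < rz p.1 ^ 2 + sq p.2 := by positivity
  have h2 : (T n p) 0 ^ 2 + (T n p) 1 ^ 2 = rz p.1 ^ 2 := KKp_rz p.1
  unfold kp
  rw [KRed_T]
  field_simp
  linarith

/-- `a/(a + S)`. -/
noncomputable def xi (a S : ℝ) : ℝ := a / (a + S)

/-- The density of the gain. -/
noncomputable def tf (r ρ S : ℝ) : ℝ :=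
  gk r ρ * (ρ ^ 2 + S - 1) - (kk r ρ - gk r ρ) * xi (ρ ^ 2) S

/-- The density of the coefficient. -/
noncomputable def mf (n : ℕ) (r ρ S : ℝ) : ℝ :=
  n * gk r ρ + kk r ρ - (kk r ρ - gk r ρ) * xi (ρ ^ 2) S

theorem tK_eq (n : ℕ) (r : ℝ) (p : (ℝ × ℝ) × (Fin (n + 1) → ℝ)) (hp : 0 < rz p.1) :
    tK n r p = tf r (rz p.1) (sq p.2) := by
  unfold tK eK tf xi
  rw [KRed_T, KRed_kp n p hp]
  ring

theorem mK_eq (n : ℕ) (r : ℝ) (p : (ℝ × ℝ) × (Fin (n + 1) → ℝ)) (hp : 0 < rz p.1) :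
    mK n r p = mf n r (rz p.1) (sq p.2) := by
  unfold mK mf xi
  rw [KRed_kp n p hp]
  ring

theorem xi_meas : Measurable fun x : ℝ × ℝ => xi (x.1 ^ 2) x.2 := by
  unfold xi
  fun_prop

theorem tf_meas (r : ℝ) : Measurable fun x : ℝ × ℝ => tf r x.1 x.2 := by
  unfold tf
  have h1 := (gk_meas r).comp (measurable_fst : Measurable (Prod.fst : ℝ × ℝ → ℝ))
  have h2 := (kk_meas r).comp (measurable_fst : Measurable (Prod.fst : ℝ × ℝ → ℝ))
  have h3 := xi_meas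
  simp only [Function.comp_def] at h1 h2
  fun_prop

theorem mf_meas (n : ℕ) (r : ℝ) : Measurable fun x : ℝ × ℝ => mf n r x.1 x.2 := by
  unfold mf
  have h1 := (gk_meas r).comp (measurable_fst : Measurable (Prod.fst : ℝ × ℝ → ℝ))
  have h2 := (kk_meas r).comp (measurable_fst : Measurable (Prod.fst : ℝ × ℝ → ℝ))
  have h3 := xi_meas
  simp only [Function.comp_def] at h1 h2
  fun_prop

/-- The reduction. -/
theorem KRed_main {n : ℕ} (F : (ℝ × ℝ) × (Fin (n + 1) → ℝ) → ℝ) (f : ℝ → ℝ → ℝ)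
    (hf : Measurable fun x : ℝ × ℝ => f x.1 x.2) (hF : Integrable F (gaT n))
    (hFf : ∀ p, 0 < rz p.1 → F p = f (rz p.1) (sq p.2)) :
    IntegrableOn (fun ρ => ρ * Real.exp (-ρ ^ 2 / 2) * ∫ W, f ρ (sq W) ∂(gad (n + 1)))
      (Ioi (0 : ℝ)) ∧
    ∫ p, F p ∂(gaT n) =
      ∫ ρ in Ioi (0 : ℝ), ρ * Real.exp (-ρ ^ 2 / 2) * ∫ W, f ρ (sq W) ∂(gad (n + 1)) := by
  have hm : Measurable (sq : (Fin (n + 1) → ℝ) → ℝ) := sq_cont.measurable
  have hψ : Measurable fun ρ : ℝ => ∫ W, f ρ (sq W) ∂(gad (n + 1)) := by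
    have h1 : Measurable fun x : ℝ × (Fin (n + 1) → ℝ) => f x.1 (sq x.2) :=
      hf.comp (measurable_fst.prodMk (hm.comp measurable_snd))
    exact (h1.stronglyMeasurable.integral_prod_right (ν := gad (n + 1))).measurable
  have h2 : F =ᵐ[gaT n] fun p => f (rz p.1) (sq p.2) := by
    filter_upwards [KKp_ae n] with p hp
    exact hFf p hp.1
  have h3 : Integrable (fun p : (ℝ × ℝ) × (Fin (n + 1) → ℝ) => f (rz p.1) (sq p.2)) (gaT n) :=
    hF.congr h2
  have h4 : Integrable (fun z : ℝ × ℝ => ∫ W, f (rz z) (sq W) ∂(gad (n + 1))) ga2 :=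
    h3.integral_prod_left
  have h5 := (rad_integrable (fun ρ => ∫ W, f ρ (sq W) ∂(gad (n + 1))) hψ).1 h4
  refine ⟨h5, ?_⟩
  rw [integral_congr_ae h2, integral_prod _ h3]
  exact rad_int (fun ρ => ∫ W, f ρ (sq W) ∂(gad (n + 1))) hψ

/-- A piece of the integral. -/
theorem KSeg {J G G' : ℝ → ℝ} (hJ : IntegrableOn J (Ioi (0 : ℝ))) {a b : ℝ} (ha : 0 ≤ a)
    (hab : a ≤ b) (hc : ContinuousOn G (Icc a b)) (hd : ∀ x ∈ Ioo a b, HasDerivAt G (G' x) x)
    (h : ∀ x ∈ Ioo a b, G' x ≤ J x) : G b - G a ≤ ∫ x in a..b, J x := by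
  refine intervalIntegral.sub_le_integral_of_hasDeriv_right_of_le hab hc
    (fun x hx => (hd x hx).hasDerivWithinAt) ?_ h
  have h1 : IntegrableOn J (Ici (0 : ℝ)) := (integrableOn_Ici_iff_integrableOn_Ioi (by simp)).2 hJ
  exact h1.mono_set fun x hx => ha.trans hx.1

/-- The last piece of the integral. -/
theorem KTail {J G G' : ℝ → ℝ} (hJ : IntegrableOn J (Ioi (0 : ℝ))) {a : ℝ} (ha : 0 ≤ a)
    (hc : ContinuousOn G (Ici a)) (hd : ∀ x ∈ Ioi a, HasDerivAt G (G' x) x)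
    (h : ∀ x ∈ Ioi a, G' x ≤ J x) (hl : Filter.Tendsto G Filter.atTop (nhds 0)) :
    -G a ≤ ∫ x in Ioi a, J x := by
  have h1 := intervalIntegral_tendsto_integral_Ioi a (hJ.mono_set (Ioi_subset_Ioi ha))
    Filter.tendsto_id
  have h2 : Filter.Tendsto (fun b => G b - G a) Filter.atTop (nhds (0 - G a)) :=
    hl.sub tendsto_const_nhds
  rw [zero_sub] at h2
  refine le_of_tendsto_of_tendsto h2 h1 ?_
  filter_upwards [Filter.eventually_ge_atTop a] with b hb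
  exact KSeg hJ ha hb (hc.mono fun x hx => hx.1) (fun x hx => hd x hx.1) fun x hx => h x hx.1

/-- The weight `ρ exp(-ρ²/2)` and the function `Φ = c₀ + c₁ρ + c₂ρ² + c₃/ρ`. -/
theorem KPhi {J ψ : ℝ → ℝ} (hJ : IntegrableOn J (Ioi (0 : ℝ)))
    (hψ : ∀ ρ, J ρ = ρ * Real.exp (-ρ ^ 2 / 2) * ψ ρ) (c0 c1 c2 c3 : ℝ)
    (h : ∀ ρ, 1 / 2 < ρ → (c0 - 2 * c2) + c1 * ρ + c2 * ρ ^ 2 + (c3 - c1) / ρ + c3 / ρ ^ 3 ≤ ψ ρ) :
    (c0 + c1 / 2 + c2 / 4 + 2 * c3) * Real.exp (-(1 / 8)) ≤ ∫ x in Ioi (1 / 2 : ℝ), J x := by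
  set G : ℝ → ℝ := fun ρ => -((c0 + c1 * ρ + c2 * ρ ^ 2 + c3 / ρ) * Real.exp (-ρ ^ 2 / 2)) with hG
  have hne : ∀ x ∈ Ici (1 / 2 : ℝ), x ≠ 0 := fun x hx => by
    have : (1 / 2 : ℝ) ≤ x := hx
    positivity
  have h1 := KTail (G := G) (G' := fun ρ => ρ * Real.exp (-ρ ^ 2 / 2) *
    ((c0 - 2 * c2) + c1 * ρ + c2 * ρ ^ 2 + (c3 - c1) / ρ + c3 / ρ ^ 3)) hJ
    (a := 1 / 2) (by norm_num) ?_ ?_ ?_ ?_
  · have e : -G (1 / 2) = (c0 + c1 / 2 + c2 / 4 + 2 * c3) * Real.exp (-(1 / 8)) := by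
      simp only [hG]
      have e1 : (-(1 / 2 : ℝ) ^ 2 / 2) = -(1 / 8) := by norm_num
      rw [e1]
      ring
    rw [e] at h1
    exact h1
  · refine ContinuousOn.neg (ContinuousOn.mul ?_ (by fun_prop))
    exact (by fun_prop : Continuous fun x : ℝ => c0 + c1 * x + c2 * x ^ 2).continuousOn.add
      (continuousOn_const.div continuousOn_id hne)
  · intro x hx
    have hx0 : x ≠ 0 := hne x (Ioi_subset_Ici_self hx)
    have e1 : HasDerivAt (fun t : ℝ => -t ^ 2 / 2) (-x) x := by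
      have h2 := ((hasDerivAt_pow 2 x).neg).div_const 2
      have h4 : -((2 : ℕ) * x ^ (2 - 1)) / 2 = -x := by
        norm_num
        ring
      rw [h4] at h2
      exact h2
    have e2 := e1.exp
    have e3 : HasDerivAt (fun t : ℝ => c0 + c1 * t + c2 * t ^ 2 + c3 / t)
        (c1 + 2 * c2 * x - c3 / x ^ 2) x := by
      have a1 := ((hasDerivAt_id x).const_mul c1).const_add c0
      have a2 := (hasDerivAt_pow 2 x).const_mul c2
      have a3 := (hasDerivAt_inv hx0).const_mul c3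
      refine ((a1.add a2).add a3).congr_deriv ?_ |>.congr_of_eventuallyEq ?_
      · simp
        ring
      · exact Filter.Eventually.of_forall fun t => by simp [div_eq_mul_inv]
    refine (e3.mul e2).neg.congr_deriv ?_
    field_simp
    ring
  · intro x hx
    have hx0 : (0 : ℝ) < x := by
      have : (1 / 2 : ℝ) < x := hx
      linarith
    rw [hψ]
    exact mul_le_mul_of_nonneg_left (h x hx) (by positivity)
  · have t0 : ∀ k : ℕ, Filter.Tendsto (fun x : ℝ => x ^ k * Real.exp (-x ^ 2 / 2)) Filter.atTop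
        (nhds 0) := by
      intro k
      have a1 := (tendsto_rpow_abs_mul_exp_neg_mul_sq_cocompact (a := 1 / 2) (by norm_num)
        (k : ℝ)).mono_left atTop_le_cocompact
      refine a1.congr' ?_
      filter_upwards [Filter.eventually_ge_atTop (0 : ℝ)] with x hx
      rw [abs_of_nonneg hx, Real.rpow_natCast]
      congr 2
      ring
    have t1 : Filter.Tendsto (fun x : ℝ => c3 / x) Filter.atTop (nhds 0) :=
      Filter.Tendsto.div_atTop tendsto_const_nhds Filter.tendsto_id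
    have t2 := t1.mul (t0 0)
    have t3 := ((((t0 0).const_mul c0).add ((t0 1).const_mul c1)).add ((t0 2).const_mul c2)).add t2
    have t4 := t3.neg
    simp only [mul_zero, add_zero, neg_zero] at t4
    refine t4.congr fun x => ?_
    simp only [hG]
    ring

end MK
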