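import Pool.Agent.H16.MC.Top
import Pool.Agent.H16.MK.KN23

/-!
Assembly (MP_c844e7, all dimensions `N = n + 2 ≥ 3`).  `flat_bound3` and `c1_bound3` are `flat_bound`
and `c1_bound` of the rows Flt and Gen (helpers 43 and 95) with the constant `cb`.
-/

set_option autoImplicit false

open MeasureTheory Set MB

namespace MK

/-- The constant, `N = n + 2`. -/
noncomputable def cb (n : ℕ) : ℝ :=
  if n = 1 then 5 / 8 else if n ≤ 3 then 4 / 5 else 1 - 3 / (2 * ((n : ℝ) + 1) * (n - 2))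

theorem cb_nonneg {n : ℕ} (hn : 1 ≤ n) : 0 ≤ cb n := by
  unfold cb
  split_ifs with h1 h2
  · norm_num
  · norm_num
  · have hn5 : (4 : ℝ) ≤ n := by exact_mod_cast (by omega : 4 ≤ n)
    have h1 : 0 < 2 * ((n : ℝ) + 1) * (n - 2) := by nlinarith
    have : 3 / (2 * ((n : ℝ) + 1) * (n - 2)) ≤ 1 := by
      rw [div_le_one h1]
      nlinarith
    linarith

theorem bound3 {n : ℕ} (hn : 1 ≤ n) {c : ℝ} (hc : 0 ≤ c)
    (h : ∀ R : ℝ, 0 < R → ∃ G : E (n + 2) → E (n + 2), Dat c R G) : cb n ≤ c := by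
  unfold cb
  split_ifs with h1 h2
  · subst h1
    exact KN1 hc h
  · have h3 : n = 2 ∨ n = 3 := by omega
    rcases h3 with rfl | rfl
    · exact KN2 hc h
    · exact KN3 hc h
  · exact bound2 (by omega) hc h

theorem flat_bound3 {n : ℕ} (hn : 1 ≤ n) {D : Set (E (n + 2))} {f : E (n + 2) → E (n + 2)} {K : ℝ}
    (hD : IsOpen D) (hc : ContinuousOn f D) (ho : ∀ O ⊆ D, IsOpen O → IsOpen (f '' O))
    (hdisc : ∀ x ∈ D, ∃ W ∈ nhds x, ∀ z ∈ W, f z = f x → z = x)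
    (hoff : ∀ x ∈ D, ¬ ax (f x) → (∃ W ∈ nhds x, InjOn f W) ∧ DifferentiableAt ℝ f x ∧
      (fderiv ℝ f x).det ≠ 0 ∧ ∀ h : E (n + 2), ‖h‖ = 1 →
        |(fderiv ℝ f x).det| ≤ K * ‖fderiv ℝ f x h‖ ^ (n + 2))
    {x₀ : E (n + 2)} (hx₀ : x₀ ∈ D) (hax : ax (f x₀)) (m : ℕ)
    (hm : ∀ W ∈ nhds x₀, ∃ y, (m : ℕ∞) ≤ (W ∩ f ⁻¹' {y}).encard) :
    m * cb n ≤ K := by
  obtain ⟨U, r, hr, hx0U, hUD, hN⟩ := exists_nrm hD hc ho hdisc
    (fun x hx hax => (hoff x hx hax).1) hx₀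
  obtain ⟨k, hk, G, hG, hi, hf⟩ := exists_desc hax hr hN ⟨x₀, hx0U⟩
  obtain ⟨G', hG', hi', hf'⟩ := exists_ext hk hax hN hG hi hf
  have hmk : m ≤ k := by
    obtain ⟨y, hy⟩ := hm U (hN.opn.mem_nhds hx0U)
    have h1 := hy.trans (card_fibre hk hax hr hN hG' hi' hf' y)
    exact_mod_cast h1
  have hd : ∀ y ∈ Bp (f x₀) r, DifferentiableAt ℝ f (G' y) ∧ (fderiv ℝ f (G' y)).det ≠ 0 ∧
      ∀ h : E (n + 2), ‖h‖ = 1 →
        |(fderiv ℝ f (G' y)).det| ≤ K * ‖fderiv ℝ f (G' y) h‖ ^ (n + 2) := by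
    intro y hy
    have h1 := hf' y hy.1
    refine (hoff (G' y) (hUD h1.1) ?_).2
    rw [h1.2, ax_winding hk]
    exact hy.2
  have hK : 0 < K := by
    obtain ⟨y, hyd⟩ : ∃ y : E (n + 2), y = f x₀ + EuclideanSpace.single 0 (r / 2) := ⟨_, rfl⟩
    have hy : y ∈ Bp (f x₀) r := by
      refine ⟨?_, ?_⟩
      · rw [Metric.mem_ball, dist_eq_norm, hyd, add_sub_cancel_left, EuclideanSpace.norm_single,
          Real.norm_of_nonneg (by linarith)]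
        linarith
      · intro h
        have h1 := h.1
        rw [hyd] at h1
        have h2 : (f x₀ + EuclideanSpace.single 0 (r / 2) : E (n + 2)) 0 = f x₀ 0 + r / 2 := by
          simp
        rw [h2, hax.1] at h1
        linarith
    obtain ⟨-, h1, h2⟩ := hd y hy
    have h3 := h2 (EuclideanSpace.single 0 1) (by simp)
    have h4 : 0 < |(fderiv ℝ f (G' y)).det| := abs_pos.2 h1
    by_contra hcon
    push Not at hcon
    have h5 : K * ‖fderiv ℝ f (G' y) (EuclideanSpace.single 0 1)‖ ^ (n + 2) ≤ 0 :=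
      mul_nonpos_of_nonpos_of_nonneg hcon (by positivity)
    linarith
  have hk0 : (0 : ℝ) < k := by
    have : 0 < k := hk
    exact_mod_cast this
  have hb := bound3 hn (c := K / k) (by positivity) (fun R hR =>
    dat_of_model hk hax hr hG' hi' (fun y hy => (hf' y hy).2) hd R hR)
  have h0 : 0 ≤ cb n := cb_nonneg hn
  have hmk' : (m : ℝ) ≤ k := by exact_mod_cast hmk
  calc (m : ℝ) * cb n ≤ k * cb n :=
        mul_le_mul_of_nonneg_right hmk' h0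
    _ ≤ k * (K / k) := mul_le_mul_of_nonneg_left hb hk0.le
    _ = K := by field_simp

private theorem KTop_det {n : ℕ} (A B : E (n + 2) →L[ℝ] E (n + 2)) :
    (A.comp B).det = A.det * B.det := by
  change LinearMap.det ((A : E (n + 2) →ₗ[ℝ] E (n + 2)) ∘ₗ (B : E (n + 2) →ₗ[ℝ] E (n + 2))) = _
  rw [LinearMap.det_comp]

/-- The estimate of the chain rule. -/
private theorem KTop_chain {n : ℕ} {A B : E (n + 2) →L[ℝ] E (n + 2)} {K δ : ℝ} (hδ : 0 < δ)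
    (hδ1 : δ < 1) (hA : |A.det| ≤ 1 + δ) (hA2 : ∀ h, (1 - δ) * ‖h‖ ≤ ‖A h‖)
    (hB : B.det ≠ 0) {h : E (n + 2)} (hB2 : |B.det| ≤ K * ‖B h‖ ^ (n + 2)) :
    |(A.comp B).det| ≤ (1 + δ) * K / (1 - δ) ^ (n + 2) * ‖A.comp B h‖ ^ (n + 2) := by
  have h1 : 0 < 1 - δ := by linarith
  have hpos : 0 < |B.det| := abs_pos.mpr hB
  have hp0 : 0 ≤ ‖B h‖ ^ (n + 2) := pow_nonneg (norm_nonneg _) _
  have hK : 0 ≤ K := by
    by_contra hcon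
    have h2 : K * ‖B h‖ ^ (n + 2) ≤ 0 := mul_nonpos_of_nonpos_of_nonneg (by linarith) hp0
    linarith
  rw [KTop_det, abs_mul]
  have h3 : |A.det| * |B.det| ≤ (1 + δ) * (K * ‖B h‖ ^ (n + 2)) :=
    mul_le_mul hA hB2 (abs_nonneg _) (by linarith)
  refine h3.trans ?_
  have h4 : ((1 - δ) * ‖B h‖) ^ (n + 2) ≤ ‖A (B h)‖ ^ (n + 2) :=
    pow_le_pow_left₀ (mul_nonneg h1.le (norm_nonneg _)) (hA2 (B h)) _
  rw [mul_pow] at h4
  have h5 : 0 < (1 - δ) ^ (n + 2) := pow_pos h1 _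
  have h6 : ‖B h‖ ^ (n + 2) ≤ ‖A (B h)‖ ^ (n + 2) / (1 - δ) ^ (n + 2) := by
    rw [le_div_iff₀ h5, mul_comm]
    exact h4
  have h7 : (1 + δ) * K / (1 - δ) ^ (n + 2) * ‖A.comp B h‖ ^ (n + 2) =
      (1 + δ) * K * (‖A (B h)‖ ^ (n + 2) / (1 - δ) ^ (n + 2)) := by
    rw [ContinuousLinearMap.comp_apply]
    ring
  rw [h7, ← mul_assoc]
  exact mul_le_mul_of_nonneg_left h6 (mul_nonneg (by linarith) hK)

private theorem KTop_step {n : ℕ} (hn : 1 ≤ n) {D : Set (E (n + 2))} {f : E (n + 2) → E (n + 2)}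
    {K : ℝ} (hD : IsOpen D) (hc : ContinuousOn f D) (ho : ∀ O ⊆ D, IsOpen O → IsOpen (f '' O))
    (hdisc : ∀ x ∈ D, ∃ W ∈ nhds x, ∀ z ∈ W, f z = f x → z = x)
    {x₀ : E (n + 2)} (hx₀ : x₀ ∈ D) {H : E (n + 2) → E 2}
    (h0 : H (f x₀) = 0)
    (hoff : ∀ x ∈ D, H (f x) ≠ 0 → (∃ W ∈ nhds x, InjOn f W) ∧ DifferentiableAt ℝ f x ∧
      (fderiv ℝ f x).det ≠ 0 ∧ ∀ h : E (n + 2), ‖h‖ = 1 →
        |(fderiv ℝ f x).det| ≤ K * ‖fderiv ℝ f x h‖ ^ (n + 2))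
    (m : ℕ) (hm : ∀ W ∈ nhds x₀, ∃ y, (m : ℕ∞) ≤ (W ∩ f ⁻¹' {y}).encard)
    {Φ : E (n + 2) → E (n + 2)} {R : E (n + 2) ≃ₗᵢ[ℝ] E (n + 2)} (hΦ : ContDiffAt ℝ 1 Φ (f x₀))
    (hR : ∀ h, fderiv ℝ Φ (f x₀) h = R h) (hax : ∀ x, ax (Φ x) ↔ H x = 0)
    {δ : ℝ} (hδ : 0 < δ) (hδ1 : δ < 1) :
    m * cb n ≤ (1 + δ) * K / (1 - δ) ^ (n + 2) := by
  obtain ⟨ρ, hρ, hb, hinj, hop⟩ := straight_bounds hΦ hR hδ hδ1
  have hD1 : IsOpen (D ∩ f ⁻¹' Metric.ball (f x₀) ρ) :=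
    hc.isOpen_inter_preimage hD Metric.isOpen_ball
  have hx1 : x₀ ∈ D ∩ f ⁻¹' Metric.ball (f x₀) ρ := ⟨hx₀, Metric.mem_ball_self hρ⟩
  refine flat_bound3 hn (D := D ∩ f ⁻¹' Metric.ball (f x₀) ρ) (f := fun x => Φ (f x)) hD1 ?_ ?_ ?_
    ?_ hx1 ((hax _).2 h0) m ?_
  · have hΦc : ContinuousOn Φ (Metric.ball (f x₀) ρ) := fun y hy =>
      (hb y hy).1.continuousAt.continuousWithinAt
    exact hΦc.comp (hc.mono inter_subset_left) fun x hx => hx.2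
  · intro O hO hOo
    have h1 : IsOpen (f '' O) := ho O (hO.trans inter_subset_left) hOo
    have h2 : f '' O ⊆ Metric.ball (f x₀) ρ := by
      rintro _ ⟨x, hx, rfl⟩
      exact (hO hx).2
    have h3 := hop _ h2 h1
    rw [← image_comp] at h3
    exact h3
  · intro x hx
    obtain ⟨W, hW, hWd⟩ := hdisc x hx.1
    refine ⟨W ∩ (D ∩ f ⁻¹' Metric.ball (f x₀) ρ), Filter.inter_mem hW (hD1.mem_nhds hx), ?_⟩
    rintro z ⟨hz1, hz2⟩ hz3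
    exact hWd z hz1 (hinj hz2.2 hx.2 hz3)
  · intro x hx hxa
    obtain ⟨⟨W, hW, hWi⟩, hd, hdet, hbd⟩ := hoff x hx.1 (fun h => hxa ((hax _).2 h))
    obtain ⟨g1, g2, g3, g4⟩ := hb (f x) hx.2
    have hfd : fderiv ℝ (fun x => Φ (f x)) x = (fderiv ℝ Φ (f x)).comp (fderiv ℝ f x) :=
      fderiv_comp x g1 hd
    refine ⟨⟨W ∩ (D ∩ f ⁻¹' Metric.ball (f x₀) ρ), Filter.inter_mem hW (hD1.mem_nhds hx), ?_⟩,
      g1.comp x hd, ?_, ?_⟩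
    · rintro a ⟨ha1, ha2⟩ b ⟨hb1, hb2⟩ hab
      exact hWi ha1 hb1 (hinj ha2.2 hb2.2 hab)
    · rw [hfd, KTop_det]
      exact mul_ne_zero g2 hdet
    · intro h hh
      rw [hfd]
      exact KTop_chain hδ hδ1 g3 g4 hdet (hbd h hh)
  · intro W hW
    obtain ⟨y, hy⟩ := hm (W ∩ (D ∩ f ⁻¹' Metric.ball (f x₀) ρ))
      (Filter.inter_mem hW (hD1.mem_nhds hx1))
    refine ⟨Φ y, hy.trans (encard_le_encard ?_)⟩
    rintro z ⟨⟨hz1, -⟩, hz2⟩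
    refine ⟨hz1, ?_⟩
    have h1 : f z = y := hz2
    change Φ (f z) = Φ y
    rw [h1]

theorem c1_bound3 {n : ℕ} (hn : 1 ≤ n) {D : Set (E (n + 2))} {f : E (n + 2) → E (n + 2)} {K : ℝ}
    (hD : IsOpen D) (hc : ContinuousOn f D) (ho : ∀ O ⊆ D, IsOpen O → IsOpen (f '' O))
    (hdisc : ∀ x ∈ D, ∃ W ∈ nhds x, ∀ z ∈ W, f z = f x → z = x)
    {x₀ : E (n + 2)} (hx₀ : x₀ ∈ D) {H : E (n + 2) → E 2} (hH : ContDiffAt ℝ 1 H (f x₀))
    (hs : Function.Surjective (fderiv ℝ H (f x₀))) (h0 : H (f x₀) = 0)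
    (hoff : ∀ x ∈ D, H (f x) ≠ 0 → (∃ W ∈ nhds x, InjOn f W) ∧ DifferentiableAt ℝ f x ∧
      (fderiv ℝ f x).det ≠ 0 ∧ ∀ h : E (n + 2), ‖h‖ = 1 →
        |(fderiv ℝ f x).det| ≤ K * ‖fderiv ℝ f x h‖ ^ (n + 2))
    (m : ℕ) (hm : ∀ W ∈ nhds x₀, ∃ y, (m : ℕ∞) ≤ (W ∩ f ⁻¹' {y}).encard) :
    m * cb n ≤ K := by
  obtain ⟨Φ, R, hΦ, hR, hax⟩ := exists_straight hH hs
  have hlim : Filter.Tendsto (fun δ : ℝ => (1 + δ) * K / (1 - δ) ^ (n + 2))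
      (nhdsWithin 0 (Ioi 0)) (nhds K) := by
    have h1 : ContinuousAt (fun δ : ℝ => (1 + δ) * K / (1 - δ) ^ (n + 2)) 0 := by
      have h2 : ContinuousAt (fun δ : ℝ => (1 + δ) * K) 0 := by fun_prop
      have h3 : ContinuousAt (fun δ : ℝ => (1 - δ) ^ (n + 2)) 0 := by fun_prop
      exact h2.div h3 (by simp)
    have h2 : Filter.Tendsto (fun δ : ℝ => (1 + δ) * K / (1 - δ) ^ (n + 2))
        (nhdsWithin 0 (Ioi 0)) (nhds ((1 + 0) * K / (1 - 0) ^ (n + 2))) :=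
      h1.tendsto.mono_left nhdsWithin_le_nhds
    have h3 : (1 + 0) * K / (1 - 0) ^ (n + 2) = K := by
      rw [add_zero, sub_zero, one_pow, one_mul, div_one]
    rw [h3] at h2
    exact h2
  refine ge_of_tendsto hlim ?_
  filter_upwards [Ioo_mem_nhdsGT (show (0 : ℝ) < 1 by norm_num)] with δ hδ
  exact KTop_step hn hD hc ho hdisc hx₀ h0 hoff m hm hΦ hR hax hδ.1 hδ.2

end MK
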