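import Pool.Agent.H16.MK.KPsi

/-! The integral of one variable (MP_c844e7, dimensions three to five). -/

set_option autoImplicit false

open MeasureTheory Set MB

namespace MK

/-- The inner integral. -/
noncomputable def ps (n : ℕ) (r w ρ : ℝ) : ℝ :=
  ∫ W, (tf r ρ (sq W) - n / (n + 2) * (mf n r ρ (sq W) / w ^ 2) ^ (((n : ℝ) + 2) / n))
    ∂(gad (n + 1))

/-- The integrand of one variable. -/
noncomputable def Jk (n : ℕ) (r w ρ : ℝ) : ℝ := ρ * Real.exp (-ρ ^ 2 / 2) * ps n r w ρ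

theorem KTot {n : ℕ} (hn : 1 ≤ n) {r w : ℝ} (hr : 0 < r) (hr1 : r ≤ 1 / 2) (hw : 0 < w) {c : ℝ}
    (hc : 0 ≤ c) (h : ∀ R : ℝ, 0 < R → ∃ G : E (n + 2) → E (n + 2), Dat c R G) :
    IntegrableOn (Jk n r w) (Ioi (0 : ℝ)) ∧
    ∫ ρ in Ioi (0 : ℝ), Jk n r w ρ ≤ 2 / (n + 2) * w ^ (n + 2) * c := by
  have h1 := crl hn hr hr1 hw hc h
  have h2 := tK_int n hr hr1
  have h3 := (mKq_int hn hr hr1 hw).const_mul ((n : ℝ) / (n + 2))
  rw [← integral_const_mul, ← integral_sub h2 h3] at h1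
  have h4 := mf_meas n r
  have h5 := tf_meas r
  obtain ⟨h6, h7⟩ := KRed_main (n := n)
    (fun p => tK n r p - n / (n + 2) * (mK n r p / w ^ 2) ^ (((n : ℝ) + 2) / n))
    (fun ρ S => tf r ρ S - n / (n + 2) * (mf n r ρ S / w ^ 2) ^ (((n : ℝ) + 2) / n))
    (by
      exact h5.sub (((h4.div_const _).pow_const _).const_mul _)) (h2.sub h3)
    (fun p hp => by rw [tK_eq n r p hp, mK_eq n r p hp])
  refine ⟨h6, ?_⟩
  rw [h7] at h1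
  exact h1

/-- From two pieces. -/
theorem KTwo {J : ℝ → ℝ} (hJ : IntegrableOn J (Ioi (0 : ℝ))) {b1 b2 : ℝ}
    (h1 : b1 ≤ ∫ x in (0 : ℝ)..(1 / 2), J x) (h2 : b2 ≤ ∫ x in Ioi (1 / 2 : ℝ), J x) :
    b1 + b2 ≤ ∫ x in Ioi (0 : ℝ), J x := by
  rw [← intervalIntegral.integral_interval_add_Ioi hJ 
    (hJ.mono_set (Ioi_subset_Ioi (show (0 : ℝ) ≤ 1 / 2 by norm_num)))]
  linarith

/-- The moments of the first order, `n = 1`. -/
theorem gk_of_ge {r ρ : ℝ} (h : 1 / 2 ≤ ρ) :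
    gk r ρ = (ρ - 1 / 2) * (ρ + 2) / 2 / (ρ * (ρ + r)) := by
  unfold gk
  rw [gr_of_ge h]

theorem kk_of_ge {r ρ : ℝ} (h : 1 / 2 ≤ ρ) : kk r ρ = 1 / 2 + 3 / (4 * ρ) := by
  unfold kk
  rw [if_pos h]

theorem gk_of_lt {r ρ : ℝ} (h0 : 0 ≤ ρ) (h : ρ < 1 / 2) : gk r ρ = 0 := by
  unfold gk
  rw [gr_of_le h0 h.le, zero_div]

theorem kk_of_lt {r ρ : ℝ} (h : ρ < 1 / 2) :
    kk r ρ = om r ρ * Real.exp ((ρ ^ 2 - 1 / 4) / 2) / ρ := by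
  unfold kk
  rw [if_neg (not_le.2 h)]

end MK
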