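import Pool.Agent.H16.MK.KWrd
import Pool.Agent.H16.MC.Wpw
import Pool.Agent.H16.MB.Gpd

/-!
Row Wpw (MP_c844e7, about 100 lines).  Weighted Poincaré inequality without the angular derivative.

PROOF.  `wvr` with `μ = ga2`, `ν = gad (n+1)`, `w z = gk r (rz z)` (`gw_mem`, `rz ≥ 0`; `0 < ∫ w`: `w > 0` on the open set `rz z > s`, which has positive measure for `ga2`), `f = v` (`MemLp` by `mom_gaT`, `gaT n = ga2.prod (gad (n+1))`),
`b0 W = v (0, W)`.  First term: `wrd` for `z ↦ v (z, W)`, for every `W`.  Second term: for `z ≠ 0` (almost every `z`: `ga2 {0} = 0`) `gpd` for `W ↦ v (z, W)` (continuous, linear growth with constant `|C| (1 + ‖z‖)`), then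
`lintegral_const_mul`, `lintegral_prod` for `ofReal (w p.1) * nsq (g i p)`, `lintegral_finset_sum`.
(Compare the proved row Wp, `Pool/Agent/H16/MB/Wp.lean`.)
-/

set_option autoImplicit false

open MeasureTheory Set MB

namespace MK

theorem gk_int_pos {r : ℝ} (hr : 0 < r) (hr1 : r ≤ 1 / 2) : 0 < ∫ z, gk r (rz z) ∂ga2 := by
  have hmem : ∀ z : ℝ × ℝ, 0 ≤ gk r (rz z) ∧ gk r (rz z) ≤ 1 :=
    fun z => gk_mem hr hr1 (Real.sqrt_nonneg _)
  have hmeas : Measurable (fun z : ℝ × ℝ => gk r (rz z)) := (gk_meas r).comp rz_cont.measurable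
  have hint : Integrable (fun z : ℝ × ℝ => gk r (rz z)) ga2 := by
    refine Integrable.of_bound hmeas.aestronglyMeasurable 1 (Filter.Eventually.of_forall fun z => ?_)
    rw [Real.norm_eq_abs, abs_of_nonneg (hmem z).1]
    exact (hmem z).2
  rw [integral_pos_iff_support_of_nonneg (fun z => (hmem z).1) hint]
  have hsub : Ioi (1 / 2) ×ˢ (univ : Set ℝ) ⊆ Function.support (fun z : ℝ × ℝ => gk r (rz z)) := by
    rintro ⟨x, y⟩ hz
    have hx : 1 / 2 < x := hz.1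
    have h1 : 1 / 2 < rz (x, y) := by
      unfold rz
      apply Real.lt_sqrt_of_sq_lt
      nlinarith [sq_nonneg y]
    exact (gk_pos hr h1).ne'
  refine lt_of_lt_of_le ?_ (measure_mono hsub)
  rw [Measure.prod_prod, measure_univ, mul_one, pos_iff_ne_zero]
  intro h0
  have h5 := (ProbabilityTheory.gaussianReal_absolutelyContinuous' (0 : ℝ) (v := 1) one_ne_zero) h0
  rw [Real.volume_Ioi] at h5
  exact ENNReal.top_ne_zero h5

theorem wpk {m : ℕ} (n : ℕ) {r : ℝ} (hr : 0 < r) (hr1 : r ≤ 1 / 2) (v : (ℝ × ℝ) × (Fin (n + 1) → ℝ) → E m)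
    (g : Fin (n + 1) → (ℝ × ℝ) × (Fin (n + 1) → ℝ) → E m)
    (h : ℝ → ℝ → (Fin (n + 1) → ℝ) → E m) (hc : Continuous v) (C : ℝ)
    (hC : ∀ p, ‖v p‖ ≤ C * (1 + ‖p‖))
    (hg : ∀ z : ℝ × ℝ, z ≠ 0 → ∀ (W : Fin (n + 1) → ℝ) (i : Fin (n + 1)),
      HasDerivAt (fun t => v (z, Function.update W i t)) (g i (z, W)) (W i))
    (hgm : ∀ i, Measurable (g i))
    (hd : ∀ (W : Fin (n + 1) → ℝ) (θ : ℝ), ∀ ρ > 0,
      HasDerivAt (fun r => v (pol r θ, W)) (h ρ θ W) ρ)
    (hm : Measurable (fun p : ℝ × ℝ × (Fin (n + 1) → ℝ) => h p.1 p.2.1 p.2.2))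
    (h0 : ∫ p, gk r (rz p.1) • v p ∂(gaT n) = 0) :
    ∫⁻ p, ENNReal.ofReal (gk r (rz p.1)) * nsq (v p) ∂(gaT n) ≤
      ∑ i, ∫⁻ p, ENNReal.ofReal (gk r (rz p.1)) * nsq (g i p) ∂(gaT n) +
      ∫⁻ W, ∫⁻ θ, dbk r (fun ρ => nsq (h ρ θ W)) ∂ang ∂(gad (n + 1)) := by
  have hmem : ∀ z : ℝ × ℝ, 0 ≤ gk r (rz z) ∧ gk r (rz z) ≤ 1 :=
    fun z => gk_mem hr hr1 (Real.sqrt_nonneg _)
  have hmeas : Measurable (fun z : ℝ × ℝ => gk r (rz z)) := (gk_meas r).comp rz_cont.measurable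
  refine (wvr ga2 (gad (n + 1)) (fun z => gk r (rz z)) hmeas (fun z => (hmem z).1)
    (fun z => (hmem z).2) (gk_int_pos hr hr1) v (mom_gaT n v hc C hC) h0 (fun W => v (0, W))
    (hc.comp (Continuous.prodMk_right 0)).measurable).trans ?_
  rw [add_comm]
  refine add_le_add ?_ ?_
  · have h2 : ∀ᵐ z ∂ga2, ENNReal.ofReal (gk r (rz z)) *
        ∫⁻ W, nsq (v (z, W) - ∫ W', v (z, W') ∂(gad (n + 1))) ∂(gad (n + 1)) ≤
        ∑ i, ∫⁻ W, ENNReal.ofReal (gk r (rz z)) * nsq (g i (z, W)) ∂(gad (n + 1)) := by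
      filter_upwards [Wpw_ne] with z hz
      have h3 : ∀ i : Fin (n + 1), ∫⁻ W, ENNReal.ofReal (gk r (rz z)) * nsq (g i (z, W)) ∂(gad (n + 1)) =
          ENNReal.ofReal (gk r (rz z)) * ∫⁻ W, nsq (g i (z, W)) ∂(gad (n + 1)) := by
        intro i
        have h5 : Measurable (fun W : Fin (n + 1) → ℝ => nsq (g i (z, W))) :=
          Wpw_nsq_meas ((hgm i).comp measurable_prodMk_left)
        exact lintegral_const_mul _ h5
      rw [Finset.sum_congr rfl (fun i _ => h3 i), ← Finset.mul_sum]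
      refine mul_le_mul_right ?_ _
      refine gpd (n + 1) (fun W => v (z, W)) (fun i W => g i (z, W))
        (hc.comp (Continuous.prodMk_right z)) (|C| * (1 + ‖z‖)) (fun W => ?_)
        (fun W i => hg z hz W i) (fun i => (hgm i).comp measurable_prodMk_left)
      refine (Wpw_b1 hC z W).trans (le_of_eq ?_)
      ring
    have h4 : ∀ i, Measurable (fun p : (ℝ × ℝ) × (Fin (n + 1) → ℝ) =>
        ENNReal.ofReal (gk r (rz p.1)) * nsq (g i p)) := fun i =>
      (hmeas.comp measurable_fst).ennreal_ofReal.mul (Wpw_nsq_meas (hgm i))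
    refine (lintegral_mono_ae h2).trans (le_of_eq ?_)
    rw [lintegral_finsetSum]
    · refine Finset.sum_congr rfl fun i _ => ?_
      rw [lintegral_prod _ (h4 i).aemeasurable]
    · intro i _
      exact (h4 i).lintegral_prod_right'
  · refine lintegral_mono fun W => ?_
    exact wrk hr hr1 (fun z => v (z, W)) (fun ρ θ => h ρ θ W) (hc.comp (Continuous.prodMk_left W))
      (fun θ ρ hρ => hd W θ ρ hρ)
      (hm.comp (measurable_fst.prodMk (measurable_snd.prodMk measurable_const)))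

end MK
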