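import Pool.Agent.H16.MK.KKg
import Pool.Agent.H16.MB.Pol

/-! Weighted radial inequality in the plane (MP_c844e7, dimensions three and four). -/

set_option autoImplicit false

open MeasureTheory Set MB

namespace MK

theorem wrk {m : ℕ} {r : ℝ} (hr : 0 < r) (hr1 : r ≤ 1 / 2) (u : ℝ × ℝ → E m) (h : ℝ → ℝ → E m)
    (hc : Continuous u)
    (hd : ∀ θ, ∀ ρ > 0, HasDerivAt (fun r => u (pol r θ)) (h ρ θ) ρ)
    (hm : Measurable (Function.uncurry h)) :
    ∫⁻ z, ENNReal.ofReal (gk r (rz z)) * nsq (u z - u 0) ∂ga2 ≤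
      ∫⁻ θ, dbk r (fun ρ => nsq (h ρ θ)) ∂ang := by
  have hmeas : Measurable (fun z : ℝ × ℝ => ENNReal.ofReal (gk r (rz z)) * nsq (u z - u 0)) := by
    refine ((gk_meas r).comp rz_cont.measurable).ennreal_ofReal.mul ?_
    unfold nsq
    exact (((hc.sub continuous_const).norm.pow 2).measurable).ennreal_ofReal
  rw [pol_int _ hmeas]
  refine lintegral_mono fun θ => ?_
  unfold dbk
  refine setLIntegral_mono' measurableSet_Ioi fun R hR => ?_
  have hR0 : (0 : ℝ) < R := hR
  have hpc : Continuous (fun r : ℝ => pol r θ) := by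
    unfold pol
    fun_prop
  have hp0 : pol 0 θ = 0 := by simp [pol]
  rw [rz_pol hR0.le]
  rcases lt_or_ge R (1 / 2) with hlt | hge
  · have h0 : gk r R = 0 := by
      unfold gk
      rw [gr_of_le hR0.le hlt.le, zero_div]
    rw [h0, ENNReal.ofReal_zero, zero_mul, mul_zero]
    exact bot_le
  have hf := ftc_w (fun r => u (pol r θ)) (fun r => h r θ) hr (hr1.trans hge)
    (hc.comp hpc).continuousOn (fun x hx => hd θ x hx.1)
    (hm.comp (measurable_id.prodMk measurable_const)).aestronglyMeasurable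
  simp only [hp0] at hf
  have hg := (gk_mem hr hr1 hR0.le).1
  have hgr : gk r R * (R * (R + r)) = gr R := by
    unfold gk
    have : R * (R + r) ≠ 0 := (mul_pos hR0 (by linarith)).ne'
    field_simp
  calc ENNReal.ofReal (R * Real.exp (-R ^ 2 / 2)) * (ENNReal.ofReal (gk r R) *
        nsq (u (pol R θ) - u 0))
      ≤ ENNReal.ofReal (R * Real.exp (-R ^ 2 / 2)) * (ENNReal.ofReal (gk r R) *
          (ENNReal.ofReal (R + r) *
            ∫⁻ t in Ioo 0 R, ENNReal.ofReal (om r t) * nsq (h t θ))) := by gcongr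
    _ = ENNReal.ofReal (gr R * Real.exp (-R ^ 2 / 2)) *
          ∫⁻ ρ in Ioo 0 R, ENNReal.ofReal (om r ρ) * nsq (h ρ θ) := by
        rw [← mul_assoc, ← mul_assoc, ← ENNReal.ofReal_mul (by positivity),
          ← ENNReal.ofReal_mul (mul_nonneg (by positivity) hg)]
        congr 2
        rw [← hgr]
        ring

end MK
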